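import Mathlib

set_option autoImplicit false

/-!
The explicit conformal map of the complement of the plus shaped base tree and the estimates for
the base potential.
-/

namespace Pool.Agent.H209

open Set Filter Topology Metric Complex

/-- Principal square root. -/
noncomputable def csq (w : ℂ) : ℂ := w ^ (((2 : ℕ) : ℂ)⁻¹)

lemma csq_sq (w : ℂ) : csq w ^ 2 = w := Complex.cpow_nat_inv_pow w two_ne_zero

lemma csq_re_pos {w : ℂ} (hw : w ∈ slitPlane) : 0 < (csq w).re := by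
  have h0 : w ≠ 0 := slitPlane_ne_zero hw
  rw [csq, cpow_def_of_ne_zero h0, exp_re]
  apply mul_pos (Real.exp_pos _)
  have him : (log w * (((2 : ℕ) : ℂ)⁻¹)).im = arg w / 2 := by
    have : (((2 : ℕ) : ℂ)⁻¹) = ((1/2 : ℝ) : ℂ) := by push_cast; norm_num
    rw [this, im_mul_ofReal, log_im]; ring
  rw [him]
  have h1 : arg w ≠ Real.pi := (mem_slitPlane_iff_arg.mp hw).1
  have h2 := neg_pi_lt_arg w
  have h3 := lt_of_le_of_ne (arg_le_pi w) h1
  exact Real.cos_pos_of_mem_Ioo ⟨by linarith, by linarith⟩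

lemma csq_differentiableAt {w : ℂ} (hw : w ∈ slitPlane) : DifferentiableAt ℂ csq w :=
  differentiableAt_id.cpow_const hw

/-- The positive harmonic function `Re √z`. -/
noncomputable def H (z : ℂ) : ℝ := Real.sqrt ((‖z‖ + z.re) / 2)

lemma H_nonneg (z : ℂ) : 0 ≤ H z := Real.sqrt_nonneg _

lemma norm_add_re_nonneg (z : ℂ) : 0 ≤ ‖z‖ + z.re := by
  have := abs_re_le_norm z
  have := neg_abs_le z.re
  linarith

lemma norm_sub_re_nonneg (z : ℂ) : 0 ≤ ‖z‖ - z.re := by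
  have := abs_re_le_norm z
  have := le_abs_self z.re
  linarith

lemma norm_add_mul_sub (z : ℂ) : (‖z‖ + z.re) * (‖z‖ - z.re) = z.im ^ 2 := by
  have h := Complex.sq_norm z
  rw [Complex.normSq_apply] at h
  nlinarith

lemma H_sq (z : ℂ) : H z ^ 2 = (‖z‖ + z.re) / 2 :=
  Real.sq_sqrt (by have := norm_add_re_nonneg z; linarith)

lemma continuous_H : Continuous H := by
  unfold H; fun_prop

lemma re_of_sq {q w : ℂ} (h : q ^ 2 = w) : q.re ^ 2 = (‖w‖ + w.re) / 2 := by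
  have h1 : ‖w‖ = ‖q‖ ^ 2 := by rw [← h, norm_pow]
  have h2 : w.re = q.re ^ 2 - q.im ^ 2 := by
    rw [← h, sq, mul_re]; ring
  rw [h1, h2, Complex.sq_norm, normSq_apply]; ring

lemma im_of_sq {q w : ℂ} (h : q ^ 2 = w) : q.im ^ 2 = (‖w‖ - w.re) / 2 := by
  have h1 : ‖w‖ = ‖q‖ ^ 2 := by rw [← h, norm_pow]
  have h2 : w.re = q.re ^ 2 - q.im ^ 2 := by
    rw [← h, sq, mul_re]; ring
  rw [h1, h2, Complex.sq_norm, normSq_apply]; ring

lemma re_eq_H {q w : ℂ} (h : q ^ 2 = w) (hq : 0 ≤ q.re) : q.re = H w := by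
  rw [H, ← re_of_sq h, Real.sqrt_sq hq]

lemma H_le (z : ℂ) : H z ≤ Real.sqrt ‖z‖ := by
  apply Real.sqrt_le_sqrt
  have := re_le_norm z
  linarith

lemma H_smul {k : ℝ} (hk : 0 ≤ k) (z : ℂ) : H ((k : ℂ) * z) = Real.sqrt k * H z := by
  rw [H, H, ← Real.sqrt_mul hk]
  congr 1
  rw [norm_mul, re_ofReal_mul, Complex.norm_of_nonneg hk]
  ring

lemma H_eq_zero {z : ℂ} (h1 : z.im = 0) (h2 : z.re ≤ 0) : H z = 0 := by
  rw [H]
  have : ‖z‖ = -z.re := by
    have hz : z = ((z.re : ℝ) : ℂ) := Complex.ext (by simp) (by simp [h1])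
    rw [hz, Complex.norm_real, Real.norm_of_nonpos h2]
    simp
  rw [this]
  simp

lemma mem_slitPlane_of_H {z : ℂ} (h : 0 < H z) : z ∈ slitPlane := by
  rw [mem_slitPlane_iff]
  by_contra hcon
  push Not at hcon
  exact absurd (H_eq_zero hcon.2 hcon.1) h.ne'

/-! ### Comparison of `‖w‖ + re w` and `a (‖v‖ + re v)` -/

lemma A_upper {w v : ℂ} {a e e1 : ℝ} (ha : 0 < a) (he : 0 ≤ e) (he' : e < 1) (he1 : 0 ≤ e1)
    (hd : 2 * ‖w - a * v‖ ≤ e * (a * ‖v‖)) (him : |w.im| ≤ (1 + e1) * (a * |v.im|)) :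
    (‖w‖ + w.re) * (1 - e) ≤ (1 + e1) ^ 2 * (a * (‖v‖ + v.re)) := by
  set d := ‖w - a * v‖ with hdd
  have hn : |‖w‖ - a * ‖v‖| ≤ d := by
    have := abs_norm_sub_norm_le w (a * v)
    rwa [norm_mul, Complex.norm_of_nonneg ha.le] at this
  have hr : |w.re - a * v.re| ≤ d := by
    have := abs_re_le_norm (w - a * v)
    rwa [sub_re, re_ofReal_mul] at this
  have hAv := norm_add_re_nonneg v
  have hBv := norm_sub_re_nonneg v
  have hAw := norm_add_re_nonneg w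
  have hBw := norm_sub_re_nonneg w
  have hv := norm_add_mul_sub v
  have hw := norm_add_mul_sub w
  rw [abs_le] at hn hr
  have h1 : (1:ℝ) ≤ (1 + e1) ^ 2 := by nlinarith
  have haX : 0 ≤ a * (‖v‖ + v.re) := by positivity
  rcases le_or_gt 0 v.re with hre | hre
  · have hA : ‖w‖ + w.re ≤ a * (‖v‖ + v.re) + e * (a * ‖v‖) := by nlinarith [hn.2, hr.2]
    have hA2 : e * (a * ‖v‖) ≤ e * (a * (‖v‖ + v.re)) := by
      apply mul_le_mul_of_nonneg_left _ he
      apply mul_le_mul_of_nonneg_left _ ha.le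
      linarith
    have hA3 : ‖w‖ + w.re ≤ a * (‖v‖ + v.re) * (1 + e) := by linarith
    calc (‖w‖ + w.re) * (1 - e) ≤ a * (‖v‖ + v.re) * (1 + e) * (1 - e) :=
          mul_le_mul_of_nonneg_right hA3 (by linarith)
      _ ≤ a * (‖v‖ + v.re) := by
          nlinarith [mul_nonneg haX (sq_nonneg e)]
      _ ≤ (1 + e1) ^ 2 * (a * (‖v‖ + v.re)) := by nlinarith
  · have hnv : 0 < ‖v‖ := by
      rw [norm_pos_iff]; rintro rfl; simp at hre
    have hY : 0 < ‖v‖ - v.re := by linarith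
    have hB : a * (‖v‖ - v.re) - e * (a * ‖v‖) ≤ ‖w‖ - w.re := by nlinarith [hn.1, hr.1, hr.2]
    have hB2 : e * (a * ‖v‖) ≤ e * (a * (‖v‖ - v.re)) := by
      apply mul_le_mul_of_nonneg_left _ he
      apply mul_le_mul_of_nonneg_left _ ha.le
      linarith
    have hB3 : a * (‖v‖ - v.re) * (1 - e) ≤ ‖w‖ - w.re := by linarith
    have him2 : w.im ^ 2 ≤ (1 + e1) ^ 2 * (a ^ 2 * v.im ^ 2) := by
      have := mul_self_le_mul_self (abs_nonneg _) him
      rw [abs_mul_abs_self] at this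
      have h3 : (1 + e1) * (a * |v.im|) * ((1 + e1) * (a * |v.im|)) =
          (1 + e1) ^ 2 * (a ^ 2 * (|v.im| * |v.im|)) := by ring
      rw [h3, abs_mul_abs_self] at this
      nlinarith
    have h4 : (‖w‖ + w.re) * (a * (‖v‖ - v.re) * (1 - e)) ≤
        (1 + e1) ^ 2 * (a ^ 2 * ((‖v‖ + v.re) * (‖v‖ - v.re))) := by
      rw [hv]
      refine le_trans ?_ him2
      rw [← hw]
      exact mul_le_mul_of_nonneg_left hB3 hAw
    have h5 : 0 < a * (‖v‖ - v.re) := mul_pos ha hY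
    refine le_of_mul_le_mul_right ?_ h5
    calc (‖w‖ + w.re) * (1 - e) * (a * (‖v‖ - v.re))
        = (‖w‖ + w.re) * (a * (‖v‖ - v.re) * (1 - e)) := by ring
      _ ≤ _ := h4
      _ = _ := by ring

lemma A_lower {w v : ℂ} {a e e1 : ℝ} (ha : 0 < a) (he : 0 ≤ e) (he' : e < 1) (he1 : 0 ≤ e1)
    (he1' : e1 ≤ 1)
    (hd : 2 * ‖w - a * v‖ ≤ e * (a * ‖v‖)) (him : (1 - e1) * (a * |v.im|) ≤ |w.im|) :
    (1 - e1) ^ 2 * (1 - e) * (a * (‖v‖ + v.re)) ≤ ‖w‖ + w.re := by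
  set d := ‖w - a * v‖ with hdd
  have hn : |‖w‖ - a * ‖v‖| ≤ d := by
    have := abs_norm_sub_norm_le w (a * v)
    rwa [norm_mul, Complex.norm_of_nonneg ha.le] at this
  have hr : |w.re - a * v.re| ≤ d := by
    have := abs_re_le_norm (w - a * v)
    rwa [sub_re, re_ofReal_mul] at this
  have hAv := norm_add_re_nonneg v
  have hBv := norm_sub_re_nonneg v
  have hAw := norm_add_re_nonneg w
  have hBw := norm_sub_re_nonneg w
  have hv := norm_add_mul_sub v
  have hw := norm_add_mul_sub w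
  rw [abs_le] at hn hr
  have h1 : (1 - e1) ^ 2 ≤ 1 := by nlinarith
  have haX : 0 ≤ a * (‖v‖ + v.re) := by positivity
  rcases le_or_gt 0 v.re with hre | hre
  · have hA : a * (‖v‖ + v.re) - e * (a * ‖v‖) ≤ ‖w‖ + w.re := by nlinarith [hn.1, hr.1]
    have hA2 : e * (a * ‖v‖) ≤ e * (a * (‖v‖ + v.re)) := by
      apply mul_le_mul_of_nonneg_left _ he
      apply mul_le_mul_of_nonneg_left _ ha.le
      linarith
    have hA3 : (1 - e) * (a * (‖v‖ + v.re)) ≤ ‖w‖ + w.re := by linarith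
    refine le_trans ?_ hA3
    have : (1 - e1) ^ 2 * ((1 - e) * (a * (‖v‖ + v.re))) ≤ 1 * ((1 - e) * (a * (‖v‖ + v.re))) :=
      mul_le_mul_of_nonneg_right h1 (mul_nonneg (by linarith) haX)
    linarith
  · have hnv : 0 < ‖v‖ := by
      rw [norm_pos_iff]; rintro rfl; simp at hre
    have hY : 0 < ‖v‖ - v.re := by linarith
    have hB : ‖w‖ - w.re ≤ a * (‖v‖ - v.re) + e * (a * ‖v‖) := by nlinarith [hn.2, hr.1, hr.2]
    have hB2 : e * (a * ‖v‖) ≤ e * (a * (‖v‖ - v.re)) := by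
      apply mul_le_mul_of_nonneg_left _ he
      apply mul_le_mul_of_nonneg_left _ ha.le
      linarith
    have hB3 : ‖w‖ - w.re ≤ a * (‖v‖ - v.re) * (1 + e) := by linarith
    have him2 : (1 - e1) ^ 2 * (a ^ 2 * v.im ^ 2) ≤ w.im ^ 2 := by
      have := mul_self_le_mul_self (by have := abs_nonneg v.im; have : 0 ≤ 1 - e1 := by linarith
                                       positivity) him
      rw [abs_mul_abs_self] at this
      have h3 : (1 - e1) * (a * |v.im|) * ((1 - e1) * (a * |v.im|)) =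
          (1 - e1) ^ 2 * (a ^ 2 * (|v.im| * |v.im|)) := by ring
      rw [h3, abs_mul_abs_self] at this
      nlinarith
    have h4 : (1 - e1) ^ 2 * (a ^ 2 * ((‖v‖ + v.re) * (‖v‖ - v.re))) ≤
        (‖w‖ + w.re) * (a * (‖v‖ - v.re) * (1 + e)) := by
      rw [hv]
      refine le_trans him2 ?_
      rw [← hw]
      exact mul_le_mul_of_nonneg_left hB3 hAw
    have h5 : 0 < a * (‖v‖ - v.re) := mul_pos ha hY
    have h6 : (1 - e1) ^ 2 * (a * (‖v‖ + v.re)) ≤ (‖w‖ + w.re) * (1 + e) := by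
      refine le_of_mul_le_mul_right ?_ h5
      calc (1 - e1) ^ 2 * (a * (‖v‖ + v.re)) * (a * (‖v‖ - v.re))
          = (1 - e1) ^ 2 * (a ^ 2 * ((‖v‖ + v.re) * (‖v‖ - v.re))) := by ring
        _ ≤ _ := h4
        _ = _ := by ring
    calc (1 - e1) ^ 2 * (1 - e) * (a * (‖v‖ + v.re))
        = ((1 - e1) ^ 2 * (a * (‖v‖ + v.re))) * (1 - e) := by ring
      _ ≤ ((‖w‖ + w.re) * (1 + e)) * (1 - e) := mul_le_mul_of_nonneg_right h6 (by linarith)
      _ ≤ ‖w‖ + w.re := by nlinarith [mul_nonneg hAw (sq_nonneg e)]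

/-! ### The base tree -/

/-- The base tree: the half line `(-∞, 1]` together with the segment `[-i, i]`. -/
def Kb : Set ℂ := {z | (z.im = 0 ∧ z.re ≤ 1) ∨ (z.re = 0 ∧ |z.im| ≤ 1)}

lemma isClosed_Kb : IsClosed Kb := by
  apply IsClosed.union
  · exact (isClosed_eq continuous_im continuous_const).inter
      (isClosed_le continuous_re continuous_const)
  · exact (isClosed_eq continuous_re continuous_const).inter
      (isClosed_le (continuous_abs.comp continuous_im) continuous_const)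

lemma isOpen_Kbc : IsOpen Kbᶜ := isClosed_Kb.isOpen_compl

lemma ne_zero_of_notMem {z : ℂ} (hz : z ∉ Kb) : z ≠ 0 := by
  rintro rfl
  exact hz (Or.inl ⟨rfl, by simp⟩)

/-- `√(1 + 1/z²)`. -/
noncomputable def zet (z : ℂ) : ℂ := csq (1 + (z ^ 2)⁻¹)

/-- The branch of `√(z² + 1)` off the segment `[-i,i]` asymptotic to `z`. -/
noncomputable def sf (z : ℂ) : ℂ := z * zet z

lemma slit1 {z : ℂ} (hz : z ∉ Kb) : 1 + (z ^ 2)⁻¹ ∈ slitPlane := by
  have h0 := ne_zero_of_notMem hz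
  rw [mem_slitPlane_iff]
  by_contra hcon
  push Not at hcon
  obtain ⟨h1, h2⟩ := hcon
  set x := (1 + (z ^ 2)⁻¹).re with hx
  have h3 : 1 + (z ^ 2)⁻¹ = (x : ℂ) :=
    Complex.ext (by rw [ofReal_re]) (by rw [ofReal_im]; exact h2)
  have h4 : (z ^ 2)⁻¹ = ((x - 1 : ℝ) : ℂ) := by
    push_cast; rw [← h3]; ring
  have h5 : z ^ 2 = (((x - 1)⁻¹ : ℝ) : ℂ) := by
    rw [← inv_inv (z ^ 2), h4]; push_cast; rfl
  have hre : z.re ^ 2 - z.im ^ 2 = (x - 1)⁻¹ := by
    have := congrArg Complex.re h5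
    rw [ofReal_re, sq, mul_re] at this
    linarith
  have him : 2 * z.re * z.im = 0 := by
    have := congrArg Complex.im h5
    rw [ofReal_im, sq, mul_im] at this
    linarith
  have hx1 : x - 1 < 0 := by linarith
  have hinv : (x - 1)⁻¹ < 0 := inv_lt_zero.mpr hx1
  have hinv2 : -1 ≤ (x - 1)⁻¹ := by
    have h6 : (x - 1) * (x - 1)⁻¹ = 1 := mul_inv_cancel₀ hx1.ne
    nlinarith
  have hre0 : z.re = 0 := by
    rcases mul_eq_zero.mp him with h | h
    · linarith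
    · rw [h] at hre
      nlinarith [sq_nonneg z.re]
  apply hz
  right
  refine ⟨hre0, ?_⟩
  rw [hre0] at hre
  rw [← sq_le_one_iff_abs_le_one]
  nlinarith

lemma zet_re_pos {z : ℂ} (hz : z ∉ Kb) : 0 < (zet z).re := csq_re_pos (slit1 hz)

lemma sf_sq {z : ℂ} (hz : z ∉ Kb) : sf z ^ 2 = z ^ 2 + 1 := by
  have h0 := ne_zero_of_notMem hz
  rw [sf, mul_pow, zet, csq_sq, mul_add, mul_one, mul_inv_cancel₀ (pow_ne_zero 2 h0)]

lemma sf_mul {z : ℂ} (hz : z ∉ Kb) : (sf z + z) * (sf z - z) = 1 := by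
  have := sf_sq hz
  linear_combination this

lemma norm_sub_lt {z : ℂ} (hz : z ∉ Kb) : ‖sf z - z‖ < ‖sf z + z‖ := by
  have h0 := ne_zero_of_notMem hz
  have h1 : sf z - z = z * (zet z - 1) := by rw [sf]; ring
  have h2 : sf z + z = z * (zet z + 1) := by rw [sf]; ring
  rw [h1, h2, norm_mul, norm_mul]
  apply mul_lt_mul_of_pos_left _ (norm_pos_iff.mpr h0)
  have h3 := zet_re_pos hz
  rw [← sq_lt_sq₀ (norm_nonneg _) (norm_nonneg _), Complex.sq_norm, Complex.sq_norm,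
    normSq_apply, normSq_apply]
  simp only [sub_re, sub_im, add_re, add_im, one_re, one_im]
  nlinarith

lemma one_lt_norm {z : ℂ} (hz : z ∉ Kb) : 1 < ‖sf z + z‖ := by
  have h1 := sf_mul hz
  have h2 := norm_sub_lt hz
  have h3 : ‖sf z + z‖ * ‖sf z - z‖ = 1 := by rw [← norm_mul, h1, norm_one]
  have h4 := norm_nonneg (sf z - z)
  by_contra hcon
  push Not at hcon
  nlinarith

lemma norm_sub_lt_one {z : ℂ} (hz : z ∉ Kb) : ‖sf z - z‖ < 1 := by
  have h1 := sf_mul hz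
  have h2 := one_lt_norm hz
  have h3 : ‖sf z + z‖ * ‖sf z - z‖ = 1 := by rw [← norm_mul, h1, norm_one]
  have h4 := norm_nonneg (sf z - z)
  by_contra hcon
  push Not at hcon
  nlinarith

/-- The Joukowski relations between `s` and `z`. -/
lemma jouk {z : ℂ} (hz : z ∉ Kb) :
    (sf z).re * (‖sf z + z‖ ^ 2 - 1) = z.re * (‖sf z + z‖ ^ 2 + 1) ∧
    (sf z).im * (‖sf z + z‖ ^ 2 + 1) = z.im * (‖sf z + z‖ ^ 2 - 1) := by
  have h1 := sf_mul hz
  set u := sf z + z with hu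
  set N := ‖u‖ ^ 2 with hN
  have hN2 : (N : ℂ) = u * (starRingEnd ℂ) u := by
    rw [Complex.mul_conj, hN, Complex.sq_norm]
  have h3 : (sf z - z) * N = (starRingEnd ℂ) u := by
    rw [hN2]
    calc (sf z - z) * (u * (starRingEnd ℂ) u) = (u * (sf z - z)) * (starRingEnd ℂ) u := by ring
      _ = (starRingEnd ℂ) u := by rw [h1, one_mul]
  have hre := congrArg Complex.re h3
  have him := congrArg Complex.im h3
  rw [re_mul_ofReal, conj_re, sub_re, hu, add_re] at hre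
  rw [im_mul_ofReal, conj_im, sub_im, hu, add_im] at him
  constructor <;> linarith

lemma N_gt {z : ℂ} (hz : z ∉ Kb) : 1 < ‖sf z + z‖ ^ 2 := by
  have := one_lt_norm hz
  nlinarith

lemma abs_sf_im_eq {z : ℂ} (hz : z ∉ Kb) :
    |(sf z).im| * (‖sf z + z‖ ^ 2 + 1) = |z.im| * (‖sf z + z‖ ^ 2 - 1) := by
  have h := (jouk hz).2
  have hN := N_gt hz
  set N := ‖sf z + z‖ ^ 2
  rw [← abs_of_pos (show 0 < N + 1 by linarith), ← abs_of_pos (show 0 < N - 1 by linarith),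
    ← abs_mul, ← abs_mul, h]

lemma abs_sf_im_le {z : ℂ} (hz : z ∉ Kb) : |(sf z).im| ≤ |z.im| := by
  have h2 := abs_sf_im_eq hz
  have hN := N_gt hz
  set N := ‖sf z + z‖ ^ 2
  have := abs_nonneg z.im
  nlinarith

/-! ### The constants -/

noncomputable def r2 : ℝ := Real.sqrt 2
noncomputable def be : ℝ := Real.sqrt (Real.sqrt 2)

lemma r2_sq : r2 ^ 2 = 2 := Real.sq_sqrt (by norm_num)
lemma be_sq : be ^ 2 = r2 := Real.sq_sqrt (Real.sqrt_nonneg _)
lemma r2_pos : 0 < r2 := Real.sqrt_pos.mpr (by norm_num)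
lemma be_pos : 0 < be := Real.sqrt_pos.mpr r2_pos

lemma r2_gt : 1.41421 < r2 := Real.lt_sqrt_of_sq_lt (by norm_num)
lemma r2_lt : r2 < 1.41422 := by
  rw [r2, Real.sqrt_lt' (by norm_num)]; norm_num
lemma be_gt : 1.1892 < be := by
  apply Real.lt_sqrt_of_sq_lt
  have := r2_gt
  unfold r2 at this
  norm_num at this ⊢
  linarith
lemma be_lt : be < 1.1893 := by
  rw [be, Real.sqrt_lt' (by norm_num)]
  have := r2_lt
  unfold r2 at this
  norm_num at this ⊢
  linarith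

/-- The conformal map of the complement of the base tree onto the right half plane. -/
noncomputable def pf (z : ℂ) : ℂ := csq (sf z - r2)

lemma sf_re_im {z : ℂ} (hz : z ∉ Kb) :
    (sf z).re ^ 2 - (sf z).im ^ 2 = z.re ^ 2 - z.im ^ 2 + 1 ∧
    (sf z).re * (sf z).im = z.re * z.im := by
  have h := sf_sq hz
  have hre := congrArg Complex.re h
  have him := congrArg Complex.im h
  rw [sq, mul_re, add_re, sq, mul_re, one_re] at hre
  rw [sq, mul_im, add_im, sq, mul_im, one_im] at him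
  constructor
  · linarith
  · linarith

lemma slit2 {z : ℂ} (hz : z ∉ Kb) : sf z - r2 ∈ slitPlane := by
  rw [mem_slitPlane_iff]
  by_contra hcon
  push Not at hcon
  obtain ⟨h1, h2⟩ := hcon
  rw [sub_re, ofReal_re] at h1
  rw [sub_im, ofReal_im, sub_zero] at h2
  obtain ⟨hj1, hj2⟩ := jouk hz
  have hN := N_gt hz
  rw [h2, zero_mul] at hj2
  have hzim : z.im = 0 := by
    rcases mul_eq_zero.mp hj2.symm with h | h
    · exact h
    · linarith
  have hzre : 1 < z.re := by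
    by_contra hcon
    push Not at hcon
    exact hz (Or.inl ⟨hzim, hcon⟩)
  have hs := (sf_re_im hz).1
  rw [h2, hzim] at hs
  have hpos : 0 < (sf z).re := by
    by_contra hcon
    push Not at hcon
    nlinarith
  have := r2_sq
  have := r2_pos
  nlinarith

lemma pf_sq (z : ℂ) : pf z ^ 2 = sf z - r2 := csq_sq _

lemma pf_re_pos {z : ℂ} (hz : z ∉ Kb) : 0 < (pf z).re := csq_re_pos (slit2 hz)

lemma pf_norm_sq (z : ℂ) : ‖pf z‖ ^ 2 = ‖sf z - r2‖ := by
  rw [← norm_pow, pf_sq]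

lemma pf_ne_zero {z : ℂ} (hz : z ∉ Kb) : pf z ≠ 0 := by
  intro h
  have := pf_re_pos hz
  rw [h] at this
  simp at this

lemma pf_sub_ne_zero {z : ℂ} (hz : z ∉ Kb) : pf z - be * I ≠ 0 := by
  intro h
  have h1 := pf_re_pos hz
  have h2 := congrArg Complex.re h
  simp at h2
  linarith

/-- The small constant subtracted in order to make the base potential compactly supported. -/
noncomputable def mu : ℝ := 5 / 10 ^ 16

/-- The holomorphic function whose real part is the base potential. -/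
noncomputable def F (z : ℂ) : ℂ :=
  (pf z)⁻¹ + ((r2⁻¹ : ℝ) : ℂ) * (pf z - be * I)⁻¹ - ((mu : ℝ) : ℂ) * pf z

lemma F_re (z : ℂ) : (F z).re =
    (pf z).re * (1 / ‖pf z‖ ^ 2 + r2⁻¹ / ‖pf z - be * I‖ ^ 2 - mu) := by
  rw [F, sub_re, add_re, re_ofReal_mul, re_ofReal_mul, inv_re, inv_re, Complex.sq_norm,
    Complex.sq_norm]
  have : (pf z - be * I).re = (pf z).re := by simp
  rw [this]
  ring

lemma sf_differentiableAt {z : ℂ} (hz : z ∉ Kb) : DifferentiableAt ℂ sf z := by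
  have h0 := ne_zero_of_notMem hz
  have h1 : DifferentiableAt ℂ (fun z : ℂ => 1 + (z ^ 2)⁻¹) z := by
    apply DifferentiableAt.add (differentiableAt_const _)
    exact (differentiableAt_id.pow 2).inv (pow_ne_zero 2 h0)
  exact differentiableAt_id.mul
    (DifferentiableAt.comp z (csq_differentiableAt (slit1 hz)) h1)

lemma pf_differentiableAt {z : ℂ} (hz : z ∉ Kb) : DifferentiableAt ℂ pf z :=
  DifferentiableAt.comp z (csq_differentiableAt (slit2 hz))
    ((sf_differentiableAt hz).sub (differentiableAt_const _))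

lemma F_differentiableAt {z : ℂ} (hz : z ∉ Kb) : DifferentiableAt ℂ F z := by
  have h := pf_differentiableAt hz
  exact ((h.inv (pf_ne_zero hz)).add
    ((differentiableAt_const _).mul ((h.sub (differentiableAt_const _)).inv
      (pf_sub_ne_zero hz)))).sub ((differentiableAt_const _).mul h)

lemma F_eventually {z : ℂ} (hz : z ∉ Kb) : ∀ᶠ w in 𝓝 z, DifferentiableAt ℂ F w := by
  filter_upwards [isOpen_Kbc.mem_nhds hz] with w hw
  exact F_differentiableAt hw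

lemma norm_diff_le {z : ℂ} (hz : z ∉ Kb) : ‖(sf z - r2) - z‖ ≤ 3 := by
  have h1 := norm_sub_lt_one hz
  have h2 : (sf z - r2) - z = (sf z - z) - r2 := by ring
  rw [h2]
  have h3 := norm_sub_le (sf z - z) (r2 : ℂ)
  rw [Complex.norm_of_nonneg r2_pos.le] at h3
  have := r2_lt
  norm_num at this
  linarith

lemma r2_inv_lt : r2⁻¹ < 0.70711 := by
  rw [inv_lt_comm₀ r2_pos (by norm_num)]
  refine lt_trans ?_ r2_gt
  norm_num

lemma r2_inv_gt : 0.7071 < r2⁻¹ := by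
  rw [lt_inv_comm₀ (by norm_num) r2_pos]
  refine lt_trans r2_lt ?_
  norm_num

/-- The base potential is nonpositive far away. -/
lemma E3 {z : ℂ} (hz : z ∉ Kb) (h : 10 ^ 16 ≤ ‖z‖) : (F z).re ≤ 0 := by
  rw [F_re]
  apply mul_nonpos_of_nonneg_of_nonpos (pf_re_pos hz).le
  have h1 : ‖pf z‖ ^ 2 ≥ 10 ^ 16 - 3 := by
    rw [pf_norm_sq]
    have h2 := norm_diff_le hz
    have h3 := norm_sub_norm_le z (z - (sf z - r2))
    have h4 : z - (z - (sf z - r2)) = sf z - r2 := by ring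
    rw [h4, norm_sub_rev z (sf z - r2)] at h3
    linarith
  have hp0 := norm_nonneg (pf z)
  have h2 : 4 ≤ ‖pf z‖ := by
    by_contra hcon
    push Not at hcon
    nlinarith
  have h3 : ‖pf z‖ / 2 ≤ ‖pf z - be * I‖ := by
    have h4 := norm_sub_norm_le (pf z) (be * I)
    have h5 : ‖(be : ℂ) * I‖ = be := by
      rw [norm_mul, norm_I, mul_one, Complex.norm_of_nonneg be_pos.le]
    rw [h5] at h4
    have := be_lt
    norm_num at this
    linarith
  have h4 : ‖pf z‖ ^ 2 / 4 ≤ ‖pf z - be * I‖ ^ 2 := by nlinarith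
  have h5 : 1 / ‖pf z‖ ^ 2 ≤ 1 / (10 ^ 16 - 3) :=
    one_div_le_one_div_of_le (by norm_num) h1
  have h6 : r2⁻¹ / ‖pf z - be * I‖ ^ 2 ≤ 0.70711 / ((10 ^ 16 - 3) / 4) := by
    apply div_le_div₀ (by norm_num) r2_inv_lt.le (by norm_num)
    linarith
  have h7 : (1 : ℝ) / (10 ^ 16 - 3) + 0.70711 / ((10 ^ 16 - 3) / 4) ≤ mu := by
    unfold mu; norm_num
  linarith

/-- Lower bound for the base potential on the outer circle. -/
lemma E2 {z : ℂ} (hz : z ∉ Kb) (h : ‖z‖ = 10 ^ 8) :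
    1.706 * H z / 10 ^ 8 ≤ (F z).re := by
  rw [F_re]
  have hd := norm_diff_le hz
  have hp0 := norm_nonneg (pf z)
  -- size of `pf`
  have h1 : ‖pf z‖ ^ 2 ≤ 10 ^ 8 + 3 := by
    rw [pf_norm_sq]
    have h3 := norm_add_le z ((sf z - r2) - z)
    have h4 : z + ((sf z - r2) - z) = sf z - r2 := by ring
    rw [h4] at h3
    linarith
  have h1' : 0 < ‖pf z‖ ^ 2 := by
    have := norm_pos_iff.mpr (pf_ne_zero hz); positivity
  have h2 : ‖pf z‖ ≤ 10 ^ 4 + 1 := by
    by_contra hcon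
    push Not at hcon
    nlinarith
  have h3 : ‖pf z - be * I‖ ≤ 10 ^ 4 + 3 := by
    have h4 := norm_sub_le (pf z) (be * I)
    have h5 : ‖(be : ℂ) * I‖ = be := by
      rw [norm_mul, norm_I, mul_one, Complex.norm_of_nonneg be_pos.le]
    rw [h5] at h4
    have := be_lt
    norm_num at this
    linarith
  have h3' : 0 < ‖pf z - be * I‖ := norm_pos_iff.mpr (pf_sub_ne_zero hz)
  have h4 : ‖pf z - be * I‖ ^ 2 ≤ (10 ^ 4 + 3) ^ 2 := by
    apply pow_le_pow_left₀ h3'.le h3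
  have h5 : 1 / (10 ^ 8 + 3) ≤ 1 / ‖pf z‖ ^ 2 := one_div_le_one_div_of_le h1' h1
  have h6 : 0.7071 / (10 ^ 4 + 3) ^ 2 ≤ r2⁻¹ / ‖pf z - be * I‖ ^ 2 := by
    apply div_le_div₀ (by have := r2_inv_gt; linarith [r2_inv_gt]) r2_inv_gt.le (by positivity) h4
  have h7 : (1.70665 : ℝ) / 10 ^ 8 ≤ 1 / (10 ^ 8 + 3) + 0.7071 / (10 ^ 4 + 3) ^ 2 - mu := by
    unfold mu; norm_num
  -- real parts
  have hN : ‖sf z + z‖ ≥ 10 ^ 8 := by
    have h8 := norm_sub_lt_one hz
    have h9 := norm_sub_norm_le ((2:ℂ) * z) (-(sf z - z))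
    have h10 : (2:ℂ) * z - -(sf z - z) = sf z + z := by ring
    rw [h10, norm_neg, norm_mul] at h9
    norm_num at h9
    rw [h] at h9
    norm_num at h9 ⊢
    linarith
  have hN2 : (10:ℝ) ^ 16 ≤ ‖sf z + z‖ ^ 2 := by nlinarith
  have him : (1 - 1 / 10 ^ 6) * (1 * |z.im|) ≤ |(sf z - r2).im| := by
    have e1 : (sf z - r2).im = (sf z).im := by simp
    rw [e1]
    have h11 := abs_sf_im_eq hz
    set N := ‖sf z + z‖ ^ 2 with hNdef
    have h12 := abs_nonneg z.im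
    refine le_of_mul_le_mul_right ?_ (show 0 < N + 1 by linarith)
    rw [h11]
    have h13 : (1 - 1 / 10 ^ 6) * (N + 1) ≤ N - 1 := by
      norm_num at hN2 ⊢
      linarith
    calc (1 - 1 / 10 ^ 6) * (1 * |z.im|) * (N + 1)
        = |z.im| * ((1 - 1 / 10 ^ 6) * (N + 1)) := by ring
      _ ≤ |z.im| * (N - 1) := mul_le_mul_of_nonneg_left h13 h12
  have hA := A_lower (w := sf z - r2) (v := z) (a := 1) (e := 1 / 10 ^ 6) (e1 := 1 / 10 ^ 6)
    one_pos (by norm_num) (by norm_num) (by norm_num) (by norm_num) (by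
      rw [ofReal_one, one_mul, h]
      norm_num at hd ⊢
      linarith) (by simpa using him)
  have hpre : (pf z).re ^ 2 = (‖sf z - r2‖ + (sf z - r2).re) / 2 := re_of_sq (pf_sq z)
  have hH := H_sq z
  have hre : 0.9999 * H z ≤ (pf z).re := by
    rw [← sq_le_sq₀ (by have := H_nonneg z; positivity) (pf_re_pos hz).le, hpre, mul_pow, hH]
    have h14 := norm_add_re_nonneg z
    rw [one_mul] at hA
    have h15 : (0.9999:ℝ) ^ 2 * (‖z‖ + z.re) ≤
        (1 - 1 / 10 ^ 6) ^ 2 * (1 - 1 / 10 ^ 6) * (‖z‖ + z.re) :=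
      mul_le_mul_of_nonneg_right (by norm_num) h14
    linarith
  have hHn := H_nonneg z
  calc 1.706 * H z / 10 ^ 8 ≤ (0.9999 * H z) * (1.70665 / 10 ^ 8) := by
        norm_num
        linarith
    _ ≤ _ := by
        apply mul_le_mul hre _ (by norm_num) (pf_re_pos hz).le
        linarith

/-- Upper bound for the base potential near the tip `1`. -/
lemma E1a {z : ℂ} (hz : z ∉ Kb) {t : ℝ} (ht0 : 0 < t) (ht1 : t ≤ 1 / 10 ^ 12)
    (h : ‖z - 1‖ = t) : (F z).re ≤ 1.005 * be * H (z - 1) / t := by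
  set v : ℂ := z - 1 with hv
  have hzv : z = 1 + v := by rw [hv]; ring
  have hvre : |v.re| ≤ t := h ▸ abs_re_le_norm v
  have hvim : v.im = z.im := by rw [hv]; simp
  have hzre : z.re = 1 + v.re := by rw [hv]; simp
  rw [abs_le] at hvre
  have hr1 := r2_gt
  have hr2 := r2_lt
  have hb1 := be_gt
  have hb2 := be_lt
  norm_num at ht1 hr1 hr2 hb1 hb2
  have hsre : 0 < (sf z).re := by
    have hj := (jouk hz).1
    have hN := N_gt hz
    by_contra hcon
    push Not at hcon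
    have : (sf z).re * (‖sf z + z‖ ^ 2 - 1) ≤ 0 :=
      mul_nonpos_of_nonpos_of_nonneg hcon (by linarith)
    have : 0 < z.re * (‖sf z + z‖ ^ 2 + 1) := mul_pos (by linarith) (by linarith)
    linarith
  set w : ℂ := sf z - r2 with hw
  have hss : sf z = w + r2 := by rw [hw]; ring
  have hr2c : ((r2:ℂ)) ^ 2 = 2 := by
    rw [← ofReal_pow, r2_sq]; simp
  have hprod : w * (sf z + r2) = v * (2 + v) := by
    have h1 := sf_sq hz
    have : w * (sf z + r2) = sf z ^ 2 - (r2:ℂ) ^ 2 := by rw [hw]; ring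
    rw [this, h1, hr2c, hzv]; ring
  have hnsr : r2 ≤ ‖sf z + r2‖ := by
    have := re_le_norm (sf z + r2)
    rw [add_re, ofReal_re] at this
    linarith
  have hn2v : ‖2 + v‖ ≤ 2 + t := by
    have := norm_add_le (2:ℂ) v
    rw [h] at this
    simpa using this
  have hwle : ‖w‖ ≤ 2 * t := by
    have h1 : ‖w‖ * ‖sf z + r2‖ = t * ‖2 + v‖ := by rw [← norm_mul, hprod, norm_mul, h]
    have h2 : ‖w‖ * r2 ≤ t * (2 + t) := by
      calc ‖w‖ * r2 ≤ ‖w‖ * ‖sf z + r2‖ := mul_le_mul_of_nonneg_left hnsr (norm_nonneg _)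
        _ = t * ‖2 + v‖ := h1
        _ ≤ t * (2 + t) := mul_le_mul_of_nonneg_left hn2v ht0.le
    have := norm_nonneg w
    nlinarith
  have hrinv : ((r2⁻¹ : ℝ) : ℂ) * r2 = 1 := by
    rw [← ofReal_mul, inv_mul_cancel₀ r2_pos.ne', ofReal_one]
  have hri1 := r2_inv_gt
  have hri2 := r2_inv_lt
  norm_num at hri1 hri2
  have hdiff : ‖w - ((r2⁻¹ : ℝ) : ℂ) * v‖ ≤ 3 * t ^ 2 := by
    have h1 : (w - ((r2⁻¹ : ℝ) : ℂ) * v) * (sf z + r2) = v * (v - ((r2⁻¹ : ℝ) : ℂ) * w) := by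
      rw [sub_mul, hprod, hss]
      linear_combination (-2 * v) * hrinv
    have h2 : ‖v - ((r2⁻¹ : ℝ) : ℂ) * w‖ ≤ t + 2 * t := by
      have h3 := norm_sub_le v (((r2⁻¹ : ℝ) : ℂ) * w)
      rw [norm_mul, Complex.norm_of_nonneg (inv_pos.mpr r2_pos).le, h] at h3
      have : r2⁻¹ * ‖w‖ ≤ 1 * (2 * t) := mul_le_mul (by linarith) hwle (norm_nonneg _) (by norm_num)
      linarith
    have h3 : ‖w - ((r2⁻¹ : ℝ) : ℂ) * v‖ * ‖sf z + r2‖ ≤ t * (t + 2 * t) := by
      rw [← norm_mul, h1, norm_mul, h]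
      exact mul_le_mul_of_nonneg_left h2 ht0.le
    have h4 := norm_nonneg (w - ((r2⁻¹ : ℝ) : ℂ) * v)
    have h5 : ‖w - ((r2⁻¹ : ℝ) : ℂ) * v‖ * r2 ≤ ‖w - ((r2⁻¹ : ℝ) : ℂ) * v‖ * ‖sf z + r2‖ :=
      mul_le_mul_of_nonneg_left hnsr h4
    nlinarith
  have hwim : |w.im| ≤ (1 + 1 / 10 ^ 6) * (r2⁻¹ * |v.im|) := by
    have e1 : w.im = (sf z).im := by rw [hw]; simp
    rw [e1]
    have h1 := (sf_re_im hz).2
    have h2 : (sf z).re * |(sf z).im| = z.re * |z.im| := by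
      have h3 := congrArg abs h1
      rw [abs_mul, abs_mul, abs_of_pos hsre, abs_of_pos (by linarith : 0 < z.re)] at h3
      exact h3
    have h3 : r2 - 2 * t ≤ (sf z).re := by
      have h4 := abs_re_le_norm w
      have h5 : w.re = (sf z).re - r2 := by rw [hw]; simp
      rw [h5] at h4
      have := (abs_le.mp h4).1
      linarith
    have h4 := abs_nonneg z.im
    have h5 := abs_nonneg (sf z).im
    rw [hvim]
    have h6 : (r2 - 2 * t) * |(sf z).im| ≤ (1 + t) * |z.im| := by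
      calc (r2 - 2 * t) * |(sf z).im| ≤ (sf z).re * |(sf z).im| :=
            mul_le_mul_of_nonneg_right h3 h5
        _ = z.re * |z.im| := h2
        _ ≤ (1 + t) * |z.im| := mul_le_mul_of_nonneg_right (by linarith) h4
    have h7 : (1 + t) ≤ (r2 - 2 * t) * ((1 + 1 / 10 ^ 6) * r2⁻¹) := by
      have h8 : r2 * r2⁻¹ = 1 := mul_inv_cancel₀ r2_pos.ne'
      have h9 : (r2 - 2 * t) * ((1 + 1 / 10 ^ 6) * r2⁻¹) =
          (1 + 1 / 10 ^ 6) * (r2 * r2⁻¹) - 2 * t * (1 + 1 / 10 ^ 6) * r2⁻¹ := by ring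
      rw [h9, h8]
      have h10 : 2 * t * (1 + 1 / 10 ^ 6) * r2⁻¹ ≤ 2 * t * (1 + 1 / 10 ^ 6) * 1 :=
        mul_le_mul_of_nonneg_left (by linarith) (by positivity)
      norm_num at h10 ⊢
      linarith
    refine le_of_mul_le_mul_left ?_ (show 0 < r2 - 2 * t by linarith)
    calc (r2 - 2 * t) * |(sf z).im| ≤ (1 + t) * |z.im| := h6
      _ ≤ ((r2 - 2 * t) * ((1 + 1 / 10 ^ 6) * r2⁻¹)) * |z.im| :=
          mul_le_mul_of_nonneg_right h7 h4
      _ = _ := by ring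
  have hA := A_upper (w := w) (v := v) (a := r2⁻¹) (e := 1 / 10 ^ 6) (e1 := 1 / 10 ^ 6)
    (inv_pos.mpr r2_pos) (by norm_num) (by norm_num) (by norm_num) (by
      rw [h]
      have h1 : 2 * ‖w - ((r2⁻¹ : ℝ) : ℂ) * v‖ ≤ 6 * t ^ 2 := by linarith
      refine h1.trans ?_
      have : (0.7:ℝ) * t ≤ r2⁻¹ * t := mul_le_mul_of_nonneg_right (by norm_num; linarith) ht0.le
      norm_num at this ⊢
      nlinarith) hwim
  have hpre : (pf z).re ^ 2 = (‖w‖ + w.re) / 2 := re_of_sq (pf_sq z)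
  have hH := H_sq v
  have hHn := H_nonneg v
  have hber : (be * r2⁻¹) ^ 2 = r2⁻¹ := by
    rw [mul_pow, be_sq, inv_pow]
    field_simp
  have hre : (pf z).re ≤ 1.0001 * (be * r2⁻¹) * H v := by
    rw [← sq_le_sq₀ (pf_re_pos hz).le (by have := be_pos; have := r2_pos; positivity), hpre,
      mul_pow, mul_pow, hH, hber]
    have h14 := norm_add_re_nonneg v
    set X := r2⁻¹ * (‖v‖ + v.re) with hX
    have hXn : 0 ≤ X := by have := r2_pos; positivity
    have h15 : (1.0001:ℝ) ^ 2 * r2⁻¹ * ((‖v‖ + v.re) / 2) = 1.0001 ^ 2 / 2 * X := by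
      rw [hX]; ring
    rw [h15]
    norm_num at hA ⊢
    linarith
  have hp1 : ‖pf z‖ ^ 2 = ‖w‖ := pf_norm_sq z
  have hwge : t / (1.0001 * r2) ≤ ‖w‖ := by
    have h1 := norm_sub_norm_le (((r2⁻¹ : ℝ) : ℂ) * v) (((r2⁻¹ : ℝ) : ℂ) * v - w)
    have h2 : ((r2⁻¹ : ℝ) : ℂ) * v - (((r2⁻¹ : ℝ) : ℂ) * v - w) = w := by ring
    rw [h2, norm_sub_rev _ w, norm_mul, Complex.norm_of_nonneg (inv_pos.mpr r2_pos).le, h] at h1
    rw [div_le_iff₀ (by have := r2_pos; positivity)]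
    have h3 : r2⁻¹ * t - 3 * t ^ 2 ≤ ‖w‖ := by linarith
    calc t ≤ (r2⁻¹ * t - 3 * t ^ 2) * (1.0001 * r2) := by
          have h8 : r2⁻¹ * r2 = 1 := inv_mul_cancel₀ r2_pos.ne'
          have h9 : (r2⁻¹ * t - 3 * t ^ 2) * (1.0001 * r2) =
            t * (1.0001 * (r2⁻¹ * r2) - 3.0003 * (t * r2)) := by ring
          rw [h9, h8]
          have h10 : t * r2 ≤ 1 / 1000000000000 * 2 :=
            mul_le_mul ht1 (by linarith) r2_pos.le (by norm_num)
          have h11 : (1:ℝ) ≤ 1.0001 * 1 - 3.0003 * (t * r2) := by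
            norm_num at h10 ⊢
            linarith
          calc t = t * 1 := (mul_one t).symm
            _ ≤ _ := mul_le_mul_of_nonneg_left h11 ht0.le
      _ ≤ ‖w‖ * (1.0001 * r2) := mul_le_mul_of_nonneg_right h3 (by have := r2_pos; positivity)
  have hpinv : 1 / ‖pf z‖ ^ 2 ≤ 1.0001 * r2 / t := by
    rw [hp1]
    have h1 : 0 < t / (1.0001 * r2) := by have := r2_pos; positivity
    calc 1 / ‖w‖ ≤ 1 / (t / (1.0001 * r2)) := one_div_le_one_div_of_le h1 hwge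
      _ = _ := by rw [one_div_div]
  have hpn : ‖pf z‖ ≤ 0.01 := by
    have := norm_nonneg (pf z)
    by_contra hcon
    push Not at hcon
    norm_num at hcon
    nlinarith
  have hq : 1 ≤ ‖pf z - be * I‖ := by
    have h4 := norm_sub_norm_le (be * I) (pf z)
    have h5 : ‖(be : ℂ) * I‖ = be := by
      rw [norm_mul, norm_I, mul_one, Complex.norm_of_nonneg be_pos.le]
    rw [h5, norm_sub_rev] at h4
    norm_num at hpn
    linarith
  have hq2 : r2⁻¹ / ‖pf z - be * I‖ ^ 2 ≤ 1 := by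
    rw [div_le_one (by positivity)]
    nlinarith
  have hbr : 1 / ‖pf z‖ ^ 2 + r2⁻¹ / ‖pf z - be * I‖ ^ 2 - mu ≤ 1.0002 * r2 / t := by
    have h1 : 1 ≤ 0.0001 * r2 / t := by
      rw [le_div_iff₀ ht0]
      linarith
    have h2 : (1.0002:ℝ) * r2 / t = 1.0001 * r2 / t + 0.0001 * r2 / t := by
      rw [← add_div]; ring
    have h3 : 0 ≤ mu := by unfold mu; norm_num
    rw [h2]
    linarith
  rw [F_re]
  have hr2p := r2_pos
  have hbp := be_pos
  calc (pf z).re * (1 / ‖pf z‖ ^ 2 + r2⁻¹ / ‖pf z - be * I‖ ^ 2 - mu)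
      ≤ (pf z).re * (1.0002 * r2 / t) := mul_le_mul_of_nonneg_left hbr (pf_re_pos hz).le
    _ ≤ (1.0001 * (be * r2⁻¹) * H v) * (1.0002 * r2 / t) :=
        mul_le_mul_of_nonneg_right hre (by positivity)
    _ = (1.0001 * 1.0002) * (r2⁻¹ * r2) * (be * H v / t) := by ring
    _ ≤ 1.005 * (be * H v / t) := by
        rw [inv_mul_cancel₀ r2_pos.ne', mul_one]
        apply mul_le_mul_of_nonneg_right (by norm_num) (by positivity)
    _ = _ := by ring

end Pool.Agent.H209
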