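import Pool.Agent.H209.Base

set_option autoImplicit false

namespace Pool.Agent.H209

open Set Filter Topology Metric Complex

/-- The mirror symmetry exchanging the two tips. -/
noncomputable def mir (z : ℂ) : ℂ := I * (starRingEnd ℂ) z

lemma mir_re (z : ℂ) : (mir z).re = z.im := by simp [mir]

lemma mir_im (z : ℂ) : (mir z).im = z.re := by simp [mir]

lemma norm_mir (z : ℂ) : ‖mir z‖ = ‖z‖ := by
  rw [mir, norm_mul, norm_I, one_mul, RCLike.norm_conj]

/-- Upper bound for the base potential near the tip `i`. -/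
lemma E1b {z : ℂ} (hz : z ∉ Kb) {t : ℝ} (ht0 : 0 < t) (ht1 : t ≤ 1 / 10 ^ 12)
    (h : ‖z - I‖ = t) : (F z).re ≤ 1.005 * be * H (mir (z - I)) / t := by
  set v : ℂ := mir (z - I) with hv
  have hvre : v.re = z.im - 1 := by rw [hv, mir_re]; simp
  have hvim : v.im = z.re := by rw [hv, mir_im]; simp
  have hvn : ‖v‖ = t := by rw [hv, norm_mir, h]
  have hvre2 : |v.re| ≤ t := hvn ▸ abs_re_le_norm v
  rw [abs_le] at hvre2
  have hr1 := r2_gt
  have hr2 := r2_lt
  have hb1 := be_gt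
  have hb2 := be_lt
  norm_num at ht1 hr1 hr2 hb1 hb2
  have hzim : 0 < z.im := by linarith
  have hsim : 0 < (sf z).im := by
    have hj := (jouk hz).2
    have hN := N_gt hz
    by_contra hcon
    push Not at hcon
    have : (sf z).im * (‖sf z + z‖ ^ 2 + 1) ≤ 0 :=
      mul_nonpos_of_nonpos_of_nonneg hcon (by linarith)
    have : 0 < z.im * (‖sf z + z‖ ^ 2 - 1) := mul_pos hzim (by linarith)
    linarith
  set y : ℂ := v * (2 + v) with hy
  have hyn : ‖y‖ = ‖sf z ^ 2‖ := by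
    rw [sf_sq hz]
    have : z ^ 2 + 1 = -(starRingEnd ℂ) y := by
      apply Complex.ext
      · rw [hy]
        simp only [add_re, sq, mul_re, one_re, neg_re, conj_re, add_im, hvre, hvim]
        norm_num
        ring
      · rw [hy]
        simp only [add_im, sq, mul_im, one_im, neg_im, conj_im, add_re, hvre, hvim]
        norm_num
        ring
    rw [this, norm_neg, RCLike.norm_conj]
  have hyre : y.re = -(sf z ^ 2).re := by
    rw [sf_sq hz, hy]
    simp only [add_re, sq, mul_re, one_re, add_im, hvre, hvim]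
    norm_num
    ring
  have hsim2 : (sf z).im ^ 2 = (‖y‖ + y.re) / 2 := by
    rw [im_of_sq (rfl : sf z ^ 2 = sf z ^ 2), hyn, hyre]; ring
  have hn2v : ‖2 + v‖ ≤ 2 + t := by
    have := norm_add_le (2:ℂ) v
    rw [hvn] at this
    simpa using this
  have hn2v' : 2 - t ≤ ‖2 + v‖ := by
    have := norm_sub_norm_le (2:ℂ) (-v)
    rw [norm_neg, hvn, sub_neg_eq_add] at this
    simpa using this
  have hsn : ‖sf z‖ ^ 2 = t * ‖2 + v‖ := by
    rw [← norm_pow, ← hyn, hy, norm_mul, hvn]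
  have hs1 : ‖sf z‖ ≤ 1 / 100000 := by
    by_contra hcon
    push Not at hcon
    have q1 : (1 / 100000 : ℝ) ^ 2 < ‖sf z‖ ^ 2 :=
      pow_lt_pow_left₀ hcon (by norm_num) two_ne_zero
    have q2 : t * ‖2 + v‖ ≤ t * 3 := mul_le_mul_of_nonneg_left (by linarith) ht0.le
    norm_num at q1
    linarith
  -- comparison of `y` and `2 v`
  have hyim : |y.im| ≤ (1 + 1 / 10 ^ 6) * (2 * |v.im|) := by
    have e1 : y.im = 2 * v.im * (1 + v.re) := by
      rw [hy, mul_im, add_im, add_re]; norm_num; ring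
    rw [e1, abs_mul, abs_mul, abs_of_pos (show 0 < 1 + v.re by linarith),
      abs_of_pos (show (0:ℝ) < 2 by norm_num)]
    have h4 := abs_nonneg v.im
    have : 1 + v.re ≤ 1 + 1 / 10 ^ 6 := by norm_num; linarith
    calc 2 * |v.im| * (1 + v.re) ≤ 2 * |v.im| * (1 + 1 / 10 ^ 6) :=
          mul_le_mul_of_nonneg_left this (by positivity)
      _ = _ := by ring
  have hA := A_upper (w := y) (v := v) (a := 2) (e := 1 / 10 ^ 6) (e1 := 1 / 10 ^ 6)
    (by norm_num) (by norm_num) (by norm_num) (by norm_num) (by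
      rw [hvn]
      have h1 : y - ((2:ℝ) : ℂ) * v = v ^ 2 := by rw [hy]; push_cast; ring
      rw [h1, norm_pow, hvn]
      have q1 : t * t ≤ t * (1 / 1000000000000) := mul_le_mul_of_nonneg_left ht1 ht0.le
      rw [← sq] at q1
      norm_num
      linarith) hyim
  set w : ℂ := sf z - r2 with hw
  have hwre : w.re = (sf z).re - r2 := by rw [hw]; simp
  have hwim : w.im = (sf z).im := by rw [hw]; simp
  have hsre := abs_le.mp ((abs_re_le_norm (sf z)).trans hs1)
  have hw1 : r2 - 1 / 100000 ≤ ‖w‖ := by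
    have := abs_re_le_norm w
    have := neg_abs_le w.re
    linarith
  have hpre : (pf z).re ^ 2 = (‖w‖ + w.re) / 2 := re_of_sq (pf_sq z)
  have hH := H_sq v
  have hHn := H_nonneg v
  have hAw := norm_add_mul_sub w
  have hAw0 := norm_add_re_nonneg w
  have hAv0 := norm_add_re_nonneg v
  have hkey : (‖w‖ + w.re) * (4 * (r2 - 1 / 100000)) ≤ ‖y‖ + y.re := by
    have h1 : (‖w‖ + w.re) * (2 * (r2 - 1 / 100000)) ≤ (‖w‖ + w.re) * (‖w‖ - w.re) :=
      mul_le_mul_of_nonneg_left (by linarith) hAw0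
    rw [hAw, hwim, hsim2] at h1
    linarith
  have hbe2 : (be / 2) ^ 2 * (2 * r2) = 1 := by
    have h1 := be_sq
    have h2 := r2_sq
    have : (be / 2) ^ 2 * (2 * r2) = be ^ 2 * r2 / 2 := by ring
    rw [this, h1, ← sq, h2]
    norm_num
  have hre : (pf z).re ≤ 1.0001 * (be / 2) * H v := by
    rw [← sq_le_sq₀ (pf_re_pos hz).le (by have := be_pos; positivity), hpre, mul_pow, mul_pow, hH]
    refine le_of_mul_le_mul_right ?_ (show 0 < 2 * r2 by linarith)
    have h15 : (1.0001:ℝ) ^ 2 * (be / 2) ^ 2 * ((‖v‖ + v.re) / 2) * (2 * r2) =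
        1.0001 ^ 2 / 2 * (‖v‖ + v.re) * ((be / 2) ^ 2 * (2 * r2)) := by ring
    rw [h15, hbe2, mul_one]
    have h16 : (‖w‖ + w.re) * (4 * r2) ≤ 1.00001 * ((‖w‖ + w.re) * (4 * (r2 - 1 / 100000))) := by
      have : (4 * r2) ≤ 1.00001 * (4 * (r2 - 1 / 100000)) := by
        norm_num
        linarith
      calc (‖w‖ + w.re) * (4 * r2) ≤ (‖w‖ + w.re) * (1.00001 * (4 * (r2 - 1 / 100000))) :=
            mul_le_mul_of_nonneg_left this hAw0
        _ = _ := by ring
    norm_num at hA h16 ⊢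
    linarith
  have hp1 : ‖pf z‖ ^ 2 = ‖w‖ := pf_norm_sq z
  have hpim : 0 < (pf z).im := by
    have h1 := congrArg Complex.im (pf_sq z)
    rw [sq, mul_im] at h1
    have h2 : (sf z - r2).im = (sf z).im := by simp
    rw [h2] at h1
    have h3 := pf_re_pos hz
    by_contra hcon
    push Not at hcon
    have h4 := mul_nonpos_of_nonneg_of_nonpos h3.le hcon
    linarith
  have hfac : (pf z - be * I) * (pf z + be * I) = sf z := by
    have h1 : (pf z - be * I) * (pf z + be * I) = pf z ^ 2 - (be:ℂ) ^ 2 * I ^ 2 := by ring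
    rw [h1, pf_sq, I_sq, ← ofReal_pow, be_sq]; ring
  have hplus : 1 ≤ ‖pf z + be * I‖ := by
    have h1 := abs_im_le_norm (pf z + be * I)
    have h2 := le_abs_self (pf z + be * I).im
    have h3 : (pf z + be * I).im = (pf z).im + be := by simp
    rw [h3] at h1 h2
    linarith
  have hmn : ‖pf z - be * I‖ * ‖pf z + be * I‖ = ‖sf z‖ := by rw [← norm_mul, hfac]
  have hm0 := norm_nonneg (pf z - be * I)
  have hm1 : ‖pf z - be * I‖ ≤ 1 / 100000 := by
    have : ‖pf z - be * I‖ * 1 ≤ ‖pf z - be * I‖ * ‖pf z + be * I‖ :=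
      mul_le_mul_of_nonneg_left hplus hm0
    linarith
  have hplus2 : ‖pf z + be * I‖ ≤ 2.0001 * be := by
    have h1 := norm_add_le (pf z - be * I) (2 * (be * I))
    have h2 : (pf z - be * I) + 2 * (be * I) = pf z + be * I := by ring
    have h5 : ‖(2:ℂ) * ((be : ℂ) * I)‖ = 2 * be := by
      rw [norm_mul, norm_mul, norm_I, mul_one, Complex.norm_of_nonneg be_pos.le]; simp
    rw [h2, h5] at h1
    norm_num
    linarith
  have hm2 : t * (2 - t) ≤ ‖pf z - be * I‖ ^ 2 * ((2.0001) ^ 2 * r2) := by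
    calc t * (2 - t) ≤ t * ‖2 + v‖ := mul_le_mul_of_nonneg_left hn2v' ht0.le
      _ = ‖pf z - be * I‖ ^ 2 * ‖pf z + be * I‖ ^ 2 := by
          rw [← hsn, ← hmn, mul_pow]
      _ ≤ ‖pf z - be * I‖ ^ 2 * (2.0001 * be) ^ 2 := by
          apply mul_le_mul_of_nonneg_left _ (by positivity)
          exact pow_le_pow_left₀ (norm_nonneg _) hplus2 2
      _ = _ := by rw [mul_pow, be_sq]
  have hq2 : r2⁻¹ / ‖pf z - be * I‖ ^ 2 ≤ 2.001 / t := by
    have hmp : 0 < ‖pf z - be * I‖ ^ 2 := by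
      have := norm_pos_iff.mpr (pf_sub_ne_zero hz); positivity
    rw [div_le_div_iff₀ hmp ht0]
    refine le_of_mul_le_mul_right ?_ (show 0 < (2.0001) ^ 2 * r2 by have := r2_pos; positivity)
    have h1 : r2⁻¹ * t * (2.0001 ^ 2 * r2) = 2.0001 ^ 2 * t * (r2⁻¹ * r2) := by ring
    rw [h1, inv_mul_cancel₀ r2_pos.ne', mul_one]
    have h2 : (2.001:ℝ) * (t * (2 - t)) ≤ 2.001 * (‖pf z - be * I‖ ^ 2 * ((2.0001) ^ 2 * r2)) :=
      mul_le_mul_of_nonneg_left hm2 (by norm_num)
    have h3 : (2.0001:ℝ) ^ 2 * t ≤ 2.001 * (t * (2 - t)) := by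
      have : (2.0001:ℝ) ^ 2 ≤ 2.001 * (2 - t) := by norm_num; linarith
      calc (2.0001:ℝ) ^ 2 * t ≤ 2.001 * (2 - t) * t := mul_le_mul_of_nonneg_right this ht0.le
        _ = _ := by ring
    linarith
  have hpinv : 1 / ‖pf z‖ ^ 2 ≤ 1 := by
    rw [hp1, div_le_one (by linarith)]
    linarith
  have hbr : 1 / ‖pf z‖ ^ 2 + r2⁻¹ / ‖pf z - be * I‖ ^ 2 - mu ≤ 2.002 / t := by
    have h1 : 1 ≤ 0.001 / t := by
      rw [le_div_iff₀ ht0]
      norm_num
      linarith
    have h2 : (2.002:ℝ) / t = 2.001 / t + 0.001 / t := by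
      rw [← add_div]; norm_num
    have h3 : 0 ≤ mu := by unfold mu; norm_num
    rw [h2]
    linarith
  rw [F_re]
  have hr2p := r2_pos
  have hbp := be_pos
  calc (pf z).re * (1 / ‖pf z‖ ^ 2 + r2⁻¹ / ‖pf z - be * I‖ ^ 2 - mu)
      ≤ (pf z).re * (2.002 / t) := mul_le_mul_of_nonneg_left hbr (pf_re_pos hz).le
    _ ≤ (1.0001 * (be / 2) * H v) * (2.002 / t) :=
        mul_le_mul_of_nonneg_right hre (by positivity)
    _ = (1.0001 * 1.001) * (be * H v / t) := by ring
    _ ≤ 1.005 * (be * H v / t) := by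
        apply mul_le_mul_of_nonneg_right (by norm_num) (by positivity)
    _ = _ := by ring

end Pool.Agent.H209
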