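import Mathlib

set_option autoImplicit false

/-!
Elementary potential theory: the local submean property, similarity invariance, the Perron
definition of harmonic measure and a comparison theorem.
-/

namespace Pool.Agent.H209

open Set Filter Topology Metric

/-- `u` is superharmonic on the open set `Ω`: lower semicontinuous there, and at every centre of a
closed disc contained in `Ω` its value is at least its average over the boundary circle. -/
structure IsSuperharmonicOn (u : ℂ → ℝ) (Ω : Set ℂ) : Prop where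
  lsc : LowerSemicontinuousOn u Ω
  mean : ∀ (c : ℂ) (r : ℝ), 0 < r → closedBall c r ⊆ Ω → Real.circleAverage u c r ≤ u c

/-- Harmonic measure of `E ⊆ ∂Ω` relative to `Ω`, evaluated at `z`, in the sense of Perron: the
infimum of `u z` over the superharmonic functions `0 ≤ u ≤ 1` on `Ω` whose lower limit at every
point of `E` is at least `1`. -/
noncomputable def harmonicMeasure (z : ℂ) (E Ω : Set ℂ) : ℝ :=
  sInf {t : ℝ | ∃ u : ℂ → ℝ, IsSuperharmonicOn u Ω ∧ (∀ w ∈ Ω, 0 ≤ u w ∧ u w ≤ 1) ∧
    (∀ ζ ∈ E, ∀ η > 0, ∀ᶠ w in 𝓝[Ω] ζ, 1 - η < u w) ∧ t = u z}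

/-- The local submean property at a point. -/
def SubMeanAt (V : ℂ → ℝ) (z : ℂ) : Prop :=
  ∀ᶠ r in 𝓝[>] (0 : ℝ), V z ≤ Real.circleAverage V z r

lemma eventually_small {z : ℂ} {P : ℂ → Prop} (h : ∀ᶠ w in 𝓝 z, P w) :
    ∀ᶠ r in 𝓝[>] (0 : ℝ), 0 < r ∧ ∀ w ∈ closedBall z r, P w := by
  obtain ⟨ε, hε, hb⟩ := Metric.eventually_nhds_iff_ball.mp h
  have h1 : ∀ᶠ r in 𝓝[>] (0 : ℝ), r < ε :=
    mem_nhdsWithin_of_mem_nhds (Iio_mem_nhds hε)
  filter_upwards [h1, self_mem_nhdsWithin] with r hr hr0
  exact ⟨hr0, fun w hw => hb w (closedBall_subset_ball hr hw)⟩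

lemma SubMeanAt.of_le {V h : ℂ → ℝ} {z : ℂ} (hV : Continuous V)
    (hh : ∀ᶠ w in 𝓝 z, ContinuousAt h w) (hle : ∀ᶠ w in 𝓝 z, h w ≤ V w) (heq : V z ≤ h z)
    (hs : SubMeanAt h z) : SubMeanAt V z := by
  filter_upwards [hs, eventually_small hh, eventually_small hle] with r h1 h2 h3
  refine heq.trans (h1.trans ?_)
  have hr : |r| = r := abs_of_pos h2.1
  apply Real.circleAverage_mono
  · apply ContinuousOn.circleIntegrable'
    intro w hw
    rw [hr] at hw
    exact (h2.2 w (sphere_subset_closedBall hw)).continuousWithinAt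
  · exact (hV.continuousOn).circleIntegrable'
  · intro w hw
    rw [hr] at hw
    exact h3.2 w (sphere_subset_closedBall hw)

lemma SubMeanAt.of_zero {V : ℂ → ℝ} {z : ℂ} (h0 : ∀ w, 0 ≤ V w) (hz : V z = 0) :
    SubMeanAt V z := by
  refine Eventually.of_forall fun r => ?_
  rw [hz]
  exact Real.circleAverage_nonneg_of_nonneg fun w _ => h0 w

lemma SubMeanAt.of_holo {f : ℂ → ℂ} {z : ℂ} (h : ∀ᶠ w in 𝓝 z, DifferentiableAt ℂ f w) :
    SubMeanAt (fun w => (f w).re) z := by
  filter_upwards [eventually_small h] with r hr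
  have habs : |r| = r := abs_of_pos hr.1
  have hc : ContinuousOn f (closedBall z |r|) := by
    rw [habs]
    intro w hw
    exact (hr.2 w hw).continuousAt.continuousWithinAt
  have h1 : Real.circleAverage f z r = f z := by
    apply circleAverage_of_differentiable_on_off_countable (s := ∅) countable_empty hc
    intro w hw
    rw [habs] at hw
    exact hr.2 w (ball_subset_closedBall hw.1)
  have h2 := ContinuousLinearMap.circleAverage_comp_comm (Complex.reCLM) (f := f) (c := z) (R := r)
    (ContinuousOn.circleIntegrable' (hc.mono sphere_subset_closedBall))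
  rw [h1] at h2
  have h3 : (fun w => (f w).re) = (Complex.reCLM ∘ f) := by
    ext w; simp
  rw [h3, h2]
  simp

/-- Maps preserving circle averages up to a change of radius. -/
structure IsSim (ψ : ℂ → ℂ) (k : ℝ) : Prop where
  pos : 0 < k
  avg : ∀ (V : ℂ → ℝ) (z : ℂ) (r : ℝ),
    Real.circleAverage (fun w => V (ψ w)) z r = Real.circleAverage V (ψ z) (k * r)

lemma isSim_affine (a b : ℂ) (ha : a ≠ 0) : IsSim (fun w => a * w + b) ‖a‖ := by
  refine ⟨norm_pos_iff.mpr ha, fun V z r => ?_⟩
  rw [Real.circleAverage_eq_integral_add (f := V) (Complex.arg a), Real.circleAverage_def]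
  congr 2
  ext θ
  congr 1
  simp only [circleMap]
  have h := Complex.norm_mul_exp_arg_mul_I a
  push_cast
  rw [add_mul, Complex.exp_add]
  linear_combination (-(r : ℂ) * Complex.exp (θ * Complex.I)) * h

lemma isSim_conj : IsSim (fun w => (starRingEnd ℂ) w) 1 := by
  refine ⟨one_pos, fun V z r => ?_⟩
  rw [Real.circleAverage_def, Real.circleAverage_def, one_mul]
  congr 1
  have h1 : ∀ θ : ℝ, (starRingEnd ℂ) (circleMap z r θ) =
      circleMap ((starRingEnd ℂ) z) r (-θ) := by
    intro θ
    simp only [circleMap, map_add, map_mul, Complex.conj_ofReal]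
    rw [← Complex.exp_conj]
    simp
  simp_rw [h1]
  have h2 := intervalIntegral.integral_comp_neg (a := 0) (b := 2 * Real.pi)
    (fun θ => V (circleMap ((starRingEnd ℂ) z) r θ))
  rw [h2]
  have t₀ : Function.Periodic (fun θ => V (circleMap ((starRingEnd ℂ) z) r θ)) (2 * Real.pi) :=
    fun x ↦ by simp [periodic_circleMap _ _ x]
  have := t₀.intervalIntegral_add_eq (-(2 * Real.pi)) 0
  simpa using this

lemma IsSim.comp {ψ φ : ℂ → ℂ} {k l : ℝ} (hψ : IsSim ψ k) (hφ : IsSim φ l) :
    IsSim (fun w => ψ (φ w)) (k * l) := by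
  refine ⟨mul_pos hψ.pos hφ.pos, fun V z r => ?_⟩
  rw [hφ.avg (fun w => V (ψ w)) z r, hψ.avg V (φ z) (l * r), mul_assoc]

lemma SubMeanAt.comp_sim {ψ : ℂ → ℂ} {k : ℝ} (hψ : IsSim ψ k) {V : ℂ → ℝ} {z : ℂ}
    (h : SubMeanAt V (ψ z)) : SubMeanAt (fun w => V (ψ w)) z := by
  have ht : Tendsto (fun r : ℝ => k * r) (𝓝[>] 0) (𝓝[>] 0) := by
    apply tendsto_nhdsWithin_iff.mpr
    constructor
    · have : Tendsto (fun r : ℝ => k * r) (𝓝 0) (𝓝 (k * 0)) :=
        (continuous_const.mul continuous_id).tendsto 0
      rw [mul_zero] at this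
      exact this.mono_left nhdsWithin_le_nhds
    · filter_upwards [self_mem_nhdsWithin] with r hr
      exact mul_pos hψ.pos hr
  have := ht.eventually h
  filter_upwards [this] with r hr
  rw [hψ.avg V z r]
  exact hr

/-- The comparison principle. -/
theorem comparison {Ω : Set ℂ} (hΩ : IsOpen Ω) (hb : Bornology.IsBounded Ω) {V u : ℂ → ℝ}
    (hV : Continuous V) (hsub : ∀ z ∈ Ω, SubMeanAt V z) {E : Set ℂ}
    (h0 : ∀ z ∈ frontier Ω, z ∉ E → V z ≤ 0) (h1 : ∀ z ∈ E, V z ≤ 1)
    (hu : IsSuperharmonicOn u Ω) (hu01 : ∀ w ∈ Ω, 0 ≤ u w ∧ u w ≤ 1)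
    (hlim : ∀ ζ ∈ E, ∀ η > 0, ∀ᶠ w in 𝓝[Ω] ζ, 1 - η < u w) :
    ∀ z ∈ Ω, V z ≤ u z := by
  classical
  by_contra hcon
  push Not at hcon
  obtain ⟨z₁, hz₁, hlt⟩ := hcon
  set D : ℂ → ℝ := fun z => if z ∈ Ω then max 0 (V z - u z) else 0 with hD
  have hD0 : ∀ z, 0 ≤ D z := by
    intro z; simp only [hD]; split_ifs <;> simp
  have husc : UpperSemicontinuous D := by
    intro z y hy
    by_cases hz : z ∈ Ω
    · -- interior point
      have hDz : D z = max 0 (V z - u z) := by simp [hD, hz]
      rw [hDz] at hy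
      have hy0 : 0 < y := lt_of_le_of_lt (le_max_left _ _) hy
      have hy1 : V z - u z < y := lt_of_le_of_lt (le_max_right _ _) hy
      set e := (y - (V z - u z)) / 2 with he
      have hepos : 0 < e := by rw [he]; linarith
      have hlsc := hu.lsc z hz (u z - e) (by linarith)
      have hnb : 𝓝[Ω] z = 𝓝 z := hΩ.nhdsWithin_eq hz
      rw [hnb] at hlsc
      have hVc : ∀ᶠ w in 𝓝 z, V w < V z + e :=
        hV.continuousAt.eventually (Iio_mem_nhds (by linarith))
      filter_upwards [hlsc, hVc, hΩ.mem_nhds hz] with w hw1 hw2 hw3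
      simp only [hD, hw3, if_true]
      apply max_lt hy0
      rw [he] at hw1 hw2
      linarith
    · have hDz : D z = 0 := by simp [hD, hz]
      rw [hDz] at hy
      by_cases hE : z ∈ E
      · have h2 := hlim z hE (y / 2) (by linarith)
        have hVc : ∀ᶠ w in 𝓝 z, V w < V z + y / 2 :=
          hV.continuousAt.eventually (Iio_mem_nhds (by linarith))
        have h3 : ∀ᶠ w in 𝓝 z, w ∈ Ω → 1 - y / 2 < u w := eventually_nhdsWithin_iff.mp h2
        filter_upwards [hVc, h3] with w hw1 hw2
        by_cases hw : w ∈ Ω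
        · simp only [hD, hw, if_true]
          apply max_lt hy
          have := hw2 hw
          have := h1 z hE
          linarith
        · simp only [hD, hw, if_false]; exact hy
      · by_cases hcl : z ∈ closure Ω
        · have hfr : z ∈ frontier Ω := by
            rw [hΩ.frontier_eq]; exact ⟨hcl, hz⟩
          have hVc : ∀ᶠ w in 𝓝 z, V w < V z + y :=
            hV.continuousAt.eventually (Iio_mem_nhds (by linarith))
          filter_upwards [hVc] with w hw1
          by_cases hw : w ∈ Ω
          · simp only [hD, hw, if_true]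
            apply max_lt hy
            have := (hu01 w hw).1
            have := h0 z hfr hE
            linarith
          · simp only [hD, hw, if_false]; exact hy
        · have hev : ∀ᶠ w in 𝓝 z, w ∈ (closure Ω)ᶜ := isClosed_closure.isOpen_compl.mem_nhds hcl
          filter_upwards [hev] with w hw
          have hw' : w ∉ Ω := fun h => hw (subset_closure h)
          simp only [hD, hw', if_false]; exact hy
  have hcompact : IsCompact (closure Ω) := hb.isCompact_closure
  have hne : (closure Ω).Nonempty := ⟨z₁, subset_closure hz₁⟩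
  obtain ⟨zm, hzm, hmax⟩ := UpperSemicontinuousOn.exists_isMaxOn hne hcompact
    (husc.upperSemicontinuousOn _)
  set M := D zm with hM
  have hle : ∀ w, D w ≤ M := by
    intro w
    by_cases hw : w ∈ Ω
    · exact hmax (subset_closure hw)
    · have : D w = 0 := by simp [hD, hw]
      rw [this]; exact hD0 zm
  have hMpos : 0 < M := by
    have h2 : D z₁ = max 0 (V z₁ - u z₁) := by simp [hD, hz₁]
    have h3 : 0 < D z₁ := by
      rw [h2]; exact lt_max_of_lt_right (by linarith)
    exact lt_of_lt_of_le h3 (hle z₁)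
  -- the set of maximum points
  set T : Set ℂ := {w | M ≤ D w} with hT
  have hTsub : T ⊆ Ω := by
    intro w hw
    by_contra hwn
    have : D w = 0 := by simp [hD, hwn]
    have hw' : M ≤ D w := hw
    rw [this] at hw'
    linarith
  have hTclosed : IsClosed T := husc.isClosed_preimage M
  have hTcompact : IsCompact T :=
    hcompact.of_isClosed_subset hTclosed (hTsub.trans subset_closure)
  have hTne : T.Nonempty := ⟨zm, show M ≤ D zm from le_rfl⟩
  obtain ⟨c, hcT, hcmax⟩ := hTcompact.exists_isMaxOn hTne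
    (Complex.continuous_re.continuousOn)
  have hcΩ : c ∈ Ω := hTsub hcT
  have hcD : V c - u c = M := by
    have h2 : D c = max 0 (V c - u c) := by simp [hD, hcΩ]
    have h3 : D c = M := le_antisymm (hle c) hcT
    rw [h3] at h2
    rcases max_cases 0 (V c - u c) with ⟨h4, _⟩ | ⟨h4, _⟩
    · rw [h4] at h2; linarith
    · rw [h4] at h2; exact h2.symm
  obtain ⟨r, hr1, hr0, hr2⟩ := ((hsub c hcΩ).and (eventually_small (hΩ.mem_nhds hcΩ))).exists
  have hball : closedBall c r ⊆ Ω := hr2
  have hu1 := hu.mean c r hr0 hball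
  -- integrability
  have hcm : ∀ θ, circleMap c r θ ∈ Ω := fun θ =>
    hball (sphere_subset_closedBall (circleMap_mem_sphere c hr0.le θ))
  have hulsc : LowerSemicontinuous (fun θ : ℝ => u (circleMap c r θ)) := by
    intro θ y hy
    have h2 := hu.lsc (circleMap c r θ) (hcm θ) y hy
    have ht : Tendsto (circleMap c r) (𝓝 θ) (𝓝[Ω] (circleMap c r θ)) :=
      tendsto_nhdsWithin_iff.mpr ⟨(continuous_circleMap c r).tendsto θ,
        Eventually.of_forall hcm⟩
    exact ht.eventually h2
  have humeas : Measurable (fun θ : ℝ => u (circleMap c r θ)) := hulsc.measurable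
  have huint : CircleIntegrable u c r := by
    rw [CircleIntegrable]
    refine (intervalIntegrable_const (c := (1 : ℝ))).mono_fun humeas.aestronglyMeasurable ?_
    refine Eventually.of_forall fun θ => ?_
    have := hu01 _ (hcm θ)
    show ‖u (circleMap c r θ)‖ ≤ ‖(1 : ℝ)‖
    rw [Real.norm_of_nonneg this.1]
    simpa using this.2
  have hVint : CircleIntegrable V c r := (hV.continuousOn).circleIntegrable'
  -- the contradiction
  have hsum : Real.circleAverage V c r - Real.circleAverage u c r ≥ M := by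
    rw [← hcD]; linarith
  rw [Real.circleAverage_def, Real.circleAverage_def] at hsum
  have hint1 : IntervalIntegrable (fun θ => M - (V (circleMap c r θ) - u (circleMap c r θ)))
      MeasureTheory.volume 0 (2 * Real.pi) :=
    intervalIntegrable_const.sub (hVint.sub huint)
  have hpos : 0 < ∫ θ in (0:ℝ)..(2 * Real.pi),
      (M - (V (circleMap c r θ) - u (circleMap c r θ))) := by
    have hnn : ∀ θ, 0 ≤ M - (V (circleMap c r θ) - u (circleMap c r θ)) := by
      intro θ
      have h2 := hle (circleMap c r θ)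
      simp only [hD, hcm θ, if_true] at h2
      have := le_max_right 0 (V (circleMap c r θ) - u (circleMap c r θ))
      linarith
    have hpi := Real.pi_pos
    have hi1 : IntervalIntegrable (fun θ => M - (V (circleMap c r θ) - u (circleMap c r θ)))
        MeasureTheory.volume 0 (Real.pi / 2) := by
      apply hint1.mono_set
      rw [uIcc_of_le (by linarith), uIcc_of_le (by linarith)]
      exact Icc_subset_Icc le_rfl (by linarith)
    have hi2 : IntervalIntegrable (fun θ => M - (V (circleMap c r θ) - u (circleMap c r θ)))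
        MeasureTheory.volume (Real.pi / 2) (2 * Real.pi) := by
      apply hint1.mono_set
      rw [uIcc_of_le (by linarith), uIcc_of_le (by linarith)]
      exact Icc_subset_Icc (by linarith) le_rfl
    rw [← intervalIntegral.integral_add_adjacent_intervals hi1 hi2]
    have h2 : 0 ≤ ∫ θ in (Real.pi / 2)..(2 * Real.pi),
        (M - (V (circleMap c r θ) - u (circleMap c r θ))) :=
      intervalIntegral.integral_nonneg (by linarith) fun θ _ => hnn θ
    have h3 : 0 < ∫ θ in (0:ℝ)..(Real.pi / 2),
        (M - (V (circleMap c r θ) - u (circleMap c r θ))) := by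
      apply intervalIntegral.intervalIntegral_pos_of_pos_on hi1 _ (by linarith)
      intro θ hθ
      have hre : c.re < (circleMap c r θ).re := by
        simp only [circleMap, Complex.add_re]
        have h4 : ((r : ℂ) * Complex.exp (θ * Complex.I)).re = r * Real.cos θ := by
          rw [Complex.re_ofReal_mul, Complex.exp_ofReal_mul_I_re]
        rw [h4]
        have := Real.cos_pos_of_mem_Ioo (show θ ∈ Ioo (-(Real.pi/2)) (Real.pi/2) from
          ⟨by linarith [hθ.1], hθ.2⟩)
        have := mul_pos hr0 this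
        linarith
      have hnT : circleMap c r θ ∉ T := by
        intro h5
        have := hcmax h5
        have h5' : (circleMap c r θ).re ≤ c.re := this
        linarith
      have h6 : D (circleMap c r θ) < M := not_le.mp hnT
      simp only [hD, hcm θ, if_true] at h6
      have := le_max_right 0 (V (circleMap c r θ) - u (circleMap c r θ))
      linarith
    linarith
  have hVi : IntervalIntegrable (fun θ => V (circleMap c r θ)) MeasureTheory.volume 0
      (2 * Real.pi) := hVint
  have hui : IntervalIntegrable (fun θ => u (circleMap c r θ)) MeasureTheory.volume 0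
      (2 * Real.pi) := huint
  rw [intervalIntegral.integral_sub intervalIntegrable_const (hVi.sub hui),
    intervalIntegral.integral_sub hVi hui] at hpos
  have hc2 : (∫ _ in (0:ℝ)..(2 * Real.pi), M) = 2 * Real.pi * M := by simp
  rw [hc2] at hpos
  have h2pi : (0:ℝ) < 2 * Real.pi := Real.two_pi_pos
  simp only [smul_eq_mul] at hsum
  rw [← mul_sub] at hsum
  have : 2 * Real.pi * ((2 * Real.pi)⁻¹ * ((∫ θ in (0:ℝ)..(2 * Real.pi), V (circleMap c r θ)) -
      ∫ θ in (0:ℝ)..(2 * Real.pi), u (circleMap c r θ))) ≥ 2 * Real.pi * M :=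
    mul_le_mul_of_nonneg_left hsum h2pi.le
  rw [← mul_assoc, mul_inv_cancel₀ h2pi.ne', one_mul] at this
  linarith

/-- A lower bound for harmonic measure from a subharmonic minorant. -/
theorem le_harmonicMeasure {Ω : Set ℂ} (hΩ : IsOpen Ω) (hb : Bornology.IsBounded Ω) {V : ℂ → ℝ}
    (hV : Continuous V) (hsub : ∀ z ∈ Ω, SubMeanAt V z) {E : Set ℂ}
    (h0 : ∀ z ∈ frontier Ω, z ∉ E → V z ≤ 0) (h1 : ∀ z ∈ E, V z ≤ 1) {z : ℂ} (hz : z ∈ Ω) :
    V z ≤ harmonicMeasure z E Ω := by
  apply le_csInf
  · refine ⟨1, fun _ => 1, ⟨?_, ?_⟩, ?_, ?_, rfl⟩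
    · exact lowerSemicontinuousOn_const
    · intro c r _ _
      rw [Real.circleAverage_const]
    · intro w _; exact ⟨zero_le_one, le_rfl⟩
    · intro ζ _ η hη
      exact Eventually.of_forall fun w => by linarith
  · rintro t ⟨u, hu, hu01, hlim, rfl⟩
    exact comparison hΩ hb hV hsub h0 h1 hu hu01 hlim z hz

end Pool.Agent.H209
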