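import Pool.Agent.H209.Base2
import Pool.Agent.H209.Pot

set_option autoImplicit false

namespace Pool.Agent.H209

open Set Filter Topology Metric Complex

open Classical in
/-- The positive part of the base potential. -/
noncomputable def SP (z : ℂ) : ℝ := if z ∈ Kb then 0 else max 0 (F z).re

lemma SP_nonneg (z : ℂ) : 0 ≤ SP z := by
  unfold SP; split_ifs <;> simp

lemma SP_of_mem {z : ℂ} (hz : z ∈ Kb) : SP z = 0 := by simp [SP, hz]

lemma SP_of_notMem {z : ℂ} (hz : z ∉ Kb) : SP z = max 0 (F z).re := by simp [SP, hz]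

lemma notMem_of_SP_pos {z : ℂ} (h : 0 < SP z) : z ∉ Kb := by
  intro hz; rw [SP_of_mem hz] at h; exact lt_irrefl _ h

lemma sf_re_nonpos {z : ℂ} (hz : z ∉ Kb) (h : z.re ≤ 0) : (sf z).re ≤ 0 := by
  have hj := (jouk hz).1
  have hN := N_gt hz
  by_contra hcon
  push Not at hcon
  have : 0 < (sf z).re * (‖sf z + z‖ ^ 2 - 1) := mul_pos hcon (by linarith)
  have : z.re * (‖sf z + z‖ ^ 2 + 1) ≤ 0 := mul_nonpos_of_nonpos_of_nonneg h (by linarith)
  linarith

lemma sf_re_nonneg {z : ℂ} (hz : z ∉ Kb) (h : 0 ≤ z.re) : 0 ≤ (sf z).re := by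
  have hj := (jouk hz).1
  have hN := N_gt hz
  by_contra hcon
  push Not at hcon
  have : (sf z).re * (‖sf z + z‖ ^ 2 - 1) < 0 := mul_neg_of_neg_of_pos hcon (by linarith)
  have : 0 ≤ z.re * (‖sf z + z‖ ^ 2 + 1) := mul_nonneg h (by linarith)
  linarith

lemma sf_im_nonpos {z : ℂ} (hz : z ∉ Kb) (h : z.im ≤ 0) : (sf z).im ≤ 0 := by
  have hj := (jouk hz).2
  have hN := N_gt hz
  by_contra hcon
  push Not at hcon
  have : 0 < (sf z).im * (‖sf z + z‖ ^ 2 + 1) := mul_pos hcon (by linarith)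
  have : z.im * (‖sf z + z‖ ^ 2 - 1) ≤ 0 := mul_nonpos_of_nonpos_of_nonneg h (by linarith)
  linarith

lemma pf_im_nonpos {z : ℂ} (hz : z ∉ Kb) (h : z.im ≤ 0) : (pf z).im ≤ 0 := by
  have h1 := congrArg Complex.im (pf_sq z)
  rw [sq, mul_im] at h1
  have h2 : (sf z - r2).im = (sf z).im := by simp
  rw [h2] at h1
  have h3 := pf_re_pos hz
  have h4 := sf_im_nonpos hz h
  by_contra hcon
  push Not at hcon
  have := mul_pos h3 hcon
  linarith

lemma pf_norm_sq_le {z : ℂ} (hz : z ∉ Kb) : ‖pf z‖ ^ 2 ≤ ‖z‖ + 3 := by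
  rw [pf_norm_sq]
  have hd := norm_diff_le hz
  have h3 := norm_add_le z ((sf z - r2) - z)
  have h4 : z + ((sf z - r2) - z) = sf z - r2 := by ring
  rw [h4] at h3
  linarith

lemma bound1 {z : ℂ} (hz : z ∉ Kb) (h1 : z ≠ 1) :
    1 / ‖pf z‖ ^ 2 ≤ 1 + (‖z‖ + 3) / ‖z - 1‖ := by
  have hv : 0 < ‖z - 1‖ := norm_pos_iff.mpr (sub_ne_zero.mpr h1)
  have hz0 := norm_nonneg z
  have hr := r2_gt
  have hr' := r2_lt
  norm_num at hr hr'
  rw [pf_norm_sq]
  rcases le_or_gt z.re 0 with hre | hre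
  · have h2 := sf_re_nonpos hz hre
    have h3 : 1 ≤ ‖sf z - r2‖ := by
      have h4 := abs_re_le_norm (sf z - r2)
      have h5 := neg_abs_le (sf z - r2).re
      rw [sub_re, ofReal_re] at h4 h5
      linarith
    have h4 : 1 / ‖sf z - r2‖ ≤ 1 := by rw [div_le_one (by linarith)]; exact h3
    have : 0 ≤ (‖z‖ + 3) / ‖z - 1‖ := by positivity
    linarith
  · have h2 := sf_re_nonneg hz hre.le
    have hprod : (sf z - r2) * (sf z + r2) = (z - 1) * (z + 1) := by
      have hr2c : ((r2:ℂ)) ^ 2 = 2 := by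
        rw [← ofReal_pow, r2_sq]; simp
      have h5 := sf_sq hz
      have : (sf z - r2) * (sf z + r2) = sf z ^ 2 - (r2:ℂ) ^ 2 := by ring
      rw [this, h5, hr2c]; ring
    have hn : ‖sf z - r2‖ * ‖sf z + r2‖ = ‖z - 1‖ * ‖z + 1‖ := by
      rw [← norm_mul, hprod, norm_mul]
    have h6 : 1 ≤ ‖z + 1‖ := by
      have h4 := re_le_norm (z + 1)
      rw [add_re, one_re] at h4
      linarith
    have h7 : ‖sf z + r2‖ ≤ ‖z‖ + 3 := by
      have h8 := norm_sub_lt_one hz
      have h9 := norm_add_le ((sf z - z) + r2) z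
      have h10 := norm_add_le (sf z - z) (r2 : ℂ)
      have h11 : (sf z - z) + r2 + z = sf z + r2 := by ring
      rw [h11] at h9
      rw [Complex.norm_of_nonneg r2_pos.le] at h10
      linarith
    have h8 : ‖z - 1‖ ≤ ‖sf z - r2‖ * (‖z‖ + 3) := by
      calc ‖z - 1‖ = ‖z - 1‖ * 1 := (mul_one _).symm
        _ ≤ ‖z - 1‖ * ‖z + 1‖ := mul_le_mul_of_nonneg_left h6 hv.le
        _ = ‖sf z - r2‖ * ‖sf z + r2‖ := hn.symm
        _ ≤ _ := mul_le_mul_of_nonneg_left h7 (norm_nonneg _)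
    have h9 : 0 < ‖sf z - r2‖ := by
      rw [← pf_norm_sq]
      have := norm_pos_iff.mpr (pf_ne_zero hz); positivity
    have h10 : 1 / ‖sf z - r2‖ ≤ (‖z‖ + 3) / ‖z - 1‖ := by
      rw [div_le_div_iff₀ h9 hv]
      linarith
    linarith

lemma bound2 {z : ℂ} (hz : z ∉ Kb) (h1 : z ≠ I) :
    r2⁻¹ / ‖pf z - be * I‖ ^ 2 ≤ 1 + (2 * ‖z‖ + 9) / ‖z - I‖ := by
  have hv : 0 < ‖z - I‖ := norm_pos_iff.mpr (sub_ne_zero.mpr h1)
  have hz0 := norm_nonneg z
  have hr := r2_gt
  have hr' := r2_lt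
  have hb := be_gt
  have hri := r2_inv_lt
  have hri0 := inv_pos.mpr r2_pos
  norm_num at hr hr' hb hri
  have hm0 := norm_pos_iff.mpr (pf_sub_ne_zero hz)
  rcases le_or_gt z.im 0 with him | him
  · have h2 := pf_im_nonpos hz him
    have h3 : 1 ≤ ‖pf z - be * I‖ := by
      have h4 := abs_im_le_norm (pf z - be * I)
      have h5 := neg_abs_le (pf z - be * I).im
      have h6 : (pf z - be * I).im = (pf z).im - be := by simp
      rw [h6] at h4 h5
      linarith
    have h4 : r2⁻¹ / ‖pf z - be * I‖ ^ 2 ≤ 1 := by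
      rw [div_le_one (by positivity)]
      nlinarith
    have : 0 ≤ (2 * ‖z‖ + 9) / ‖z - I‖ := by positivity
    linarith
  · have hfac : (pf z - be * I) * (pf z + be * I) = sf z := by
      have h1 : (pf z - be * I) * (pf z + be * I) = pf z ^ 2 - (be:ℂ) ^ 2 * I ^ 2 := by ring
      rw [h1, pf_sq, I_sq, ← ofReal_pow, be_sq]; ring
    have hmn : ‖pf z - be * I‖ * ‖pf z + be * I‖ = ‖sf z‖ := by rw [← norm_mul, hfac]
    have hs : ‖sf z‖ ^ 2 = ‖z - I‖ * ‖z + I‖ := by
      rw [← norm_pow, sf_sq hz, ← norm_mul]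
      congr 1
      linear_combination I_sq
    have h6 : 1 ≤ ‖z + I‖ := by
      have h4 := abs_im_le_norm (z + I)
      have h5 := le_abs_self (z + I).im
      rw [add_im, I_im] at h4 h5
      linarith
    have h7 : ‖pf z + be * I‖ ^ 2 ≤ 2 * ‖z‖ + 9 := by
      have h8 := norm_add_le (pf z) (be * I)
      have h5 : ‖(be : ℂ) * I‖ = be := by
        rw [norm_mul, norm_I, mul_one, Complex.norm_of_nonneg be_pos.le]
      rw [h5] at h8
      have h9 := pf_norm_sq_le hz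
      have h10 := be_sq
      have h11 : ‖pf z + be * I‖ ^ 2 ≤ (‖pf z‖ + be) ^ 2 :=
        pow_le_pow_left₀ (norm_nonneg _) h8 2
      nlinarith [sq_nonneg (‖pf z‖ - be)]
    have h8 : ‖z - I‖ ≤ ‖pf z - be * I‖ ^ 2 * (2 * ‖z‖ + 9) := by
      calc ‖z - I‖ = ‖z - I‖ * 1 := (mul_one _).symm
        _ ≤ ‖z - I‖ * ‖z + I‖ := mul_le_mul_of_nonneg_left h6 hv.le
        _ = ‖pf z - be * I‖ ^ 2 * ‖pf z + be * I‖ ^ 2 := by rw [← hs, ← hmn, mul_pow]
        _ ≤ _ := mul_le_mul_of_nonneg_left h7 (by positivity)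
    have h10 : r2⁻¹ / ‖pf z - be * I‖ ^ 2 ≤ (2 * ‖z‖ + 9) / ‖z - I‖ := by
      rw [div_le_div_iff₀ (by positivity) hv]
      have : r2⁻¹ * ‖z - I‖ ≤ 1 * ‖z - I‖ := mul_le_mul_of_nonneg_right (by linarith) hv.le
      linarith
    linarith

/-- The function controlling `re (pf z)` near the base tree. -/
noncomputable def JJ (z : ℂ) : ℝ :=
  Real.sqrt (Real.sqrt ((‖z ^ 2 + 1‖ - (z ^ 2 + 1).re) / 2) / 2)

noncomputable def GG (z : ℂ) : ℝ :=
  (1 + (‖z‖ + 3) / ‖z - 1‖) + (1 + (2 * ‖z‖ + 9) / ‖z - I‖)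

lemma pf_re_le {z : ℂ} (hz : z ∉ Kb) (h : (sf z).re ≤ r2) : (pf z).re ≤ JJ z := by
  unfold JJ
  apply Real.le_sqrt_of_sq_le
  rw [re_of_sq (pf_sq z)]
  have h1 : |(sf z).im| = Real.sqrt ((‖z ^ 2 + 1‖ - (z ^ 2 + 1).re) / 2) := by
    rw [← im_of_sq (sf_sq hz), Real.sqrt_sq_eq_abs]
  rw [← h1]
  have h2 := norm_le_abs_re_add_abs_im (sf z - r2)
  have h3 : (sf z - r2).re = (sf z).re - r2 := by simp
  have h4 : (sf z - r2).im = (sf z).im := by simp
  rw [h3, h4, abs_of_nonpos (by linarith)] at h2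
  rw [h3]
  linarith

lemma SP_le {z : ℂ} (h1 : z ≠ 1) (h2 : z ≠ I) (h : z ∉ Kb → (sf z).re ≤ r2) :
    SP z ≤ JJ z * GG z := by
  have hJ : 0 ≤ JJ z := Real.sqrt_nonneg _
  have hG : 0 ≤ GG z := by unfold GG; positivity
  by_cases hz : z ∈ Kb
  · rw [SP_of_mem hz]; positivity
  · rw [SP_of_notMem hz]
    apply max_le (by positivity)
    rw [F_re]
    have h3 := bound1 hz h1
    have h4 := bound2 hz h2
    have h5 := pf_re_le hz (h hz)
    have h6 : 0 ≤ mu := by unfold mu; norm_num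
    calc (pf z).re * (1 / ‖pf z‖ ^ 2 + r2⁻¹ / ‖pf z - be * I‖ ^ 2 - mu)
        ≤ (pf z).re * GG z := by
          apply mul_le_mul_of_nonneg_left _ (pf_re_pos hz).le
          unfold GG; linarith
      _ ≤ JJ z * GG z := mul_le_mul_of_nonneg_right h5 hG

lemma sf_re_le_eventually {z₀ : ℂ} (h0 : z₀ ∈ Kb) (h1 : z₀ ≠ 1) :
    ∀ᶠ z in 𝓝 z₀, z ∉ Kb → (sf z).re ≤ r2 := by
  by_cases hre : z₀.re < 0
  · have : ∀ᶠ z in 𝓝 z₀, z.re < 0 := continuous_re.continuousAt.eventually (Iio_mem_nhds hre)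
    filter_upwards [this] with z hz hzK
    have := sf_re_nonpos hzK hz.le
    have := r2_pos
    linarith
  · push Not at hre
    have hlt : ‖z₀ ^ 2 + 1‖ < 2 := by
      rcases h0 with ⟨him, hle⟩ | ⟨hre0, him⟩
      · have hlt1 : z₀.re < 1 := by
          refine lt_of_le_of_ne hle ?_
          intro h
          apply h1
          apply Complex.ext
          · rw [h, one_re]
          · rw [him, one_im]
        have hz : z₀ = (z₀.re : ℂ) := Complex.ext (by simp) (by simp [him])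
        rw [hz, ← ofReal_pow, ← ofReal_one, ← ofReal_add, Complex.norm_real,
          Real.norm_of_nonneg (by positivity)]
        nlinarith
      · have hz : z₀ ^ 2 + 1 = ((1 - z₀.im ^ 2 : ℝ) : ℂ) := by
          apply Complex.ext
          · simp only [add_re, sq, mul_re, one_re, ofReal_re, hre0]; ring
          · simp only [add_im, sq, mul_im, one_im, ofReal_im, hre0]; ring
        rw [hz, Complex.norm_real, Real.norm_eq_abs, abs_lt]
        have := (sq_le_one_iff_abs_le_one _).mpr him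
        constructor <;> nlinarith [sq_nonneg z₀.im]
    have : ∀ᶠ z in 𝓝 z₀, ‖z ^ 2 + 1‖ < 2 := by
      have hc : Continuous (fun z : ℂ => ‖z ^ 2 + 1‖) := by fun_prop
      exact hc.continuousAt.eventually (Iio_mem_nhds hlt)
    filter_upwards [this] with z hz hzK
    have h3 : ‖sf z‖ ^ 2 < 2 := by rw [← norm_pow, sf_sq hzK]; exact hz
    have h4 := re_le_norm (sf z)
    have h5 := r2_sq
    have h6 := r2_pos
    by_contra hcon
    push Not at hcon
    have h7 : r2 < ‖sf z‖ := lt_of_lt_of_le hcon h4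
    nlinarith

lemma JJ_eq_zero {z : ℂ} (h0 : z ∈ Kb) : JJ z = 0 := by
  unfold JJ
  have : ‖z ^ 2 + 1‖ = (z ^ 2 + 1).re := by
    rcases h0 with ⟨him, hle⟩ | ⟨hre0, him⟩
    · have hz : z ^ 2 + 1 = ((z.re ^ 2 + 1 : ℝ) : ℂ) := by
        apply Complex.ext
        · simp only [add_re, sq, mul_re, one_re, ofReal_re, him]; ring
        · simp only [add_im, sq, mul_im, one_im, ofReal_im, him]; ring
      rw [hz, Complex.norm_real, ofReal_re, Real.norm_of_nonneg (by positivity)]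
    · have hz : z ^ 2 + 1 = ((1 - z.im ^ 2 : ℝ) : ℂ) := by
        apply Complex.ext
        · simp only [add_re, sq, mul_re, one_re, ofReal_re, hre0]; ring
        · simp only [add_im, sq, mul_im, one_im, ofReal_im, hre0]; ring
      have := (sq_le_one_iff_abs_le_one _).mpr him
      rw [hz, Complex.norm_real, ofReal_re, Real.norm_of_nonneg (by linarith)]
  rw [this, sub_self]
  simp

lemma continuousAt_SP {z₀ : ℂ} (h1 : z₀ ≠ 1) (h2 : z₀ ≠ I) : ContinuousAt SP z₀ := by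
  by_cases h0 : z₀ ∈ Kb
  · have hc : ContinuousAt (fun z => JJ z * GG z) z₀ := by
      apply ContinuousAt.mul
      · unfold JJ; fun_prop
      · unfold GG
        have ha : ‖z₀ - 1‖ ≠ 0 := norm_ne_zero_iff.mpr (sub_ne_zero.mpr h1)
        have hb : ‖z₀ - I‖ ≠ 0 := norm_ne_zero_iff.mpr (sub_ne_zero.mpr h2)
        fun_prop (disch := assumption)
    have hv : SP z₀ = 0 := SP_of_mem h0
    have hJG : JJ z₀ * GG z₀ = 0 := by rw [JJ_eq_zero h0, zero_mul]
    have hc' : Tendsto (fun z => JJ z * GG z) (𝓝 z₀) (𝓝 (JJ z₀ * GG z₀)) := hc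
    rw [hJG] at hc'
    unfold ContinuousAt
    rw [hv]
    refine tendsto_of_tendsto_of_tendsto_of_le_of_le' tendsto_const_nhds hc'
      (Eventually.of_forall SP_nonneg) ?_
    filter_upwards [sf_re_le_eventually h0 h1, isOpen_ne.mem_nhds h1, isOpen_ne.mem_nhds h2]
      with z hz hz1 hz2
    exact SP_le hz1 hz2 hz
  · have hc0 : ContinuousAt (fun z => (F z).re) z₀ :=
      continuous_re.continuousAt.comp (F_differentiableAt h0).continuousAt
    have hc1 : Continuous (fun x : ℝ => max 0 x) := continuous_const.max continuous_id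
    have hc : ContinuousAt (fun z => max 0 (F z).re) z₀ :=
      ContinuousAt.comp (g := fun x : ℝ => max 0 x) hc1.continuousAt hc0
    refine hc.congr ?_
    filter_upwards [isOpen_Kbc.mem_nhds h0] with z hz
    exact (SP_of_notMem hz).symm

/-- The base potential in the form used in the gluing. -/
lemma SP_far {z : ℂ} (h : 10 ^ 16 ≤ ‖z‖) : SP z = 0 := by
  by_cases hz : z ∈ Kb
  · exact SP_of_mem hz
  · rw [SP_of_notMem hz]
    exact max_eq_left (E3 hz h)

lemma SP_circle1 {z : ℂ} {t : ℝ} (ht0 : 0 < t) (ht1 : t ≤ 1 / 10 ^ 12) (h : ‖z - 1‖ = t) :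
    SP z ≤ 1.005 * be * H (z - 1) / t := by
  have h0 : 0 ≤ 1.005 * be * H (z - 1) / t := by
    have := be_pos; have := H_nonneg (z - 1); positivity
  by_cases hz : z ∈ Kb
  · rw [SP_of_mem hz]; exact h0
  · rw [SP_of_notMem hz]
    exact max_le h0 (E1a hz ht0 ht1 h)

lemma SP_circle2 {z : ℂ} {t : ℝ} (ht0 : 0 < t) (ht1 : t ≤ 1 / 10 ^ 12) (h : ‖z - I‖ = t) :
    SP z ≤ 1.005 * be * H (mir (z - I)) / t := by
  have h0 : 0 ≤ 1.005 * be * H (mir (z - I)) / t := by
    have := be_pos; have := H_nonneg (mir (z - I)); positivity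
  by_cases hz : z ∈ Kb
  · rw [SP_of_mem hz]; exact h0
  · rw [SP_of_notMem hz]
    exact max_le h0 (E1b hz ht0 ht1 h)

lemma SP_outer {z : ℂ} (h : ‖z‖ = 10 ^ 8) : 1.706 * H z / 10 ^ 8 ≤ SP z := by
  by_cases hz : z ∈ Kb
  · have hH : H z = 0 := by
      rcases hz with ⟨him, hle⟩ | ⟨hre0, him⟩
      · apply H_eq_zero him
        by_contra hcon
        push Not at hcon
        have hz' : z = (z.re : ℂ) := Complex.ext (by simp) (by simp [him])
        rw [hz', Complex.norm_real, Real.norm_of_nonneg hcon.le] at h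
        linarith
      · exfalso
        have h1 := norm_le_abs_re_add_abs_im z
        rw [hre0, abs_zero, zero_add, h] at h1
        linarith
    rw [hH, SP_of_mem ‹_›]; simp
  · rw [SP_of_notMem hz]
    exact (E2 hz h).trans (le_max_right _ _)

end Pool.Agent.H209
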