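import Mathlib

set_option autoImplicit false

/-!
Gluing two simply connected open sets along a path connected overlap.
-/

namespace Pool.Agent.H209.Glue

open Set unitInterval Topology

section space

variable {X : Type*} [TopologicalSpace X]

/-- Paths with values in a simply connected set are homotopic in the whole space. -/
lemma homotopic_of_mem {U : Set X} (hU : IsSimplyConnected U) {x y : X} (p q : Path x y)
    (hp : ∀ t, p t ∈ U) (hq : ∀ t, q t ∈ U) : p.Homotopic q := by
  have := hU.simplyConnectedSpace
  have hx : x ∈ U := by simpa using hp 0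
  have hy : y ∈ U := by simpa using hp 1
  let p' : Path (⟨x, hx⟩ : U) ⟨y, hy⟩ :=
    { toFun := fun t => ⟨p t, hp t⟩
      continuous_toFun := by fun_prop
      source' := by simp
      target' := by simp }
  let q' : Path (⟨x, hx⟩ : U) ⟨y, hy⟩ :=
    { toFun := fun t => ⟨q t, hq t⟩
      continuous_toFun := by fun_prop
      source' := by simp
      target' := by simp }
  have h : p'.Homotopic q' := SimplyConnectedSpace.paths_homotopic p' q'
  have h2 := h.map (⟨Subtype.val, continuous_subtype_val⟩ : C(U, X))
  exact h2

theorem simplyConnectedSpace_of_cover {U V : Set X} (hUo : IsOpen U) (hVo : IsOpen V)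
    (hU : IsSimplyConnected U) (hV : IsSimplyConnected V) (hUV : IsPathConnected (U ∩ V))
    (hcov : ∀ x, x ∈ U ∨ x ∈ V) : SimplyConnectedSpace X := by
  obtain ⟨x0, hx0U, hx0V⟩ := hUV.nonempty
  -- the canonical class of paths from the base point
  have hex : ∀ y : X, ∃ c : Path.Homotopic.Quotient x0 y,
      (∀ p : Path x0 y, (∀ t, p t ∈ U) → Path.Homotopic.Quotient.mk p = c) ∧
      (∀ p : Path x0 y, (∀ t, p t ∈ V) → Path.Homotopic.Quotient.mk p = c) := by
    intro y
    by_cases hyU : y ∈ U
    · by_cases hyV : y ∈ V
      · obtain ⟨p, hp⟩ := hUV.joinedIn x0 ⟨hx0U, hx0V⟩ y ⟨hyU, hyV⟩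
        refine ⟨Path.Homotopic.Quotient.mk p, fun q hq => ?_, fun q hq => ?_⟩
        · exact Quotient.sound (homotopic_of_mem hU q p hq (fun t => (hp t).1))
        · exact Quotient.sound (homotopic_of_mem hV q p hq (fun t => (hp t).2))
      · obtain ⟨p, hp⟩ := hU.isPathConnected.joinedIn x0 hx0U y hyU
        refine ⟨Path.Homotopic.Quotient.mk p, fun q hq => ?_, fun q hq => ?_⟩
        · exact Quotient.sound (homotopic_of_mem hU q p hq hp)
        · exact absurd (by simpa using hq 1) hyV
    · have hyV : y ∈ V := (hcov y).resolve_left hyU
      obtain ⟨p, hp⟩ := hV.isPathConnected.joinedIn x0 hx0V y hyV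
      refine ⟨Path.Homotopic.Quotient.mk p, fun q hq => ?_, fun q hq => ?_⟩
      · exact absurd (by simpa using hq 1) hyU
      · exact Quotient.sound (homotopic_of_mem hV q p hq hp)
  choose c hcU hcV using hex
  -- short paths
  have hshort : ∀ (a b : X) (γ : Path a b), ((∀ t, γ t ∈ U) ∨ (∀ t, γ t ∈ V)) →
      (c a).trans (Path.Homotopic.Quotient.mk γ) = c b := by
    rintro a b γ (h | h)
    · have ha : a ∈ U := by simpa using h 0
      obtain ⟨p, hp⟩ := hU.isPathConnected.joinedIn x0 hx0U a ha
      rw [← hcU a p hp, ← Path.Homotopic.Quotient.mk_trans]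
      apply hcU b
      intro t
      rw [Path.trans_apply]
      split_ifs <;> [exact hp _; exact h _]
    · have ha : a ∈ V := by simpa using h 0
      obtain ⟨p, hp⟩ := hV.isPathConnected.joinedIn x0 hx0V a ha
      rw [← hcV a p hp, ← Path.Homotopic.Quotient.mk_trans]
      apply hcV b
      intro t
      rw [Path.trans_apply]
      split_ifs <;> [exact hp _; exact h _]
  have hlong : ∀ (a b : X) (γ : Path a b),
      (c a).trans (Path.Homotopic.Quotient.mk γ) = c b := by
    intro a b γ
    obtain ⟨t, ht0, htm, ⟨N, hN⟩, hsub⟩ := exists_monotone_Icc_subset_open_cover_unitInterval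
      (c := fun i : Bool => if i then γ ⁻¹' U else γ ⁻¹' V)
      (by
        intro i
        cases i
        · simpa using hVo.preimage γ.continuous
        · simpa using hUo.preimage γ.continuous)
      (by
        intro s _
        rw [mem_iUnion]
        rcases hcov (γ s) with h | h
        · exact ⟨true, by simpa using h⟩
        · exact ⟨false, by simpa using h⟩)
    have key : ∀ n : ℕ, (c (γ (t 0))).trans
        (Path.Homotopic.Quotient.mk (γ.subpath (t 0) (t n))) = c (γ (t n)) := by
      intro n
      induction n with
      | zero =>
        apply hshort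
        simp only [Path.subpath_self, Path.refl_apply]
        rcases hcov (γ (t 0)) with h | h
        · left; intro _; exact h
        · right; intro _; exact h
      | succ n ih =>
        have h1 : Path.Homotopic.Quotient.mk (γ.subpath (t 0) (t (n+1))) =
            (Path.Homotopic.Quotient.mk (γ.subpath (t 0) (t n))).trans
              (Path.Homotopic.Quotient.mk (γ.subpath (t n) (t (n+1)))) := by
          rw [← Path.Homotopic.Quotient.mk_trans]
          have hh : Path.Homotopic ((γ.subpath (t 0) (t n)).trans (γ.subpath (t n) (t (n+1))))
              (γ.subpath (t 0) (t (n+1))) :=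
            ⟨Path.Homotopy.subpathTransSubpath γ (t 0) (t n) (t (n+1))⟩
          exact (Quotient.sound hh).symm
        rw [h1, ← Path.Homotopic.Quotient.trans_assoc, ih]
        apply hshort
        obtain ⟨i, hi⟩ := hsub n
        have hr := Path.range_subpath_of_le γ (t n) (t (n+1)) (htm (Nat.le_succ n))
        have hmem : ∀ s, γ.subpath (t n) (t (n+1)) s ∈ γ '' (Icc (t n) (t (n+1))) := by
          intro s
          rw [← hr]
          exact mem_range_self s
        cases i
        · right
          intro s
          obtain ⟨w, hw, hw2⟩ := hmem s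
          rw [← hw2]
          simpa using hi hw
        · left
          intro s
          obtain ⟨w, hw, hw2⟩ := hmem s
          rw [← hw2]
          simpa using hi hw
    have hfin := key N
    have hN1 : t N = 1 := hN N le_rfl
    rw [ht0, hN1] at hfin
    have e0 : γ 0 = a := γ.source
    have e1 : γ 1 = b := γ.target
    have : ∀ (a' b' : X) (ha : γ 0 = a') (hb : γ 1 = b') (γ' : Path a' b'),
        γ'.toContinuousMap = γ.toContinuousMap →
        (c a').trans (Path.Homotopic.Quotient.mk γ') = c b' := by
      intro a' b' ha hb γ' hγ
      subst ha hb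
      have : γ' = γ.subpath 0 1 := by
        rw [Path.subpath_zero_one]
        ext s
        have := congrArg (fun f : C(I, X) => f s) hγ
        simpa using this
      rw [this]
      exact hfin
    exact this a b e0 e1 γ rfl
  rw [simply_connected_iff_paths_homotopic]
  constructor
  · have hpc : IsPathConnected (U ∪ V) := hU.isPathConnected.union hV.isPathConnected hUV.nonempty
    have : U ∪ V = univ := by
      ext x; simpa using hcov x
    rw [this] at hpc
    exact pathConnectedSpace_iff_univ.mpr hpc
  · intro x y
    refine ⟨fun p q => ?_⟩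
    obtain ⟨p, rfl⟩ := Path.Homotopic.Quotient.mk_surjective p
    obtain ⟨q, rfl⟩ := Path.Homotopic.Quotient.mk_surjective q
    have hp := hlong x y p
    have hq := hlong x y q
    have h : (c x).symm.trans ((c x).trans (Path.Homotopic.Quotient.mk p)) =
        (c x).symm.trans ((c x).trans (Path.Homotopic.Quotient.mk q)) := by
      rw [hp, hq]
    rw [← Path.Homotopic.Quotient.trans_assoc, ← Path.Homotopic.Quotient.trans_assoc] at h
    simpa using h

end space

variable {X : Type*} [TopologicalSpace X]

/-- The union of two simply connected open sets with path connected intersection is simply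
connected. -/
theorem IsSimplyConnected.union {U V : Set X} (hUo : IsOpen U) (hVo : IsOpen V)
    (hU : IsSimplyConnected U) (hV : IsSimplyConnected V) (hUV : IsPathConnected (U ∩ V)) :
    IsSimplyConnected (U ∪ V) := by
  have key : ∀ W : Set X, W ⊆ U ∪ V → ((Subtype.val : ↥(U ∪ V) → X) '' (Subtype.val ⁻¹' W)) = W := by
    intro W hW
    rw [Subtype.image_preimage_coe]
    exact inter_eq_right.mpr hW
  have emb : IsEmbedding (Subtype.val : ↥(U ∪ V) → X) := IsEmbedding.subtypeVal
  refine simplyConnectedSpace_of_cover (U := Subtype.val ⁻¹' U) (V := Subtype.val ⁻¹' V)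
    (hUo.preimage continuous_subtype_val) (hVo.preimage continuous_subtype_val) ?_ ?_ ?_ ?_
  · rw [← emb.isSimplyConnected_image, key U subset_union_left]; exact hU
  · rw [← emb.isSimplyConnected_image, key V subset_union_right]; exact hV
  · rw [← preimage_inter]
    rw [emb.isInducing.isPathConnected_iff]
    rw [key _ (inter_subset_left.trans subset_union_left)]
    exact hUV
  · rintro ⟨x, hx⟩
    exact hx

end Pool.Agent.H209.Glue
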