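import Pool.Agent.H209.Topo
import Pool.Agent.H209.Base3

set_option autoImplicit false

namespace Pool.Agent.H209

open Set Filter Topology Metric Complex

/-! ### The two similarities -/

/-- Inverse of the similarity carrying the picture to the tip `1`. -/
noncomputable def psi1 (z : ℂ) : ℂ := ((10 ^ 20 : ℝ) : ℂ) * (z - 1)

/-- Inverse of the mirrored similarity carrying the picture to the tip `i`. -/
noncomputable def psi2 (z : ℂ) : ℂ := ((10 ^ 20 : ℝ) : ℂ) * mir (z - I)

lemma mir_mir (z : ℂ) : mir (mir z) = z := by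
  apply Complex.ext
  · rw [mir_re, mir_im]
  · rw [mir_im, mir_re]

noncomputable def phi1 (w : ℂ) : ℂ := 1 + ((1 / 10 ^ 20 : ℝ) : ℂ) * w
noncomputable def phi2 (w : ℂ) : ℂ := I + ((1 / 10 ^ 20 : ℝ) : ℂ) * mir w

lemma mir_ofReal_mul (k : ℝ) (w : ℂ) : mir ((k : ℂ) * w) = (k : ℂ) * mir w := by
  unfold mir
  rw [map_mul, conj_ofReal]; ring

lemma continuous_mir : Continuous mir := by
  unfold mir
  exact continuous_const.mul continuous_conj

lemma psi1_phi1 (w : ℂ) : psi1 (phi1 w) = w := by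
  unfold psi1 phi1
  have : ((10 ^ 20 : ℝ) : ℂ) * ((1 / 10 ^ 20 : ℝ) : ℂ) = 1 := by
    rw [← ofReal_mul]; norm_num
  linear_combination w * this

lemma psi2_phi2 (w : ℂ) : psi2 (phi2 w) = w := by
  unfold psi2 phi2
  have h1 : I + ((1 / 10 ^ 20 : ℝ) : ℂ) * mir w - I = ((1 / 10 ^ 20 : ℝ) : ℂ) * mir w := by ring
  rw [h1, mir_ofReal_mul, mir_mir]
  have : ((10 ^ 20 : ℝ) : ℂ) * ((1 / 10 ^ 20 : ℝ) : ℂ) = 1 := by
    rw [← ofReal_mul]; norm_num
  linear_combination w * this

lemma phi1_psi1 (z : ℂ) : phi1 (psi1 z) = z := by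
  unfold psi1 phi1
  have : ((1 / 10 ^ 20 : ℝ) : ℂ) * ((10 ^ 20 : ℝ) : ℂ) = 1 := by
    rw [← ofReal_mul]; norm_num
  linear_combination (z - 1) * this

lemma phi2_psi2 (z : ℂ) : phi2 (psi2 z) = z := by
  unfold psi2 phi2
  rw [mir_ofReal_mul, mir_mir]
  have : ((1 / 10 ^ 20 : ℝ) : ℂ) * ((10 ^ 20 : ℝ) : ℂ) = 1 := by
    rw [← ofReal_mul]; norm_num
  linear_combination (z - I) * this

lemma continuous_psi1 : Continuous psi1 := by unfold psi1; fun_prop
lemma continuous_psi2 : Continuous psi2 :=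
  continuous_const.mul (continuous_mir.comp (continuous_id.sub continuous_const))
lemma continuous_phi1 : Continuous phi1 := by unfold phi1; fun_prop
lemma continuous_phi2 : Continuous phi2 :=
  continuous_const.add (continuous_const.mul continuous_mir)

noncomputable def hom1 : ℂ ≃ₜ ℂ where
  toFun := psi1
  invFun := phi1
  left_inv := phi1_psi1
  right_inv := psi1_phi1
  continuous_toFun := continuous_psi1
  continuous_invFun := continuous_phi1

noncomputable def hom2 : ℂ ≃ₜ ℂ where
  toFun := psi2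
  invFun := phi2
  left_inv := phi2_psi2
  right_inv := psi2_phi2
  continuous_toFun := continuous_psi2
  continuous_invFun := continuous_phi2

lemma norm_psi1 (z : ℂ) : ‖psi1 z‖ = 10 ^ 20 * ‖z - 1‖ := by
  unfold psi1
  rw [norm_mul, Complex.norm_of_nonneg (by norm_num)]

lemma norm_psi2 (z : ℂ) : ‖psi2 z‖ = 10 ^ 20 * ‖z - I‖ := by
  unfold psi2
  rw [norm_mul, norm_mir, Complex.norm_of_nonneg (by norm_num)]

lemma mir_sub (z w : ℂ) : mir (z - w) = mir z - mir w := by
  unfold mir; rw [map_sub]; ring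

lemma norm_psi1_sub (z w : ℂ) : ‖psi1 z - w‖ = 10 ^ 20 * ‖z - phi1 w‖ := by
  have : psi1 z - w = ((10 ^ 20 : ℝ) : ℂ) * (z - phi1 w) := by
    nth_rw 1 [← psi1_phi1 w]
    unfold psi1; ring
  rw [this, norm_mul, Complex.norm_of_nonneg (by norm_num)]

lemma norm_psi2_sub (z w : ℂ) : ‖psi2 z - w‖ = 10 ^ 20 * ‖z - phi2 w‖ := by
  have : psi2 z - w = ((10 ^ 20 : ℝ) : ℂ) * mir (z - phi2 w) := by
    nth_rw 1 [← psi2_phi2 w]
    unfold psi2
    rw [mir_sub, mir_sub, mir_sub]; ring
  rw [this, norm_mul, norm_mir, Complex.norm_of_nonneg (by norm_num)]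

lemma isSim_psi1 : IsSim psi1 (10 ^ 20) := by
  have h := isSim_affine (((10 ^ 20 : ℝ) : ℂ)) (-((10 ^ 20 : ℝ) : ℂ)) (by norm_num)
  rw [Complex.norm_of_nonneg (by norm_num)] at h
  have : psi1 = fun w => (((10 ^ 20 : ℝ) : ℂ)) * w + (-((10 ^ 20 : ℝ) : ℂ)) := by
    ext w; unfold psi1; ring
  rw [this]; exact h

lemma isSim_psi2 : IsSim psi2 (10 ^ 20) := by
  have h1 := isSim_affine (1:ℂ) (-I) one_ne_zero
  have h2 := (isSim_conj).comp h1
  have h3 := isSim_affine (((10 ^ 20 : ℝ) : ℂ) * I) 0 (by simp)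
  have h4 := h3.comp h2
  have e : psi2 = fun w => ((10 ^ 20 : ℝ) : ℂ) * I * (starRingEnd ℂ) (1 * w + -I) + 0 := by
    ext w; unfold psi2 mir; rw [one_mul, ← sub_eq_add_neg]; ring
  rw [e]
  convert h4 using 1
  rw [norm_mul, norm_I, norm_one, Complex.norm_of_nonneg (by norm_num)]
  ring

lemma norm_one_sub_I : 1 ≤ ‖(1:ℂ) - I‖ := by
  have := re_le_norm ((1:ℂ) - I)
  simpa using this

lemma dist_tips (z : ℂ) : 1 ≤ ‖z - 1‖ + ‖z - I‖ := by
  have h := norm_sub_le (z - I) (z - 1)
  have h2 : (z - I) - (z - 1) = 1 - I := by ring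
  rw [h2] at h
  have := norm_one_sub_I
  linarith

/-! ### The data of one level -/

/-- Union of the closed discs. -/
def Bal (T : Finset ℂ) (r : ℝ) : Set ℂ := {z | ∃ c ∈ T, ‖z - c‖ ≤ r}

/-- Everything that is propagated by the recursion. -/
structure Lev (k : ℕ) (V : ℂ → ℝ) (Ω : Set ℂ) (T : Finset ℂ) (r om sg : ℝ) : Prop where
  cont : Continuous V
  nonneg : ∀ z, 0 ≤ V z
  far : ∀ z, 10 ^ 16 ≤ ‖z‖ → V z = 0
  le_one : ∀ z ∈ Bal T r, V z ≤ 1
  sub : ∀ z, z ∉ Bal T r → SubMeanAt V z
  zero : ∀ z, z ∉ Ω → z ∉ Bal T r → V z = 0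
  low : ∀ z, ‖z‖ = 10 ^ 8 → om * H z ≤ V z
  ballsub : ∀ z ∈ Bal T r, ‖z‖ ≤ 2
  isOpen : IsOpen Ω
  simply : IsSimplyConnected Ω
  bdd : ∀ z ∈ Ω, ‖z‖ < 10 ^ 16
  shape : ∀ z : ℂ, (2 < |z.re| ∨ 2 < |z.im|) →
    (z ∈ Ω ↔ ‖z‖ < 10 ^ 16 ∧ ¬(z.im = 0 ∧ z.re ≤ 0))
  disj : ∀ z ∈ Bal T r, z ∉ Ω
  card : T.card = 2 ^ k
  line : ∀ c ∈ T, c.re + c.im = sg
  sep : ∀ c ∈ T, ∀ c' ∈ T, c ≠ c' → 2 * r < ‖c - c'‖
  rpos : 0 < r
  rle : r ≤ 1
  ompos : 0 < om

/-! ### The level zero -/

/-- The potential of the half line with one disc. -/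
noncomputable def V0 (z : ℂ) : ℝ := H z * max 0 (1 / max ‖z‖ 1 - 1 / 10 ^ 16)

lemma level_zero : Lev 0 V0 {z : ℂ | 1 < ‖z‖ ∧ ‖z‖ < 10 ^ 16 ∧ z ∈ slitPlane} {0} 1
    (1 / 10 ^ 9) 0 where
  cont := by
    unfold V0
    apply continuous_H.mul
    apply continuous_const.max
    apply Continuous.sub _ continuous_const
    apply continuous_const.div (continuous_norm.max continuous_const)
    intro z
    have := le_max_right ‖z‖ 1
    positivity
  nonneg z := mul_nonneg (H_nonneg z) (le_max_left _ _)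
  far z hz := by
    unfold V0
    rw [max_eq_left, mul_zero]
    have h1 : max ‖z‖ 1 = ‖z‖ := max_eq_left (le_trans (by norm_num) hz)
    rw [h1]
    have : 1 / ‖z‖ ≤ 1 / 10 ^ 16 := one_div_le_one_div_of_le (by norm_num) hz
    linarith
  le_one z hz := by
    obtain ⟨c, hc, hz⟩ := hz
    rw [Finset.mem_singleton] at hc
    rw [hc, sub_zero] at hz
    unfold V0
    have h1 : H z ≤ 1 := by
      refine (H_le z).trans ?_
      rw [Real.sqrt_le_one]
      exact hz
    have h2 : max 0 (1 / max ‖z‖ 1 - 1 / 10 ^ 16) ≤ 1 := by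
      apply max_le (by norm_num)
      rw [max_eq_right hz]
      norm_num
    calc H z * max 0 (1 / max ‖z‖ 1 - 1 / 10 ^ 16) ≤ 1 * 1 :=
          mul_le_mul h1 h2 (le_max_left _ _) (by norm_num)
      _ = 1 := by norm_num
  sub z hz := by
    have hz1 : 1 < ‖z‖ := by
      by_contra hcon
      push Not at hcon
      exact hz ⟨0, by simp, by simpa using hcon⟩
    have hnn : ∀ w, 0 ≤ V0 w := fun w => mul_nonneg (H_nonneg w) (le_max_left _ _)
    rcases (hnn z).eq_or_lt with h0 | hpos
    · exact SubMeanAt.of_zero hnn h0.symm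
    · have hHpos : 0 < H z := by
        refine lt_of_le_of_ne (H_nonneg z) ?_
        intro h
        unfold V0 at hpos
        rw [← h, zero_mul] at hpos
        exact lt_irrefl _ hpos
      have hslit := mem_slitPlane_of_H hHpos
      set f : ℂ → ℂ := fun w => (csq w)⁻¹ - ((1 / 10 ^ 16 : ℝ) : ℂ) * csq w with hf
      have hre : ∀ w ∈ slitPlane, (f w).re = H w * (1 / ‖w‖ - 1 / 10 ^ 16) := by
        intro w hw
        have h1 := re_eq_H (csq_sq w) (csq_re_pos hw).le
        have h2 : normSq (csq w) = ‖w‖ := by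
          rw [← Complex.sq_norm, ← norm_pow, csq_sq]
        rw [hf]
        simp only [sub_re, inv_re, re_ofReal_mul]
        rw [h1, h2]; ring
      have hcs : ContinuousOn csq slitPlane := fun w hw =>
        (csq_differentiableAt hw).continuousAt.continuousWithinAt
      have hfd : ∀ w ∈ slitPlane, DifferentiableAt ℂ f w := by
        intro w hw
        have h1 := csq_differentiableAt hw
        have h2 : csq w ≠ 0 := by
          intro h
          have := csq_re_pos hw
          rw [h] at this; simp at this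
        exact (h1.inv h2).sub ((differentiableAt_const _).mul h1)
      have hev1 : ∀ᶠ w in 𝓝 z, w ∈ slitPlane := isOpen_slitPlane.mem_nhds hslit
      have hev2 : ∀ᶠ w in 𝓝 z, 1 < ‖w‖ := continuous_norm.continuousAt.eventually
        (Ioi_mem_nhds hz1)
      apply SubMeanAt.of_le (h := fun w => (f w).re)
      · unfold V0
        apply continuous_H.mul
        apply continuous_const.max
        apply Continuous.sub _ continuous_const
        apply continuous_const.div (continuous_norm.max continuous_const)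
        intro z
        have := le_max_right ‖z‖ 1
        positivity
      · filter_upwards [hev1] with w hw
        exact continuous_re.continuousAt.comp (hfd w hw).continuousAt
      · filter_upwards [hev1, hev2] with w hw hw2
        rw [hre w hw]
        unfold V0
        rw [max_eq_left hw2.le]
        exact mul_le_mul_of_nonneg_left (le_max_right _ _) (H_nonneg w)
      · rw [hre z hslit]
        unfold V0
        rw [max_eq_left hz1.le]
        unfold V0 at hpos
        rw [max_eq_left hz1.le] at hpos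
        rcases le_or_gt (1 / ‖z‖ - 1 / 10 ^ 16) 0 with h | h
        · rw [max_eq_left h, mul_zero] at hpos
          exact absurd hpos (lt_irrefl _)
        · rw [max_eq_right h.le]
      · exact SubMeanAt.of_holo (by filter_upwards [hev1] with w hw using hfd w hw)
  zero z hz1 hz2 := by
    have hz3 : 1 < ‖z‖ := by
      by_contra hcon
      push Not at hcon
      exact hz2 ⟨0, by simp, by simpa using hcon⟩
    unfold V0
    by_cases hs : z ∈ slitPlane
    · have h4 : 10 ^ 16 ≤ ‖z‖ := by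
        by_contra hcon
        push Not at hcon
        exact hz1 ⟨hz3, hcon, hs⟩
      rw [max_eq_left, mul_zero]
      rw [max_eq_left hz3.le]
      have : 1 / ‖z‖ ≤ 1 / 10 ^ 16 := one_div_le_one_div_of_le (by norm_num) h4
      linarith
    · have : H z = 0 := by
        by_contra hne
        exact hs (mem_slitPlane_of_H (lt_of_le_of_ne (H_nonneg z) (Ne.symm hne)))
      rw [this, zero_mul]
  low z hz := by
    unfold V0
    have h1 : max ‖z‖ 1 = 10 ^ 8 := by rw [hz]; norm_num
    rw [h1, mul_comm]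
    apply mul_le_mul_of_nonneg_left _ (H_nonneg z)
    refine le_trans ?_ (le_max_right _ _)
    norm_num
  ballsub z hz := by
    obtain ⟨c, hc, hz⟩ := hz
    rw [Finset.mem_singleton] at hc
    rw [hc, sub_zero] at hz
    linarith
  isOpen := (isOpen_lt continuous_const continuous_norm).inter
    ((isOpen_lt continuous_norm continuous_const).inter isOpen_slitPlane)
  simply := annulus_simply (by norm_num)
  bdd z hz := hz.2.1
  shape z hz := by
    have h1 : 1 < ‖z‖ := by
      rcases hz with h | h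
      · have := abs_re_le_norm z; linarith
      · have := abs_im_le_norm z; linarith
    constructor
    · rintro ⟨_, h2, h3⟩
      refine ⟨h2, ?_⟩
      rintro ⟨h4, h5⟩
      rw [mem_slitPlane_iff] at h3
      rcases h3 with h3 | h3
      · linarith
      · exact h3 h4
    · rintro ⟨h2, h3⟩
      refine ⟨h1, h2, ?_⟩
      rw [mem_slitPlane_iff]
      by_contra hcon
      push Not at hcon
      exact h3 ⟨hcon.2, hcon.1⟩
  disj z hz := by
    obtain ⟨c, hc, hz⟩ := hz
    rw [Finset.mem_singleton] at hc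
    rw [hc, sub_zero] at hz
    rintro ⟨h1, _⟩
    linarith
  card := by simp
  line c hc := by
    rw [Finset.mem_singleton] at hc
    simp [hc]
  sep c hc c' hc' hne := by
    rw [Finset.mem_singleton] at hc hc'
    exact absurd (hc.trans hc'.symm) hne
  rpos := one_pos
  rle := le_rfl
  ompos := by norm_num

end Pool.Agent.H209
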