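import Pool.Agent.H209.Level

set_option autoImplicit false

namespace Pool.Agent.H209

open Set Filter Topology Metric Complex

/-- The multiplier of the base potential. -/
noncomputable def lam (om : ℝ) : ℝ := om / (100.5 * be)

/-- The function used off the two small discs. -/
noncomputable def Wf (V : ℂ → ℝ) (om : ℝ) (z : ℂ) : ℝ :=
  max (lam om * SP z) (max (V (psi1 z)) (V (psi2 z)))

open Classical in
/-- The next potential. -/
noncomputable def Vn (V : ℂ → ℝ) (om : ℝ) (z : ℂ) : ℝ :=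
  if ‖z - 1‖ < 1 / 10 ^ 12 then V (psi1 z) else
    if ‖z - I‖ < 1 / 10 ^ 12 then V (psi2 z) else Wf V om z

/-- The next domain. -/
def On (Ω : Set ℂ) : Set ℂ :=
  Qs (2 / 10 ^ 20) (10 ^ 16) ∪ psi1 ⁻¹' Ω ∪ psi2 ⁻¹' Ω

open Classical in
/-- The next set of centres. -/
noncomputable def Tn (T : Finset ℂ) : Finset ℂ := T.image phi1 ∪ T.image phi2

lemma lam_pos {om : ℝ} (h : 0 < om) : 0 < lam om := by
  unfold lam; have := be_pos; positivity

section step

variable {k : ℕ} {V : ℂ → ℝ} {Ω : Set ℂ} {T : Finset ℂ} {r om sg : ℝ}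

lemma psi1_re (z : ℂ) : (psi1 z).re = 10 ^ 20 * (z.re - 1) := by
  unfold psi1; rw [re_ofReal_mul]; simp

lemma psi1_im (z : ℂ) : (psi1 z).im = 10 ^ 20 * z.im := by
  unfold psi1; rw [im_ofReal_mul]; simp

lemma psi2_re (z : ℂ) : (psi2 z).re = 10 ^ 20 * (z.im - 1) := by
  unfold psi2; rw [re_ofReal_mul, mir_re]; simp

lemma psi2_im (z : ℂ) : (psi2 z).im = 10 ^ 20 * z.re := by
  unfold psi2; rw [im_ofReal_mul, mir_im]; simp

lemma mem_Bal_iff {z : ℂ} : z ∈ Bal (Tn T) (r / 10 ^ 20) ↔ psi1 z ∈ Bal T r ∨ psi2 z ∈ Bal T r := by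
  classical
  unfold Bal Tn
  constructor
  · rintro ⟨c, hc, hz⟩
    rw [Finset.mem_union, Finset.mem_image, Finset.mem_image] at hc
    rcases hc with ⟨c', hc', rfl⟩ | ⟨c', hc', rfl⟩
    · left
      refine ⟨c', hc', ?_⟩
      rw [norm_psi1_sub]
      rw [le_div_iff₀ (by positivity)] at hz
      linarith
    · right
      refine ⟨c', hc', ?_⟩
      rw [norm_psi2_sub]
      rw [le_div_iff₀ (by positivity)] at hz
      linarith
  · rintro (⟨c, hc, hz⟩ | ⟨c, hc, hz⟩)
    · refine ⟨phi1 c, ?_, ?_⟩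
      · rw [Finset.mem_union, Finset.mem_image]; left; exact ⟨c, hc, rfl⟩
      · rw [norm_psi1_sub] at hz
        rw [le_div_iff₀ (by positivity)]
        linarith
    · refine ⟨phi2 c, ?_, ?_⟩
      · rw [Finset.mem_union, Finset.mem_image, Finset.mem_image]; right; exact ⟨c, hc, rfl⟩
      · rw [norm_psi2_sub] at hz
        rw [le_div_iff₀ (by positivity)]
        linarith

lemma far1 (h : Lev k V Ω T r om sg) {z : ℂ} (hz : 1 / 10 ^ 4 ≤ ‖z - 1‖) : V (psi1 z) = 0 := by
  apply h.far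
  rw [norm_psi1]
  calc (10:ℝ) ^ 16 = 10 ^ 20 * (1 / 10 ^ 4) := by norm_num
    _ ≤ _ := mul_le_mul_of_nonneg_left hz (by norm_num)

lemma far2 (h : Lev k V Ω T r om sg) {z : ℂ} (hz : 1 / 10 ^ 4 ≤ ‖z - I‖) : V (psi2 z) = 0 := by
  apply h.far
  rw [norm_psi2]
  calc (10:ℝ) ^ 16 = 10 ^ 20 * (1 / 10 ^ 4) := by norm_num
    _ ≤ _ := mul_le_mul_of_nonneg_left hz (by norm_num)

/-- On the circle around the tip `1` the base potential is dominated. -/
lemma dom1 (h : Lev k V Ω T r om sg) {z : ℂ} (hz : ‖z - 1‖ = 1 / 10 ^ 12) :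
    lam om * SP z ≤ V (psi1 z) := by
  have h1 := SP_circle1 (t := 1 / 10 ^ 12) (by norm_num) le_rfl hz
  have h2 := h.low (psi1 z) (by rw [norm_psi1, hz]; norm_num)
  have h3 : H (psi1 z) = 10 ^ 10 * H (z - 1) := by
    unfold psi1
    rw [H_smul (by norm_num)]
    congr 1
    rw [show (10:ℝ) ^ 20 = (10 ^ 10) ^ 2 by norm_num, Real.sqrt_sq (by norm_num)]
  rw [h3] at h2
  have hb := be_pos
  have hH := H_nonneg (z - 1)
  calc lam om * SP z ≤ lam om * (1.005 * be * H (z - 1) / (1 / 10 ^ 12)) :=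
        mul_le_mul_of_nonneg_left h1 (lam_pos h.ompos).le
    _ = om * (10 ^ 10 * H (z - 1)) := by
        unfold lam
        field_simp
        norm_num
        ring
    _ ≤ _ := h2

lemma dom2 (h : Lev k V Ω T r om sg) {z : ℂ} (hz : ‖z - I‖ = 1 / 10 ^ 12) :
    lam om * SP z ≤ V (psi2 z) := by
  have h1 := SP_circle2 (t := 1 / 10 ^ 12) (by norm_num) le_rfl hz
  have h2 := h.low (psi2 z) (by rw [norm_psi2, hz]; norm_num)
  have h3 : H (psi2 z) = 10 ^ 10 * H (mir (z - I)) := by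
    unfold psi2
    rw [H_smul (by norm_num)]
    congr 1
    rw [show (10:ℝ) ^ 20 = (10 ^ 10) ^ 2 by norm_num, Real.sqrt_sq (by norm_num)]
  rw [h3] at h2
  have hb := be_pos
  have hH := H_nonneg (mir (z - I))
  calc lam om * SP z ≤ lam om * (1.005 * be * H (mir (z - I)) / (1 / 10 ^ 12)) :=
        mul_le_mul_of_nonneg_left h1 (lam_pos h.ompos).le
    _ = om * (10 ^ 10 * H (mir (z - I))) := by
        unfold lam
        field_simp
        norm_num
        ring
    _ ≤ _ := h2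

lemma Vn_of_lt1 {z : ℂ} (hz : ‖z - 1‖ < 1 / 10 ^ 12) : Vn V om z = V (psi1 z) := by
  unfold Vn; rw [if_pos hz]

lemma Vn_of_lt2 {z : ℂ} (hz : ‖z - I‖ < 1 / 10 ^ 12) : Vn V om z = V (psi2 z) := by
  unfold Vn
  have := dist_tips z
  have h1 : ¬ ‖z - 1‖ < 1 / 10 ^ 12 := by
    intro h; norm_num at h hz; linarith
  rw [if_neg h1, if_pos hz]

lemma Vn_of_ge {z : ℂ} (h1 : 1 / 10 ^ 12 ≤ ‖z - 1‖) (h2 : 1 / 10 ^ 12 ≤ ‖z - I‖) :
    Vn V om z = Wf V om z := by
  unfold Vn
  rw [if_neg (not_lt.mpr h1), if_neg (not_lt.mpr h2)]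

lemma Wf_nonneg (h : Lev k V Ω T r om sg) (z : ℂ) : 0 ≤ Wf V om z :=
  (h.nonneg _).trans ((le_max_left (V (psi1 z)) (V (psi2 z))).trans (le_max_right _ _))

lemma Vn_nonneg (h : Lev k V Ω T r om sg) (z : ℂ) : 0 ≤ Vn V om z := by
  unfold Vn
  split_ifs
  · exact h.nonneg _
  · exact h.nonneg _
  · exact Wf_nonneg h z

lemma Wf_eq1 (h : Lev k V Ω T r om sg) {z : ℂ} (hz : ‖z - 1‖ = 1 / 10 ^ 12) :
    Wf V om z = V (psi1 z) := by
  have h1 := dist_tips z
  have h2 : V (psi2 z) = 0 := far2 h (by rw [hz] at h1; norm_num at h1 ⊢; linarith)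
  unfold Wf
  rw [h2, max_eq_left (h.nonneg (psi1 z)), max_eq_right (dom1 h hz)]

lemma Wf_eq2 (h : Lev k V Ω T r om sg) {z : ℂ} (hz : ‖z - I‖ = 1 / 10 ^ 12) :
    Wf V om z = V (psi2 z) := by
  have h1 := dist_tips z
  have h2 : V (psi1 z) = 0 := far1 h (by rw [hz] at h1; norm_num at h1 ⊢; linarith)
  unfold Wf
  rw [h2, max_eq_right (h.nonneg (psi2 z)), max_eq_right (dom2 h hz)]

lemma continuousAt_Wf (h : Lev k V Ω T r om sg) {z : ℂ} (h1 : z ≠ 1) (h2 : z ≠ I) :
    ContinuousAt (Wf V om) z := by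
  have hs := continuousAt_SP h1 h2
  have hc1 : Continuous (fun z => V (psi1 z)) := h.cont.comp continuous_psi1
  have hc2 : Continuous (fun z => V (psi2 z)) := h.cont.comp continuous_psi2
  have hc3 : ContinuousAt (fun z => lam om * SP z) z := continuousAt_const.mul hs
  have hm : Continuous (fun p : ℝ × ℝ => max p.1 p.2) := continuous_fst.max continuous_snd
  exact ContinuousAt.comp (g := fun p : ℝ × ℝ => max p.1 p.2) (f := fun z =>
    (lam om * SP z, max (V (psi1 z)) (V (psi2 z)))) hm.continuousAt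
    (hc3.prodMk (hc1.max hc2).continuousAt)

lemma Vn_continuous (h : Lev k V Ω T r om sg) : Continuous (Vn V om) := by
  rw [continuous_iff_continuousAt]
  intro z
  have hc1 : Continuous (fun z => V (psi1 z)) := h.cont.comp continuous_psi1
  have hc2 : Continuous (fun z => V (psi2 z)) := h.cont.comp continuous_psi2
  have hn1 : Continuous (fun z : ℂ => ‖z - 1‖) := by fun_prop
  have hn2 : Continuous (fun z : ℂ => ‖z - I‖) := by fun_prop
  have hd := dist_tips z
  rcases lt_trichotomy ‖z - 1‖ (1 / 10 ^ 12) with h1 | h1 | h1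
  · have hev : ∀ᶠ w in 𝓝 z, ‖w - 1‖ < 1 / 10 ^ 12 := hn1.continuousAt.eventually (Iio_mem_nhds h1)
    refine (hc1.continuousAt (x := z)).congr ?_
    filter_upwards [hev] with w hw
    exact (Vn_of_lt1 hw).symm
  · -- boundary circle around `1`
    have h2 : 1 / 10 ^ 12 < ‖z - I‖ := by rw [h1] at hd; norm_num at hd ⊢; linarith
    have hev : ∀ᶠ w in 𝓝 z, 1 / 10 ^ 12 < ‖w - I‖ :=
      hn2.continuousAt.eventually (Ioi_mem_nhds h2)
    have hz1 : z ≠ 1 := by
      rintro rfl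
      rw [sub_self, norm_zero] at h1
      norm_num at h1
    have hz2 : z ≠ I := by
      rintro rfl
      rw [sub_self, norm_zero] at h2
      norm_num at h2
    have hW := continuousAt_Wf h hz1 hz2
    have hval : Vn V om z = V (psi1 z) := by
      rw [Vn_of_ge h1.ge h2.le, Wf_eq1 h h1]
    unfold ContinuousAt
    rw [hval]
    have hW' : Tendsto (Wf V om) (𝓝 z) (𝓝 (V (psi1 z))) := by
      rw [← Wf_eq1 h h1]; exact hW
    have hV' : Tendsto (fun z => V (psi1 z)) (𝓝 z) (𝓝 (V (psi1 z))) := hc1.continuousAt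
    classical
    have := Filter.Tendsto.if' (p := fun w : ℂ => ‖w - 1‖ < 1 / 10 ^ 12) hV' hW'
    refine this.congr' ?_
    filter_upwards [hev] with w hw
    unfold Vn
    by_cases hc : ‖w - 1‖ < 1 / 10 ^ 12
    · rw [if_pos hc, if_pos hc]
    · rw [if_neg hc, if_neg hc, if_neg (not_lt.mpr hw.le)]
  · have hev1 : ∀ᶠ w in 𝓝 z, 1 / 10 ^ 12 < ‖w - 1‖ :=
      hn1.continuousAt.eventually (Ioi_mem_nhds h1)
    have hz1 : z ≠ 1 := by
      rintro rfl
      rw [sub_self, norm_zero] at h1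
      norm_num at h1
    rcases lt_trichotomy ‖z - I‖ (1 / 10 ^ 12) with h2 | h2 | h2
    · have hev : ∀ᶠ w in 𝓝 z, ‖w - I‖ < 1 / 10 ^ 12 :=
        hn2.continuousAt.eventually (Iio_mem_nhds h2)
      refine (hc2.continuousAt (x := z)).congr ?_
      filter_upwards [hev] with w hw
      exact (Vn_of_lt2 hw).symm
    · have hz2 : z ≠ I := by
        rintro rfl
        rw [sub_self, norm_zero] at h2
        norm_num at h2
      have hW := continuousAt_Wf h hz1 hz2
      have hval : Vn V om z = V (psi2 z) := by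
        rw [Vn_of_ge h1.le h2.ge, Wf_eq2 h h2]
      unfold ContinuousAt
      rw [hval]
      have hW' : Tendsto (Wf V om) (𝓝 z) (𝓝 (V (psi2 z))) := by
        rw [← Wf_eq2 h h2]; exact hW
      have hV' : Tendsto (fun z => V (psi2 z)) (𝓝 z) (𝓝 (V (psi2 z))) := hc2.continuousAt
      classical
      have := Filter.Tendsto.if' (p := fun w : ℂ => ‖w - I‖ < 1 / 10 ^ 12) hV' hW'
      refine this.congr' ?_
      filter_upwards [hev1] with w hw
      unfold Vn
      rw [if_neg (not_lt.mpr hw.le)]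
    · have hz2 : z ≠ I := by
        rintro rfl
        rw [sub_self, norm_zero] at h2
        norm_num at h2
      have hev2 : ∀ᶠ w in 𝓝 z, 1 / 10 ^ 12 < ‖w - I‖ :=
        hn2.continuousAt.eventually (Ioi_mem_nhds h2)
      refine (continuousAt_Wf (om := om) h hz1 hz2).congr ?_
      filter_upwards [hev1, hev2] with w hw1 hw2
      exact (Vn_of_ge hw1.le hw2.le).symm

/-- The new potential dominates both copies of the old one. -/
lemma le_Vn1 (h : Lev k V Ω T r om sg) (w : ℂ) : V (psi1 w) ≤ Vn V om w := by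
  by_cases h1 : ‖w - 1‖ < 1 / 10 ^ 12
  · rw [Vn_of_lt1 h1]
  · push Not at h1
    by_cases h2 : ‖w - I‖ < 1 / 10 ^ 12
    · have hd := dist_tips w
      rw [far1 h (by norm_num at h2 ⊢; linarith)]
      exact Vn_nonneg h w
    · push Not at h2
      rw [Vn_of_ge h1 h2]
      exact (le_max_left _ _).trans (le_max_right _ _)

lemma le_Vn2 (h : Lev k V Ω T r om sg) (w : ℂ) : V (psi2 w) ≤ Vn V om w := by
  by_cases h2 : ‖w - I‖ < 1 / 10 ^ 12
  · rw [Vn_of_lt2 h2]
  · push Not at h2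
    by_cases h1 : ‖w - 1‖ < 1 / 10 ^ 12
    · have hd := dist_tips w
      rw [far2 h (by norm_num at h1 ⊢; linarith)]
      exact Vn_nonneg h w
    · push Not at h1
      rw [Vn_of_ge h1 h2]
      exact (le_max_right _ _).trans (le_max_right _ _)

lemma Vn_sub (h : Lev k V Ω T r om sg) {z : ℂ} (hz : z ∉ Bal (Tn T) (r / 10 ^ 20)) :
    SubMeanAt (Vn V om) z := by
  rw [mem_Bal_iff, not_or] at hz
  have hcont := Vn_continuous h
  have hc1 : Continuous (fun z => V (psi1 z)) := h.cont.comp continuous_psi1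
  have hc2 : Continuous (fun z => V (psi2 z)) := h.cont.comp continuous_psi2
  have hs1 : SubMeanAt (fun w => V (psi1 w)) z := SubMeanAt.comp_sim isSim_psi1 (h.sub _ hz.1)
  have hs2 : SubMeanAt (fun w => V (psi2 w)) z := SubMeanAt.comp_sim isSim_psi2 (h.sub _ hz.2)
  have case1 : Vn V om z ≤ V (psi1 z) → SubMeanAt (Vn V om) z := fun hle =>
    SubMeanAt.of_le hcont (Eventually.of_forall fun w => hc1.continuousAt)
      (Eventually.of_forall fun w => le_Vn1 h w) hle hs1
  have case2 : Vn V om z ≤ V (psi2 z) → SubMeanAt (Vn V om) z := fun hle =>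
    SubMeanAt.of_le hcont (Eventually.of_forall fun w => hc2.continuousAt)
      (Eventually.of_forall fun w => le_Vn2 h w) hle hs2
  by_cases h1 : ‖z - 1‖ < 1 / 10 ^ 12
  · exact case1 (Vn_of_lt1 h1).le
  by_cases h2 : ‖z - I‖ < 1 / 10 ^ 12
  · exact case2 (Vn_of_lt2 h2).le
  push Not at h1 h2
  have hval : Vn V om z = Wf V om z := Vn_of_ge h1 h2
  by_cases c1 : Vn V om z ≤ V (psi1 z)
  · exact case1 c1
  by_cases c2 : Vn V om z ≤ V (psi2 z)
  · exact case2 c2
  push Not at c1 c2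
  have hval2 : Vn V om z = lam om * SP z := by
    rw [hval] at c1 c2 ⊢
    unfold Wf at c1 c2 ⊢
    rw [max_eq_left]
    by_contra hcon
    push Not at hcon
    rw [max_eq_right hcon.le] at c1 c2
    rcases max_cases (V (psi1 z)) (V (psi2 z)) with ⟨h3, _⟩ | ⟨h3, _⟩
    · rw [h3] at c1; exact lt_irrefl _ c1
    · rw [h3] at c2; exact lt_irrefl _ c2
  rcases (Vn_nonneg (om := om) h z).eq_or_lt with h0 | hpos
  · exact SubMeanAt.of_zero (Vn_nonneg h) h0.symm
  have hlam := lam_pos h.ompos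
  have hSP : 0 < SP z := by
    rw [hval2] at hpos
    exact pos_of_mul_pos_right hpos hlam.le
  have hK := notMem_of_SP_pos hSP
  have hSPv : SP z = (F z).re := by
    rw [SP_of_notMem hK] at hSP ⊢
    rcases le_or_gt (F z).re 0 with h3 | h3
    · rw [max_eq_left h3] at hSP; exact absurd hSP (lt_irrefl _)
    · exact max_eq_right h3.le
  have h1' : 1 / 10 ^ 12 < ‖z - 1‖ := by
    refine lt_of_le_of_ne h1 ?_
    intro h3
    rw [hval2] at c1
    exact absurd (dom1 h h3.symm) (not_le.mpr c1)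
  have h2' : 1 / 10 ^ 12 < ‖z - I‖ := by
    refine lt_of_le_of_ne h2 ?_
    intro h3
    rw [hval2] at c2
    exact absurd (dom2 h h3.symm) (not_le.mpr c2)
  have hn1 : Continuous (fun z : ℂ => ‖z - 1‖) := by fun_prop
  have hn2 : Continuous (fun z : ℂ => ‖z - I‖) := by fun_prop
  have hev1 : ∀ᶠ w in 𝓝 z, 1 / 10 ^ 12 < ‖w - 1‖ :=
      hn1.continuousAt.eventually (Ioi_mem_nhds h1')
  have hev2 : ∀ᶠ w in 𝓝 z, 1 / 10 ^ 12 < ‖w - I‖ :=
      hn2.continuousAt.eventually (Ioi_mem_nhds h2')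
  have hev3 : ∀ᶠ w in 𝓝 z, w ∉ Kb := isOpen_Kbc.mem_nhds hK
  have hre : ∀ w, (((lam om : ℝ) : ℂ) * F w).re = lam om * (F w).re := fun w => re_ofReal_mul _ _
  apply SubMeanAt.of_le (h := fun w => (((lam om : ℝ) : ℂ) * F w).re) hcont
  · filter_upwards [hev3] with w hw
    exact continuous_re.continuousAt.comp
      (continuousAt_const.mul (F_differentiableAt hw).continuousAt)
  · filter_upwards [hev1, hev2, hev3] with w hw1 hw2 hw3
    rw [hre, Vn_of_ge hw1.le hw2.le]
    refine le_trans ?_ (le_max_left _ _)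
    rw [SP_of_notMem hw3]
    exact mul_le_mul_of_nonneg_left (le_max_right _ _) hlam.le
  · rw [hre, hval2, hSPv]
  · apply SubMeanAt.of_holo
    filter_upwards [hev3] with w hw
    exact (differentiableAt_const _).mul (F_differentiableAt hw)

end step

end Pool.Agent.H209
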