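import Pool.Agent.H209.Level2

set_option autoImplicit false

namespace Pool.Agent.H209

open Set Filter Topology Metric Complex

section step

variable {k : ℕ} {V : ℂ → ℝ} {Ω : Set ℂ} {T : Finset ℂ} {r om sg : ℝ}

lemma near1 {z : ℂ} (h : ‖psi1 z‖ < 10 ^ 16) : ‖z - 1‖ < 1 / 10 ^ 4 := by
  rw [norm_psi1] at h
  norm_num at h ⊢
  linarith

lemma near2 {z : ℂ} (h : ‖psi2 z‖ < 10 ^ 16) : ‖z - I‖ < 1 / 10 ^ 4 := by
  rw [norm_psi2] at h
  norm_num at h ⊢
  linarith

lemma near1_re_im {z : ℂ} {e : ℝ} (h : ‖z - 1‖ < e) :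
    1 - e < z.re ∧ z.re < 1 + e ∧ -e < z.im ∧ z.im < e := by
  have h1 := abs_re_le_norm (z - 1)
  have h2 := abs_im_le_norm (z - 1)
  rw [sub_re, one_re, abs_le] at h1
  rw [sub_im, one_im, sub_zero, abs_le] at h2
  refine ⟨?_, ?_, ?_, ?_⟩ <;> linarith [h1.1, h1.2, h2.1, h2.2]

lemma near2_re_im {z : ℂ} {e : ℝ} (h : ‖z - I‖ < e) :
    -e < z.re ∧ z.re < e ∧ 1 - e < z.im ∧ z.im < 1 + e := by
  have h1 := abs_re_le_norm (z - I)
  have h2 := abs_im_le_norm (z - I)
  rw [sub_re, I_re, sub_zero, abs_le] at h1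
  rw [sub_im, I_im, abs_le] at h2
  refine ⟨?_, ?_, ?_, ?_⟩ <;> linarith [h1.1, h1.2, h2.1, h2.2]

lemma abs_psi1_re (z : ℂ) : |(psi1 z).re| = 10 ^ 20 * |z.re - 1| := by
  rw [psi1_re, abs_mul, abs_of_pos (by norm_num)]
lemma abs_psi1_im (z : ℂ) : |(psi1 z).im| = 10 ^ 20 * |z.im| := by
  rw [psi1_im, abs_mul, abs_of_pos (by norm_num)]
lemma abs_psi2_re (z : ℂ) : |(psi2 z).re| = 10 ^ 20 * |z.im - 1| := by
  rw [psi2_re, abs_mul, abs_of_pos (by norm_num)]
lemma abs_psi2_im (z : ℂ) : |(psi2 z).im| = 10 ^ 20 * |z.re| := by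
  rw [psi2_im, abs_mul, abs_of_pos (by norm_num)]

lemma inter1 (h : Lev k V Ω T r om sg) :
    Qs (2 / 10 ^ 20) (10 ^ 16) ∩ psi1 ⁻¹' Ω = psi1 ⁻¹' (SA (10 ^ 16)) := by
  ext z
  constructor
  · rintro ⟨⟨h1, h2, h3, h4⟩, h5⟩
    refine ⟨h.bdd _ h5, ?_, ?_⟩
    · rw [abs_psi1_re, abs_psi1_im]
      by_contra hcon
      push Not at hcon
      apply h3
      norm_num at hcon ⊢
      constructor <;> linarith [hcon.1, hcon.2]
    · rw [psi1_im, psi1_re]
      rintro ⟨h6, h7⟩
      apply h2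
      left
      norm_num at h6 h7 ⊢
      exact ⟨h6, by linarith⟩
  · intro hz
    have hz' : psi1 z ∈ SA (10 ^ 16) := hz
    obtain ⟨h1, h2, h3⟩ := hz'
    have hn := near1 h1
    obtain ⟨g1, g2, g3, g4⟩ := near1_re_im hn
    norm_num at g1 g2 g3 g4
    refine ⟨⟨?_, ?_, ?_, ?_⟩, (h.shape _ h2).mpr ⟨h1, h3⟩⟩
    · have := norm_add_le (z - 1) 1
      rw [sub_add_cancel, norm_one] at this
      norm_num at hn ⊢
      linarith
    · rintro (⟨h4, h5⟩ | ⟨h4, h5⟩)
      · apply h3
        rw [psi1_im, psi1_re, h4]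
        norm_num
        linarith
      · linarith
    · rintro ⟨h4, h5⟩
      rw [abs_psi1_re, abs_psi1_im] at h2
      norm_num at h2 h4 h5
      rcases h2 with h2 | h2 <;> linarith
    · rintro ⟨h4, h5⟩
      rw [abs_le] at h4
      norm_num at h4
      linarith [h4.1, h4.2]

lemma inter2 (h : Lev k V Ω T r om sg) :
    (Qs (2 / 10 ^ 20) (10 ^ 16) ∪ psi1 ⁻¹' Ω) ∩ psi2 ⁻¹' Ω = psi2 ⁻¹' (SA (10 ^ 16)) := by
  ext z
  constructor
  · rintro ⟨h0 | h0, h5⟩
    · obtain ⟨h1, h2, h3, h4⟩ := h0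
      have hn := near2 (h.bdd _ h5)
      obtain ⟨g1, g2, g3, g4⟩ := near2_re_im hn
      norm_num at g1 g2 g3 g4
      refine ⟨h.bdd _ h5, ?_, ?_⟩
      · rw [abs_psi2_re, abs_psi2_im]
        by_contra hcon
        push Not at hcon
        apply h4
        norm_num at hcon ⊢
        constructor <;> linarith [hcon.1, hcon.2]
      · rw [psi2_im, psi2_re]
        rintro ⟨h6, h7⟩
        apply h2
        right
        norm_num at h6 h7 ⊢
        refine ⟨h6, ?_⟩
        rw [abs_le]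
        constructor <;> linarith
    · exfalso
      have h1 := near1 (h.bdd _ h0)
      have h2 := near2 (h.bdd _ h5)
      have h3 := dist_tips z
      norm_num at h1 h2
      linarith
  · intro hz
    have hz' : psi2 z ∈ SA (10 ^ 16) := hz
    obtain ⟨h1, h2, h3⟩ := hz'
    have hn := near2 h1
    obtain ⟨g1, g2, g3, g4⟩ := near2_re_im hn
    norm_num at g1 g2 g3 g4
    refine ⟨Or.inl ⟨?_, ?_, ?_, ?_⟩, (h.shape _ h2).mpr ⟨h1, h3⟩⟩
    · have := norm_add_le (z - I) I
      rw [sub_add_cancel, norm_I] at this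
      norm_num at hn ⊢
      linarith
    · rintro (⟨h4, h5⟩ | ⟨h4, h5⟩)
      · linarith
      · apply h3
        rw [abs_le] at h5
        rw [psi2_im, psi2_re, h4]
        norm_num
        linarith [h5.2]
    · rintro ⟨h4, h5⟩
      rw [abs_le] at h5
      norm_num at h5
      linarith [h5.1, h5.2]
    · rintro ⟨h4, h5⟩
      rw [abs_psi2_re, abs_psi2_im] at h2
      norm_num at h2 h4 h5
      rcases h2 with h2 | h2 <;> linarith

lemma On_simply (h : Lev k V Ω T r om sg) : IsOpen (On Ω) ∧ IsSimplyConnected (On Ω) := by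
  have hQ := isOpen_Qs (2 / 10 ^ 20) (10 ^ 16)
  have hQs : IsSimplyConnected (Qs (2 / 10 ^ 20) (10 ^ 16)) :=
    Qs_simply (by norm_num) (by norm_num) (by norm_num)
  have hSA : IsPathConnected (SA (10 ^ 16)) := SA_pathConnected (by norm_num)
  have o1 : IsOpen (psi1 ⁻¹' Ω) := h.isOpen.preimage continuous_psi1
  have o2 : IsOpen (psi2 ⁻¹' Ω) := h.isOpen.preimage continuous_psi2
  have c1 : IsSimplyConnected (psi1 ⁻¹' Ω) := (hom1.isSimplyConnected_preimage).mpr h.simply
  have c2 : IsSimplyConnected (psi2 ⁻¹' Ω) := (hom2.isSimplyConnected_preimage).mpr h.simply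
  have p1 : IsPathConnected (psi1 ⁻¹' (SA (10 ^ 16))) :=
    (hom1.isPathConnected_preimage).mpr hSA
  have p2 : IsPathConnected (psi2 ⁻¹' (SA (10 ^ 16))) :=
    (hom2.isPathConnected_preimage).mpr hSA
  have u1 : IsSimplyConnected (Qs (2 / 10 ^ 20) (10 ^ 16) ∪ psi1 ⁻¹' Ω) :=
    Glue.IsSimplyConnected.union hQ o1 hQs c1 (by rw [inter1 h]; exact p1)
  refine ⟨(hQ.union o1).union o2, ?_⟩
  exact Glue.IsSimplyConnected.union (hQ.union o1) o2 u1 c2 (by rw [inter2 h]; exact p2)

lemma norm_le_of_mem (h : Lev k V Ω T r om sg) {c : ℂ} (hc : c ∈ T) : ‖c‖ ≤ 2 :=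
  h.ballsub c ⟨c, hc, by rw [sub_self, norm_zero]; exact h.rpos.le⟩

lemma phi1_sub (a b : ℂ) : ‖phi1 a - phi1 b‖ = ‖a - b‖ / 10 ^ 20 := by
  have : phi1 a - phi1 b = ((1 / 10 ^ 20 : ℝ) : ℂ) * (a - b) := by unfold phi1; ring
  rw [this, norm_mul, Complex.norm_of_nonneg (by norm_num)]
  ring

lemma phi2_sub (a b : ℂ) : ‖phi2 a - phi2 b‖ = ‖a - b‖ / 10 ^ 20 := by
  have : phi2 a - phi2 b = ((1 / 10 ^ 20 : ℝ) : ℂ) * (mir (a - b)) := by
    unfold phi2; rw [mir_sub]; ring
  rw [this, norm_mul, norm_mir, Complex.norm_of_nonneg (by norm_num)]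
  ring

lemma phi12_sub {a b : ℂ} (ha : ‖a‖ ≤ 2) (hb : ‖b‖ ≤ 2) : 9 / 10 ≤ ‖phi1 a - phi2 b‖ := by
  have h1 : ‖phi1 a - 1‖ ≤ 2 / 10 ^ 20 := by
    have : phi1 a - 1 = ((1 / 10 ^ 20 : ℝ) : ℂ) * a := by unfold phi1; ring
    rw [this, norm_mul, Complex.norm_of_nonneg (by norm_num)]
    norm_num
    linarith
  have h2 : ‖phi2 b - I‖ ≤ 2 / 10 ^ 20 := by
    have : phi2 b - I = ((1 / 10 ^ 20 : ℝ) : ℂ) * mir b := by unfold phi2; ring
    rw [this, norm_mul, norm_mir, Complex.norm_of_nonneg (by norm_num)]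
    norm_num
    linarith
  have h3 := norm_one_sub_I
  have h4 : (1:ℂ) - I = (phi1 a - phi2 b) + ((phi2 b - I) - (phi1 a - 1)) := by ring
  have h5 := norm_add_le (phi1 a - phi2 b) ((phi2 b - I) - (phi1 a - 1))
  rw [← h4] at h5
  have h6 := norm_sub_le (phi2 b - I) (phi1 a - 1)
  norm_num at h1 h2 ⊢
  linarith

lemma mem_Tn {c : ℂ} : c ∈ Tn T ↔ (∃ a ∈ T, phi1 a = c) ∨ (∃ a ∈ T, phi2 a = c) := by
  classical
  unfold Tn
  rw [Finset.mem_union, Finset.mem_image, Finset.mem_image]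

lemma close_of_ball1 (h : Lev k V Ω T r om sg) {z : ℂ} (hz : psi1 z ∈ Bal T r) :
    ‖z - 1‖ ≤ 2 / 10 ^ 20 := by
  have h1 := h.ballsub _ hz
  rw [norm_psi1] at h1
  rw [le_div_iff₀ (by norm_num)]
  linarith

lemma close_of_ball2 (h : Lev k V Ω T r om sg) {z : ℂ} (hz : psi2 z ∈ Bal T r) :
    ‖z - I‖ ≤ 2 / 10 ^ 20 := by
  have h1 := h.ballsub _ hz
  rw [norm_psi2] at h1
  rw [le_div_iff₀ (by norm_num)]
  linarith

theorem level_succ (h : Lev k V Ω T r om sg) :
    Lev (k + 1) (Vn V om) (On Ω) (Tn T) (r / 10 ^ 20) (om * (1.42 / 10 ^ 10))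
      (1 + sg / 10 ^ 20) where
  cont := Vn_continuous h
  nonneg := Vn_nonneg h
  far z hz := by
    have h1 : 1 / 10 ^ 4 ≤ ‖z - 1‖ := by
      have := norm_sub_norm_le z 1
      rw [norm_one] at this
      norm_num at hz ⊢
      linarith
    have h2 : 1 / 10 ^ 4 ≤ ‖z - I‖ := by
      have := norm_sub_norm_le z I
      rw [norm_I] at this
      norm_num at hz ⊢
      linarith
    rw [Vn_of_ge (by norm_num at h1 ⊢; linarith) (by norm_num at h2 ⊢; linarith)]
    unfold Wf
    rw [far1 h h1, far2 h h2, SP_far hz]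
    simp
  le_one z hz := by
    rw [mem_Bal_iff] at hz
    rcases hz with hz | hz
    · rw [Vn_of_lt1]
      · exact h.le_one _ hz
      · have := close_of_ball1 h hz
        norm_num at this ⊢
        linarith
    · rw [Vn_of_lt2]
      · exact h.le_one _ hz
      · have := close_of_ball2 h hz
        norm_num at this ⊢
        linarith
  sub z hz := Vn_sub h hz
  zero z hz1 hz2 := by
    rw [mem_Bal_iff, not_or] at hz2
    have hz3 : z ∉ Qs (2 / 10 ^ 20) (10 ^ 16) := fun h' => hz1 (Or.inl (Or.inl h'))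
    have hz4 : psi1 z ∉ Ω := fun h' => hz1 (Or.inl (Or.inr h'))
    have hz5 : psi2 z ∉ Ω := fun h' => hz1 (Or.inr h')
    have v1 := h.zero _ hz4 hz2.1
    have v2 := h.zero _ hz5 hz2.2
    by_cases h1 : ‖z - 1‖ < 1 / 10 ^ 12
    · rw [Vn_of_lt1 h1, v1]
    by_cases h2 : ‖z - I‖ < 1 / 10 ^ 12
    · rw [Vn_of_lt2 h2, v2]
    push Not at h1 h2
    rw [Vn_of_ge h1 h2]
    unfold Wf
    rw [v1, v2]
    have hSP : SP z = 0 := by
      by_contra hne
      have hpos : 0 < SP z := lt_of_le_of_ne (SP_nonneg z) (Ne.symm hne)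
      apply hz3
      refine ⟨?_, notMem_of_SP_pos hpos, ?_, ?_⟩
      · by_contra hcon
        push Not at hcon
        exact hne (SP_far hcon)
      · rintro ⟨h3, h4⟩
        have h5 := norm_le_abs_re_add_abs_im (z - 1)
        rw [sub_re, one_re, sub_im, one_im, sub_zero] at h5
        norm_num at h1 h3 h4 h5
        linarith
      · rintro ⟨h3, h4⟩
        have h5 := norm_le_abs_re_add_abs_im (z - I)
        rw [sub_re, I_re, sub_im, I_im, sub_zero] at h5
        norm_num at h2 h3 h4 h5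
        linarith
    rw [hSP]
    simp
  low z hz := by
    have h1 : 1 / 10 ^ 12 ≤ ‖z - 1‖ := by
      have := norm_sub_norm_le z 1
      rw [norm_one, hz] at this
      norm_num at this ⊢
      linarith
    have h2 : 1 / 10 ^ 12 ≤ ‖z - I‖ := by
      have := norm_sub_norm_le z I
      rw [norm_I, hz] at this
      norm_num at this ⊢
      linarith
    rw [Vn_of_ge h1 h2]
    refine le_trans ?_ (le_max_left _ _)
    have h3 := SP_outer hz
    have hlam := lam_pos h.ompos
    refine le_trans ?_ (mul_le_mul_of_nonneg_left h3 hlam.le)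
    have hH := H_nonneg z
    have hb := be_pos
    have hb2 := be_lt
    have h4 : om * (1.42 / 10 ^ 10) ≤ lam om * (1.706 / 10 ^ 8) := by
      unfold lam
      rw [div_mul_eq_mul_div, le_div_iff₀ (by positivity)]
      have : (1.42 / 10 ^ 10) * (100.5 * be) ≤ 1.706 / 10 ^ 8 := by
        norm_num at hb2 ⊢
        linarith
      calc om * (1.42 / 10 ^ 10) * (100.5 * be) = om * ((1.42 / 10 ^ 10) * (100.5 * be)) := by ring
        _ ≤ om * (1.706 / 10 ^ 8) := mul_le_mul_of_nonneg_left this h.ompos.le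
    calc om * (1.42 / 10 ^ 10) * H z ≤ lam om * (1.706 / 10 ^ 8) * H z :=
          mul_le_mul_of_nonneg_right h4 hH
      _ = _ := by ring
  ballsub z hz := by
    rw [mem_Bal_iff] at hz
    rcases hz with hz | hz
    · have h1 := close_of_ball1 h hz
      have := norm_add_le (z - 1) 1
      rw [sub_add_cancel, norm_one] at this
      norm_num at h1
      linarith
    · have h1 := close_of_ball2 h hz
      have := norm_add_le (z - I) I
      rw [sub_add_cancel, norm_I] at this
      norm_num at h1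
      linarith
  isOpen := (On_simply h).1
  simply := (On_simply h).2
  bdd z hz := by
    rcases hz with (hz | hz) | hz
    · exact hz.1
    · have h1 := near1 (h.bdd _ hz)
      have := norm_add_le (z - 1) 1
      rw [sub_add_cancel, norm_one] at this
      norm_num at h1 ⊢
      linarith
    · have h1 := near2 (h.bdd _ hz)
      have := norm_add_le (z - I) I
      rw [sub_add_cancel, norm_I] at this
      norm_num at h1 ⊢
      linarith
  shape z hz := by
    rw [lt_abs, lt_abs] at hz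
    constructor
    · rintro ((h1 | h1) | h1)
      · refine ⟨h1.1, ?_⟩
        rintro ⟨h2, h3⟩
        exact h1.2.1 (Or.inl ⟨h2, by linarith⟩)
      · exfalso
        obtain ⟨g1, g2, g3, g4⟩ := near1_re_im (near1 (h.bdd _ h1))
        norm_num at g1 g2 g3 g4
        rcases hz with (h | h) | (h | h) <;> linarith
      · exfalso
        obtain ⟨g1, g2, g3, g4⟩ := near2_re_im (near2 (h.bdd _ h1))
        norm_num at g1 g2 g3 g4
        rcases hz with (h | h) | (h | h) <;> linarith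
    · rintro ⟨h1, h2⟩
      refine Or.inl (Or.inl ⟨h1, ?_, ?_, ?_⟩)
      · rintro (⟨h3, h4⟩ | ⟨h3, h4⟩)
        · have h5 : 0 < z.re := by
            by_contra hcon
            push Not at hcon
            exact h2 ⟨h3, hcon⟩
          rcases hz with (h | h) | (h | h) <;> linarith
        · rw [abs_le] at h4
          obtain ⟨h4, h5⟩ := h4
          rcases hz with (h | h) | (h | h) <;> linarith
      · rintro ⟨h3, h4⟩
        rw [abs_le] at h3 h4
        norm_num at h3 h4
        obtain ⟨h31, h32⟩ := h3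
        obtain ⟨h41, h42⟩ := h4
        rcases hz with (h | h) | (h | h) <;> linarith
      · rintro ⟨h3, h4⟩
        rw [abs_le] at h3 h4
        norm_num at h3 h4
        obtain ⟨h31, h32⟩ := h3
        obtain ⟨h41, h42⟩ := h4
        rcases hz with (h | h) | (h | h) <;> linarith
  disj z hz := by
    rw [mem_Bal_iff] at hz
    have hd := dist_tips z
    rcases hz with hz | hz
    · have h1 := close_of_ball1 h hz
      rintro ((h2 | h2) | h2)
      · apply h2.2.2.1
        have h3 := abs_re_le_norm (z - 1)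
        have h4 := abs_im_le_norm (z - 1)
        rw [sub_re, one_re] at h3
        rw [sub_im, one_im, sub_zero] at h4
        exact ⟨h3.trans h1, h4.trans h1⟩
      · exact h.disj _ hz h2
      · have := near2 (h.bdd _ h2)
        norm_num at this h1
        linarith
    · have h1 := close_of_ball2 h hz
      rintro ((h2 | h2) | h2)
      · apply h2.2.2.2
        have h3 := abs_re_le_norm (z - I)
        have h4 := abs_im_le_norm (z - I)
        rw [sub_re, I_re, sub_zero] at h3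
        rw [sub_im, I_im] at h4
        exact ⟨h3.trans h1, h4.trans h1⟩
      · have := near1 (h.bdd _ h2)
        norm_num at this h1
        linarith
      · exact h.disj _ hz h2
  card := by
    classical
    unfold Tn
    rw [Finset.card_union_of_disjoint, Finset.card_image_of_injective,
      Finset.card_image_of_injective, h.card, pow_succ]
    · ring
    · exact fun a b hab => by
        have := congrArg psi2 hab
        rwa [psi2_phi2, psi2_phi2] at this
    · exact fun a b hab => by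
        have := congrArg psi1 hab
        rwa [psi1_phi1, psi1_phi1] at this
    · rw [Finset.disjoint_left]
      intro c hc1 hc2
      rw [Finset.mem_image] at hc1 hc2
      obtain ⟨a, ha, rfl⟩ := hc1
      obtain ⟨b, hb, hab⟩ := hc2
      have := phi12_sub (norm_le_of_mem h ha) (norm_le_of_mem h hb)
      rw [← hab, sub_self, norm_zero] at this
      norm_num at this
  line c hc := by
    rw [mem_Tn] at hc
    rcases hc with ⟨a, ha, rfl⟩ | ⟨a, ha, rfl⟩
    · have := h.line a ha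
      have e1 : (phi1 a).re = 1 + 1 / 10 ^ 20 * a.re := by
        unfold phi1; rw [add_re, re_ofReal_mul, one_re]
      have e2 : (phi1 a).im = 1 / 10 ^ 20 * a.im := by
        unfold phi1; rw [add_im, im_ofReal_mul, one_im, zero_add]
      rw [e1, e2, ← this]; ring
    · have := h.line a ha
      have e1 : (phi2 a).re = 1 / 10 ^ 20 * a.im := by
        unfold phi2; rw [add_re, re_ofReal_mul, I_re, mir_re, zero_add]
      have e2 : (phi2 a).im = 1 + 1 / 10 ^ 20 * a.re := by
        unfold phi2; rw [add_im, im_ofReal_mul, I_im, mir_im]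
      rw [e1, e2, ← this]; ring
  sep c hc c' hc' hne := by
    rw [mem_Tn] at hc hc'
    have hr := h.rle
    rcases hc with ⟨a, ha, rfl⟩ | ⟨a, ha, rfl⟩ <;> rcases hc' with ⟨b, hb, rfl⟩ | ⟨b, hb, rfl⟩
    · rw [phi1_sub]
      have := h.sep a ha b hb (fun e => hne (by rw [e]))
      rw [lt_div_iff₀ (by norm_num)]
      calc 2 * (r / 10 ^ 20) * 10 ^ 20 = 2 * r := by ring
        _ < _ := this
    · refine lt_of_lt_of_le ?_ (phi12_sub (norm_le_of_mem h ha) (norm_le_of_mem h hb))
      norm_num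
      linarith
    · rw [norm_sub_rev]
      refine lt_of_lt_of_le ?_ (phi12_sub (norm_le_of_mem h hb) (norm_le_of_mem h ha))
      norm_num
      linarith
    · rw [phi2_sub]
      have := h.sep a ha b hb (fun e => hne (by rw [e]))
      rw [lt_div_iff₀ (by norm_num)]
      calc 2 * (r / 10 ^ 20) * 10 ^ 20 = 2 * r := by ring
        _ < _ := this
  rpos := div_pos h.rpos (by norm_num)
  rle := by
    have := h.rle
    have := h.rpos
    rw [div_le_one (by norm_num)]
    norm_num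
    linarith
  ompos := mul_pos h.ompos (by norm_num)

end step

/-- All levels exist. -/
theorem level_exists (k : ℕ) : ∃ (V : ℂ → ℝ) (Ω : Set ℂ) (T : Finset ℂ) (sg : ℝ),
    Lev k V Ω T (1 / (10 ^ 20) ^ k) ((1 / 10 ^ 9) * (1.42 / 10 ^ 10) ^ k) sg := by
  induction k with
  | zero =>
    refine ⟨V0, {z : ℂ | 1 < ‖z‖ ∧ ‖z‖ < 10 ^ 16 ∧ z ∈ slitPlane}, {0}, 0, ?_⟩
    have e1 : (1 : ℝ) / (10 ^ 20) ^ 0 = 1 := by norm_num
    have e2 : (1 / 10 ^ 9 : ℝ) * (1.42 / 10 ^ 10) ^ 0 = 1 / 10 ^ 9 := by norm_num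
    rw [e1, e2]
    exact level_zero
  | succ n ih =>
    obtain ⟨V, Ω, T, sg, h⟩ := ih
    have h2 := level_succ h
    refine ⟨Vn V ((1 / 10 ^ 9) * (1.42 / 10 ^ 10) ^ n), On Ω, Tn T, 1 + sg / 10 ^ 20, ?_⟩
    · have e1 : (1 : ℝ) / (10 ^ 20) ^ (n + 1) = 1 / (10 ^ 20) ^ n / 10 ^ 20 := by
        rw [pow_succ, div_div]
      have e2 : (1 / 10 ^ 9 : ℝ) * (1.42 / 10 ^ 10) ^ (n + 1) =
          (1 / 10 ^ 9) * (1.42 / 10 ^ 10) ^ n * (1.42 / 10 ^ 10) := by
        rw [pow_succ]; ring
      rw [e1, e2]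
      exact h2

end Pool.Agent.H209
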