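import Pool.Agent.H209.Glue
import Pool.Agent.H209.Base2

set_option autoImplicit false

namespace Pool.Agent.H209

open Set Filter Topology Metric Complex

/-- Gluing a convex open set along a convex overlap. -/
lemma glueC {U C : Set ℂ} (hU : IsOpen U ∧ IsSimplyConnected U) (hC : IsOpen C)
    (hCc : Convex ℝ C) {J : Set ℂ} (hJ : U ∩ C = J) (hJc : Convex ℝ J) (hJn : J.Nonempty) :
    IsOpen (U ∪ C) ∧ IsSimplyConnected (U ∪ C) := by
  refine ⟨hU.1.union hC, ?_⟩
  have hCn : C.Nonempty := by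
    obtain ⟨x, hx⟩ := hJn
    rw [← hJ] at hx
    exact ⟨x, hx.2⟩
  have hCs : IsSimplyConnected C := by
    have : ContractibleSpace C := hCc.contractibleSpace hCn
    exact SimplyConnectedSpace.ofContractible _
  apply Glue.IsSimplyConnected.union hU.1 hC hU.2 hCs
  rw [hJ]
  exact hJc.isPathConnected hJn

/-- Open rectangle cut with a disc. -/
def Bx (L a b c d : ℝ) : Set ℂ :=
  {z | ‖z‖ < L ∧ a < z.re ∧ z.re < b ∧ c < z.im ∧ z.im < d}

lemma isOpen_Bx (L a b c d : ℝ) : IsOpen (Bx L a b c d) := by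
  unfold Bx
  apply IsOpen.inter (isOpen_lt continuous_norm continuous_const)
  apply IsOpen.inter (isOpen_lt continuous_const continuous_re)
  apply IsOpen.inter (isOpen_lt continuous_re continuous_const)
  exact IsOpen.inter (isOpen_lt continuous_const continuous_im)
    (isOpen_lt continuous_im continuous_const)

lemma convex_Bx (L a b c d : ℝ) : Convex ℝ (Bx L a b c d) := by
  have h1 : Convex ℝ {z : ℂ | ‖z‖ < L} := by
    have := convex_ball (0:ℂ) L
    have h2 : ball (0:ℂ) L = {z : ℂ | ‖z‖ < L} := by ext z; simp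
    rwa [h2] at this
  exact h1.inter ((convex_halfSpace_re_gt a).inter ((convex_halfSpace_re_lt b).inter
    ((convex_halfSpace_im_gt c).inter (convex_halfSpace_im_lt d))))

lemma Bx_nonempty {L a b c d : ℝ} (x y : ℝ) (hL : |x| + |y| < L) (h1 : a < x) (h2 : x < b)
    (h3 : c < y) (h4 : y < d) : (Bx L a b c d).Nonempty := by
  refine ⟨⟨x, y⟩, ?_, h1, h2, h3, h4⟩
  exact lt_of_le_of_lt (norm_le_abs_re_add_abs_im _) hL

lemma norm_bd {z : ℂ} {L : ℝ} (h : ‖z‖ < L) : -L < z.re ∧ z.re < L ∧ -L < z.im ∧ z.im < L := by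
  have h1 := abs_re_le_norm z
  have h2 := abs_im_le_norm z
  rw [abs_le] at h1 h2
  refine ⟨?_, ?_, ?_, ?_⟩ <;> linarith [h1.1, h1.2, h2.1, h2.2]

/-- The outer region: the disc without the base tree and without the two closed squares around
the tips. -/
def Qs (m L : ℝ) : Set ℂ :=
  {z | ‖z‖ < L ∧ z ∉ Kb ∧ ¬(|z.re - 1| ≤ m ∧ |z.im| ≤ m) ∧ ¬(|z.re| ≤ m ∧ |z.im - 1| ≤ m)}

lemma isOpen_Qs (m L : ℝ) : IsOpen (Qs m L) := by
  unfold Qs
  apply IsOpen.inter (isOpen_lt continuous_norm continuous_const)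
  apply IsOpen.inter isOpen_Kbc
  apply IsOpen.inter
  · have c1 : Continuous (fun z : ℂ => |z.re - 1|) :=
      continuous_abs.comp (continuous_re.sub continuous_const)
    have c2 : Continuous (fun z : ℂ => |z.im|) := continuous_abs.comp continuous_im
    have : IsClosed ({z : ℂ | |z.re - 1| ≤ m} ∩ {z : ℂ | |z.im| ≤ m}) :=
      (isClosed_le c1 continuous_const).inter (isClosed_le c2 continuous_const)
    exact this.isOpen_compl
  · have c1 : Continuous (fun z : ℂ => |z.im - 1|) :=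
      continuous_abs.comp (continuous_im.sub continuous_const)
    have c2 : Continuous (fun z : ℂ => |z.re|) := continuous_abs.comp continuous_re
    have : IsClosed ({z : ℂ | |z.re| ≤ m} ∩ {z : ℂ | |z.im - 1| ≤ m}) :=
      (isClosed_le c2 continuous_const).inter (isClosed_le c1 continuous_const)
    exact this.isOpen_compl

lemma Qs_eq {m L : ℝ} (hm : 0 < m) (hm1 : m < 1 / 10) (hL : 10 ≤ L) :
    Qs m L = Bx L (1 + m) L (-L) L ∪ Bx L m L m L ∪ Bx L (-L) L (1 + m) L ∪
      Bx L 0 (1 - m) 0 (1 - m) ∪ Bx L (-L) (-m) 0 L ∪ Bx L (-L) 0 0 (1 - m) ∪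
      Bx L 0 L (-L) (-m) ∪ Bx L 0 (1 - m) (-L) 0 ∪ Bx L (-L) L (-L) (-1) ∪
      Bx L (-L) 0 (-L) 0 := by
  ext z
  constructor
  · rintro ⟨hn, hK, h1, h2⟩
    obtain ⟨b1, b2, b3, b4⟩ := norm_bd hn
    simp only [Bx, mem_union, mem_ofPred_eq, hn, true_and, b1, b2, b3, b4, and_true]
    by_contra hcon
    push Not at hcon
    obtain ⟨⟨⟨⟨⟨⟨⟨⟨⟨c1, c2⟩, c3⟩, c4⟩, c5⟩, c6⟩, c7⟩, c8⟩, c9⟩, c10⟩ := hcon
    have hK1 : z.im = 0 → 1 < z.re := by
      intro h; by_contra hc; push Not at hc; exact hK (Or.inl ⟨h, hc⟩)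
    have hK2 : z.re = 0 → 1 < |z.im| := by
      intro h; by_contra hc; push Not at hc; exact hK (Or.inr ⟨h, hc⟩)
    rw [abs_le, abs_le] at h1 h2
    rcases lt_trichotomy z.im 0 with hi | hi | hi
    · rcases lt_trichotomy z.re 0 with hr | hr | hr
      · exact absurd hi (not_lt.mpr (c10 hr))
      · have := hK2 hr
        rw [abs_of_neg hi] at this
        linarith
      · by_cases h3 : z.im < -m
        · exact absurd h3 (not_lt.mpr (c7 hr))
        · push Not at h3
          apply h1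
          refine ⟨⟨?_, by linarith⟩, by linarith, by linarith⟩
          by_contra hc
          push Not at hc
          have := c8 hr (by linarith)
          linarith
    · have := hK1 hi
      apply h1
      refine ⟨⟨by linarith, by linarith⟩, by linarith, by linarith⟩
    · rcases lt_trichotomy z.re 0 with hr | hr | hr
      · have h6 := c6 hr hi
        by_cases h3 : z.re < -m
        · exact absurd hi (not_lt.mpr (c5 h3))
        · push Not at h3
          apply h2
          refine ⟨⟨by linarith, by linarith⟩, by linarith, by linarith⟩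
      · have := hK2 hr
        rw [abs_of_pos hi] at this
        apply h2
        refine ⟨⟨by linarith, by linarith⟩, by linarith, by linarith⟩
      · by_cases h3 : m < z.re
        · have h4 := c2 h3
          apply h1
          refine ⟨⟨?_, by linarith⟩, by linarith, by linarith⟩
          by_contra hc
          push Not at hc
          have := c4 hr (by linarith) hi
          linarith
        · push Not at h3
          apply h2
          refine ⟨⟨by linarith, by linarith⟩, ?_, by linarith⟩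
          by_contra hc
          push Not at hc
          have := c4 hr (by linarith) hi
          linarith
  · intro h
    have hn : ‖z‖ < L := by
      rcases h with ((((((((h|h)|h)|h)|h)|h)|h)|h)|h)|h <;> exact h.1
    refine ⟨hn, ?_, ?_, ?_⟩
    · rintro (⟨h1, h2⟩ | ⟨h1, h2⟩)
      · rcases h with ((((((((h|h)|h)|h)|h)|h)|h)|h)|h)|h <;>
          obtain ⟨_, g1, g2, g3, g4⟩ := h <;> linarith
      · rw [abs_le] at h2
        obtain ⟨h2, h3⟩ := h2
        rcases h with ((((((((h|h)|h)|h)|h)|h)|h)|h)|h)|h <;>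
          obtain ⟨_, g1, g2, g3, g4⟩ := h <;> linarith
    · rintro ⟨h1, h2⟩
      rw [abs_le] at h1 h2
      obtain ⟨h11, h12⟩ := h1
      obtain ⟨h21, h22⟩ := h2
      rcases h with ((((((((h|h)|h)|h)|h)|h)|h)|h)|h)|h <;>
          obtain ⟨_, g1, g2, g3, g4⟩ := h <;> linarith
    · rintro ⟨h1, h2⟩
      rw [abs_le] at h1 h2
      obtain ⟨h11, h12⟩ := h1
      obtain ⟨h21, h22⟩ := h2
      rcases h with ((((((((h|h)|h)|h)|h)|h)|h)|h)|h)|h <;>
          obtain ⟨_, g1, g2, g3, g4⟩ := h <;> linarith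

lemma abs_add_lt {L : ℝ} (hL : 10 ≤ L) {x y : ℝ} (hx : |x| ≤ 4) (hy : |y| ≤ 4) :
    |x| + |y| < L := by linarith

lemma Qs_simply {m L : ℝ} (hm : 0 < m) (hm1 : m < 1 / 10) (hL : 10 ≤ L) :
    IsSimplyConnected (Qs m L) := by
  rw [Qs_eq hm hm1 hL]
  have s1 : IsOpen (Bx L (1 + m) L (-L) L) ∧ IsSimplyConnected (Bx L (1 + m) L (-L) L) := by
    refine ⟨isOpen_Bx _ _ _ _ _, ?_⟩
    have : ContractibleSpace (Bx L (1 + m) L (-L) L) :=
      (convex_Bx _ _ _ _ _).contractibleSpace
        (Bx_nonempty 2 0 (abs_add_lt hL (by norm_num) (by norm_num))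
          (by linarith) (by linarith) (by linarith) (by linarith))
    exact SimplyConnectedSpace.ofContractible _
  have s2 := glueC s1 (isOpen_Bx L m L m L) (convex_Bx _ _ _ _ _)
    (J := Bx L (1 + m) L m L) (by
      ext z
      constructor
      · rintro ⟨h, hn, h1, h2, h3, h4⟩
        obtain ⟨_, g1, g2, g3, g4⟩ := h
        refine ⟨hn, ?_, ?_, ?_, ?_⟩ <;> linarith
      · rintro ⟨hn, h1, h2, h3, h4⟩
        refine ⟨⟨hn, ?_, ?_, ?_, ?_⟩, hn, ?_, ?_, ?_, ?_⟩ <;> linarith)
    (convex_Bx _ _ _ _ _)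
    (Bx_nonempty 2 1 (abs_add_lt hL (by norm_num) (by norm_num))
          (by linarith) (by linarith) (by linarith) (by linarith))
  have s3 := glueC s2 (isOpen_Bx L (-L) L (1 + m) L) (convex_Bx _ _ _ _ _)
    (J := Bx L m L (1 + m) L) (by
      ext z
      constructor
      · rintro ⟨h, hn, h1, h2, h3, h4⟩
        rcases h with h | h <;>
        · obtain ⟨_, g1, g2, g3, g4⟩ := h
          refine ⟨hn, ?_, ?_, ?_, ?_⟩ <;> linarith
      · rintro ⟨hn, h1, h2, h3, h4⟩
        refine ⟨Or.inr ⟨hn, ?_, ?_, ?_, ?_⟩, hn, ?_, ?_, ?_, ?_⟩ <;> linarith)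
    (convex_Bx _ _ _ _ _)
    (Bx_nonempty 1 2 (abs_add_lt hL (by norm_num) (by norm_num))
          (by linarith) (by linarith) (by linarith) (by linarith))
  have s4 := glueC s3 (isOpen_Bx L 0 (1 - m) 0 (1 - m)) (convex_Bx _ _ _ _ _)
    (J := Bx L m (1 - m) m (1 - m)) (by
      ext z
      constructor
      · rintro ⟨h, hn, h1, h2, h3, h4⟩
        rcases h with (h | h) | h <;>
        · obtain ⟨_, g1, g2, g3, g4⟩ := h
          refine ⟨hn, ?_, ?_, ?_, ?_⟩ <;> linarith
      · rintro ⟨hn, h1, h2, h3, h4⟩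
        refine ⟨Or.inl (Or.inr ⟨hn, ?_, ?_, ?_, ?_⟩), hn, ?_, ?_, ?_, ?_⟩ <;> linarith)
    (convex_Bx _ _ _ _ _)
    (Bx_nonempty (1/2) (1/2) (abs_add_lt hL (by norm_num [abs_le]) (by norm_num [abs_le]))
          (by linarith) (by linarith) (by linarith) (by linarith))
  have s5 := glueC s4 (isOpen_Bx L (-L) (-m) 0 L) (convex_Bx _ _ _ _ _)
    (J := Bx L (-L) (-m) (1 + m) L) (by
      ext z
      constructor
      · rintro ⟨h, hn, h1, h2, h3, h4⟩
        rcases h with ((h | h) | h) | h <;>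
        · obtain ⟨_, g1, g2, g3, g4⟩ := h
          refine ⟨hn, ?_, ?_, ?_, ?_⟩ <;> linarith
      · rintro ⟨hn, h1, h2, h3, h4⟩
        refine ⟨Or.inl (Or.inr ⟨hn, ?_, ?_, ?_, ?_⟩), hn, ?_, ?_, ?_, ?_⟩ <;> linarith)
    (convex_Bx _ _ _ _ _)
    (Bx_nonempty (-1) 2 (abs_add_lt hL (by norm_num [abs_le]) (by norm_num [abs_le]))
          (by linarith) (by linarith) (by linarith) (by linarith))
  have s6 := glueC s5 (isOpen_Bx L (-L) 0 0 (1 - m)) (convex_Bx _ _ _ _ _)
    (J := Bx L (-L) (-m) 0 (1 - m)) (by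
      ext z
      constructor
      · rintro ⟨h, hn, h1, h2, h3, h4⟩
        rcases h with (((h | h) | h) | h) | h <;>
        · obtain ⟨_, g1, g2, g3, g4⟩ := h
          refine ⟨hn, ?_, ?_, ?_, ?_⟩ <;> linarith
      · rintro ⟨hn, h1, h2, h3, h4⟩
        refine ⟨Or.inr ⟨hn, ?_, ?_, ?_, ?_⟩, hn, ?_, ?_, ?_, ?_⟩ <;> linarith)
    (convex_Bx _ _ _ _ _)
    (Bx_nonempty (-1) (1/2) (abs_add_lt hL (by norm_num [abs_le]) (by norm_num [abs_le]))
          (by linarith) (by linarith) (by linarith) (by linarith))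
  have s7 := glueC s6 (isOpen_Bx L 0 L (-L) (-m)) (convex_Bx _ _ _ _ _)
    (J := Bx L (1 + m) L (-L) (-m)) (by
      ext z
      constructor
      · rintro ⟨h, hn, h1, h2, h3, h4⟩
        rcases h with ((((h | h) | h) | h) | h) | h <;>
        · obtain ⟨_, g1, g2, g3, g4⟩ := h
          refine ⟨hn, ?_, ?_, ?_, ?_⟩ <;> linarith
      · rintro ⟨hn, h1, h2, h3, h4⟩
        refine ⟨Or.inl (Or.inl (Or.inl (Or.inl (Or.inl ⟨hn, ?_, ?_, ?_, ?_⟩)))),
          hn, ?_, ?_, ?_, ?_⟩ <;> linarith)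
    (convex_Bx _ _ _ _ _)
    (Bx_nonempty 2 (-1) (abs_add_lt hL (by norm_num [abs_le]) (by norm_num [abs_le]))
          (by linarith) (by linarith) (by linarith) (by linarith))
  have s8 := glueC s7 (isOpen_Bx L 0 (1 - m) (-L) 0) (convex_Bx _ _ _ _ _)
    (J := Bx L 0 (1 - m) (-L) (-m)) (by
      ext z
      constructor
      · rintro ⟨h, hn, h1, h2, h3, h4⟩
        rcases h with (((((h | h) | h) | h) | h) | h) | h <;>
        · obtain ⟨_, g1, g2, g3, g4⟩ := h
          refine ⟨hn, ?_, ?_, ?_, ?_⟩ <;> linarith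
      · rintro ⟨hn, h1, h2, h3, h4⟩
        refine ⟨Or.inr ⟨hn, ?_, ?_, ?_, ?_⟩, hn, ?_, ?_, ?_, ?_⟩ <;> linarith)
    (convex_Bx _ _ _ _ _)
    (Bx_nonempty (1/2) (-1) (abs_add_lt hL (by norm_num [abs_le]) (by norm_num [abs_le]))
          (by linarith) (by linarith) (by linarith) (by linarith))
  have s9 := glueC s8 (isOpen_Bx L (-L) L (-L) (-1)) (convex_Bx _ _ _ _ _)
    (J := Bx L 0 L (-L) (-1)) (by
      ext z
      constructor
      · rintro ⟨h, hn, h1, h2, h3, h4⟩
        rcases h with ((((((h | h) | h) | h) | h) | h) | h) | h <;>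
        · obtain ⟨_, g1, g2, g3, g4⟩ := h
          refine ⟨hn, ?_, ?_, ?_, ?_⟩ <;> linarith
      · rintro ⟨hn, h1, h2, h3, h4⟩
        refine ⟨Or.inl (Or.inr ⟨hn, ?_, ?_, ?_, ?_⟩), hn, ?_, ?_, ?_, ?_⟩ <;> linarith)
    (convex_Bx _ _ _ _ _)
    (Bx_nonempty (1/2) (-2) (abs_add_lt hL (by norm_num [abs_le]) (by norm_num [abs_le]))
          (by linarith) (by linarith) (by linarith) (by linarith))
  have s10 := glueC s9 (isOpen_Bx L (-L) 0 (-L) 0) (convex_Bx _ _ _ _ _)
    (J := Bx L (-L) 0 (-L) (-1)) (by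
      ext z
      constructor
      · rintro ⟨h, hn, h1, h2, h3, h4⟩
        rcases h with (((((((h | h) | h) | h) | h) | h) | h) | h) | h <;>
        · obtain ⟨_, g1, g2, g3, g4⟩ := h
          refine ⟨hn, ?_, ?_, ?_, ?_⟩ <;> linarith
      · rintro ⟨hn, h1, h2, h3, h4⟩
        refine ⟨Or.inr ⟨hn, ?_, ?_, ?_, ?_⟩, hn, ?_, ?_, ?_, ?_⟩ <;> linarith)
    (convex_Bx _ _ _ _ _)
    (Bx_nonempty (-1) (-2) (abs_add_lt hL (by norm_num [abs_le]) (by norm_num [abs_le]))
          (by linarith) (by linarith) (by linarith) (by linarith))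
  exact s10.2

/-- The slit square annulus. -/
def SA (L : ℝ) : Set ℂ :=
  {z | ‖z‖ < L ∧ (2 < |z.re| ∨ 2 < |z.im|) ∧ ¬(z.im = 0 ∧ z.re ≤ 0)}

lemma SA_pathConnected {L : ℝ} (hL : 10 ≤ L) : IsPathConnected (SA L) := by
  have hS : SA L = (Bx L 2 L (-L) L ∪ Bx L (-L) L 2 L ∪ Bx L (-L) (-2) 0 L) ∪
      (Bx L (-L) L (-L) (-2) ∪ Bx L (-L) (-2) (-L) 0) := by
    ext z
    constructor
    · rintro ⟨hn, h1, h2⟩
      obtain ⟨b1, b2, b3, b4⟩ := norm_bd hn
      simp only [Bx, mem_union, mem_ofPred_eq, hn, true_and, b1, b2, b3, b4, and_true]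
      rw [lt_abs, lt_abs] at h1
      rcases h1 with (h | h) | (h | h)
      · left; left; left; exact h
      · have h' : z.re < -2 := by linarith
        have him : z.im ≠ 0 := fun h3 => h2 ⟨h3, by linarith⟩
        rcases lt_or_gt_of_ne him with h3 | h3
        · right; right; exact ⟨h', h3⟩
        · left; right; exact ⟨h', h3⟩
      · left; left; right; exact h
      · right; left; linarith
    · intro h
      have hn : ‖z‖ < L := by
        rcases h with ((h | h) | h) | (h | h) <;> exact h.1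
      refine ⟨hn, ?_, ?_⟩
      · rw [lt_abs, lt_abs]
        rcases h with ((h | h) | h) | (h | h)
        · left; left; exact h.2.1
        · right; left; exact h.2.2.2.1
        · left; right; linarith [h.2.2.1]
        · right; right; linarith [h.2.2.2.2]
        · left; right; linarith [h.2.2.1]
      · rintro ⟨h1, h2⟩
        rcases h with ((h | h) | h) | (h | h) <;> obtain ⟨_, g1, g2, g3, g4⟩ := h <;> linarith
  rw [hS]
  have hn1 : (Bx L 2 L (-L) L).Nonempty := Bx_nonempty 3 0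
    (abs_add_lt hL (by norm_num [abs_le]) (by norm_num [abs_le]))
    (by linarith) (by linarith) (by linarith) (by linarith)
  have hn2 : (Bx L (-L) L 2 L).Nonempty := Bx_nonempty 0 3
    (abs_add_lt hL (by norm_num [abs_le]) (by norm_num [abs_le]))
    (by linarith) (by linarith) (by linarith) (by linarith)
  have hn3 : (Bx L (-L) (-2) 0 L).Nonempty := Bx_nonempty (-3) 3
    (abs_add_lt hL (by norm_num [abs_le]) (by norm_num [abs_le]))
    (by linarith) (by linarith) (by linarith) (by linarith)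
  have hn4 : (Bx L (-L) L (-L) (-2)).Nonempty := Bx_nonempty 0 (-3)
    (abs_add_lt hL (by norm_num [abs_le]) (by norm_num [abs_le]))
    (by linarith) (by linarith) (by linarith) (by linarith)
  have hn5 : (Bx L (-L) (-2) (-L) 0).Nonempty := Bx_nonempty (-3) (-3)
    (abs_add_lt hL (by norm_num [abs_le]) (by norm_num [abs_le]))
    (by linarith) (by linarith) (by linarith) (by linarith)
  have mem : ∀ (x y a b c d : ℝ), |x| ≤ 4 → |y| ≤ 4 → a < x → x < b → c < y → y < d →
      (⟨x, y⟩ : ℂ) ∈ Bx L a b c d := by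
    intro x y a b c d hx hy h1 h2 h3 h4
    exact ⟨lt_of_le_of_lt (norm_le_abs_re_add_abs_im _) (abs_add_lt hL hx hy), h1, h2, h3, h4⟩
  apply IsPathConnected.union
  · apply IsPathConnected.union
    · apply IsPathConnected.union ((convex_Bx _ _ _ _ _).isPathConnected hn1)
        ((convex_Bx _ _ _ _ _).isPathConnected hn2)
      refine ⟨⟨3, 3⟩, ?_, ?_⟩ <;> apply mem <;> first | linarith | norm_num [abs_le]
    · exact (convex_Bx _ _ _ _ _).isPathConnected hn3
    · refine ⟨⟨-3, 3⟩, Or.inr ?_, ?_⟩ <;> apply mem <;> first | linarith | norm_num [abs_le]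
  · apply IsPathConnected.union ((convex_Bx _ _ _ _ _).isPathConnected hn4)
        ((convex_Bx _ _ _ _ _).isPathConnected hn5)
    refine ⟨⟨-3, -3⟩, ?_, ?_⟩ <;> apply mem <;> first | linarith | norm_num [abs_le]
  · refine ⟨⟨3, -3⟩, Or.inl (Or.inl ?_), Or.inl ?_⟩ <;> apply mem <;>
      first | linarith | norm_num [abs_le]

/-- The slit round annulus is simply connected. -/
lemma annulus_simply {L : ℝ} (hL : 1 < L) :
    IsSimplyConnected {z : ℂ | 1 < ‖z‖ ∧ ‖z‖ < L ∧ z ∈ slitPlane} := by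
  set S : Set ℂ := {w | 0 < w.re ∧ w.re < Real.log L ∧ -Real.pi < w.im ∧ w.im < Real.pi} with hS
  set Ω : Set ℂ := {z : ℂ | 1 < ‖z‖ ∧ ‖z‖ < L ∧ z ∈ slitPlane} with hΩ
  have hlog : ∀ z ∈ Ω, log z ∈ S := by
    rintro z ⟨h1, h2, h3⟩
    refine ⟨?_, ?_, ?_, ?_⟩
    · rw [log_re]; exact Real.log_pos h1
    · rw [log_re]; exact Real.log_lt_log (by linarith) h2
    · rw [log_im]; exact neg_pi_lt_arg z
    · rw [log_im]
      exact lt_of_le_of_ne (arg_le_pi z) (mem_slitPlane_iff_arg.mp h3).1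
  have hexp : ∀ w ∈ S, exp w ∈ Ω := by
    rintro w ⟨h1, h2, h3, h4⟩
    refine ⟨?_, ?_, ?_⟩
    · rw [norm_exp]; exact Real.one_lt_exp_iff.mpr h1
    · rw [norm_exp]
      rw [← Real.exp_log (show 0 < L by linarith)]
      exact Real.exp_lt_exp.mpr h2
    · rw [mem_slitPlane_iff_arg]
      refine ⟨?_, exp_ne_zero w⟩
      rw [← log_im, log_exp h3 h4.le]
      exact h4.ne
  let e : Ω ≃ₜ S :=
    { toFun := fun z => ⟨log z.1, hlog z.1 z.2⟩
      invFun := fun w => ⟨exp w.1, hexp w.1 w.2⟩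
      left_inv := by
        rintro ⟨z, hz⟩
        apply Subtype.ext
        have : z ≠ 0 := slitPlane_ne_zero hz.2.2
        exact exp_log this
      right_inv := by
        rintro ⟨w, hw⟩
        apply Subtype.ext
        exact log_exp hw.2.2.1 hw.2.2.2.le
      continuous_toFun := by
        apply Continuous.subtype_mk
        have : ContinuousOn log Ω := fun z hz =>
          (continuousAt_clog hz.2.2).continuousWithinAt
        exact continuousOn_iff_continuous_domRestrict.mp this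
      continuous_invFun := by
        apply Continuous.subtype_mk
        exact continuous_exp.comp continuous_subtype_val }
  have hSc : Convex ℝ S :=
    (convex_halfSpace_re_gt 0).inter ((convex_halfSpace_re_lt _).inter
      ((convex_halfSpace_im_gt _).inter (convex_halfSpace_im_lt _)))
  have hSn : S.Nonempty := by
    have hl : 0 < Real.log L := Real.log_pos hL
    refine ⟨((Real.log L / 2 : ℝ) : ℂ), ?_, ?_, ?_, ?_⟩
    · rw [ofReal_re]; linarith
    · rw [ofReal_re]; linarith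
    · rw [ofReal_im]; linarith [Real.pi_pos]
    · rw [ofReal_im]; exact Real.pi_pos
  have : ContractibleSpace S := hSc.contractibleSpace hSn
  have : SimplyConnectedSpace S := SimplyConnectedSpace.ofContractible _
  exact e.toHomotopyEquiv.simplyConnectedSpace

end Pool.Agent.H209
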